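import Pool.Agent.P.MP_68237a_lc.Scale

/-!
A canonical scale from a family of scales in which any two centres have a common member.
-/

universe u

set_option synthInstance.maxSize 16384

namespace Pool.Agent.P.MP_68237a_lc

open ZFSet Pool.Agent.Lib.Forcing Filter

section defs
variable (N : Set ZFSet.{u}) (Su : ZFSet.{u} → Prop) (G : R3.{u}) (Z τ₁ τ₂ : ZFSet.{u})

def Cmp (c c' : ZFSet.{u}) : Prop :=
  ∀ s ∈ N, Su s → ∀ s' ∈ N, Su s' → ∃ E ∈ N, G s c E ∧ G s' c' E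

def LL (a s c k x y : ZFSet.{u}) : Prop :=
  ∀ E ∈ N, G s c E → Rel E (insert (insert k k) (insert k k)) x a ∧
    Rel E (insert (insert k k) (insert k k)) a y

def SG (a s c k : ZFSet.{u}) : Prop :=
  ∃ V ∈ τ₁, ∃ V' ∈ τ₂, a ∈ V ∧ a ∈ V' ∧ ∀ x ∈ V', ∀ y ∈ V, LL N G a s c k x y

def Pr (a s n x y : ZFSet.{u}) : Prop :=
  ∀ c ∈ n, ∀ k ∈ n, Cmp N Su G c c → (SG N G τ₁ τ₂ a s c k → LL N G a s c k x y) ∧
    ∃ c' ∈ omega, Cmp N Su G c c' ∧ LL N G a s c' k x y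

def Wit (a s m n : ZFSet.{u}) : Prop :=
  ∃ c ∈ n, ∃ k ∈ n, Cmp N Su G c c ∧ SG N G τ₁ τ₂ a s c k ∧ ∀ x ∈ Z, ∀ y ∈ Z,
    (∃ E ∈ N, G s c E ∧ Rel E k x a) → (∃ E ∈ N, G s c E ∧ Rel E k a y) →
      Pr N Su G τ₁ τ₂ a s m x y

def Lev (a s : ZFSet.{u}) : ZFSet.{u} → Prop :=
  Gen N (fun z => ∃ n ∈ omega, z = pair ∅ n) fun z q _ => ∃ r m, q = pair r m ∧ ∃ n ∈ omega,
    z = pair (insert r r) n ∧ r ∈ n ∧ Wit N Su G Z τ₁ τ₂ a s m n

def WW : R3.{u} := fun r x y => ∃ a ∈ Z, ∃ s ∈ N, Su s ∧ ∃ n ∈ omega,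
  Lev N Su G Z τ₁ τ₂ a s (pair r n) ∧ Pr N Su G τ₁ τ₂ a s n x y

end defs

variable {N : Set ZFSet.{u}} {Su : ZFSet.{u} → Prop}

theorem df_WW [ZFm N] (G : ZFSet.{u} → R3.{u}) (Z τ₁ τ₂ : ZFSet.{u} → ZFSet.{u})
    [hS : Df N fun e => Su (e 0)] [hG : Df N fun e => G (e 0) (e 1) (e 2) (e 3)]
    [hZ : Tm N fun e => Z (e 0)] [h1 : Tm N fun e => τ₁ (e 0)] [h2 : Tm N fun e => τ₂ (e 0)] :
    Df N fun e => WW N Su (G (e 0)) (Z (e 0)) (τ₁ (e 0)) (τ₂ (e 0)) (e 1) (e 2) (e 3) := by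
  have hS' : ∀ (s : Env.{u} → ZFSet.{u}) [Tm N s], Df N (fun e => Su (s e)) :=
    fun s _ => Df.subst1 hS s
  have hG' : ∀ (s t w v : Env.{u} → ZFSet.{u}) [Tm N s] [Tm N t] [Tm N w] [Tm N v],
      Df N (fun e => G (s e) (t e) (w e) (v e)) := fun s t w v _ _ _ _ => Df.subst4 hG s t w v
  have hZ' := hZ.apply1
  have h1' := h1.apply1
  have h2' := h2.apply1
  have h3 := Df.subst3 (M := N) (R := fun p c c' => Cmp N Su (G p) c c')
    (by unfold Cmp; infer_instance)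
  have h4 := Df.subst2 (M := N) (R := fun z q => Lev N Su (G (fst q)) (Z (fst q)) (τ₁ (fst q))
    (τ₂ (fst q)) (fst (snd q)) (snd (snd q)) z) (@df_gen N _ (fun _ z => ∃ n ∈ omega, z = pair ∅ n)
      (fun p z q _ => ∃ r m, q = pair r m ∧ ∃ n ∈ omega, z = pair (insert r r) n ∧ r ∈ n ∧
        Wit N Su (G (fst p)) (Z (fst p)) (τ₁ (fst p)) (τ₂ (fst p)) (fst (snd p)) (snd (snd p)) m n)
      inferInstance (by unfold Wit Pr SG LL Rel; infer_instance))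
  have h5 := Df.subst4 (M := N) (R := fun p a s z => Lev N Su (G p) (Z p) (τ₁ p) (τ₂ p) a s z)
    ((h4 (fun e => e 3) fun e => pair (e 0) (pair (e 1) (e 2))).congr fun e _ => by
      simp only [fst_pair, snd_pair])
  unfold WW Pr SG LL Rel
  infer_instance

variable {G R : R3.{u}} {Z τ₁ τ₂ : ZFSet.{u}}

theorem Lev.inv {a s z : ZFSet.{u}} (h : Lev N Su G Z τ₁ τ₂ a s z) :
    ∃ r n : ℕ, z = pair (nat r) (nat n) ∧ r ≤ n ∧ ∀ r', r = r' + 1 →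
      ∃ m, Lev N Su G Z τ₁ τ₂ a s (pair (nat r') (nat m)) ∧
        Wit N Su G Z τ₁ τ₂ a s (nat m) (nat n) := by
  induction h with
  | ax _ h =>
    obtain ⟨n, rfl⟩ := exists_omega.1 h
    exact ⟨0, n, rfl, n.zero_le, nofun⟩
  | step _ h1 _ h ih _ =>
    obtain ⟨r, m, rfl, -⟩ := ih
    obtain ⟨_, _, e, h'⟩ := h
    obtain ⟨rfl, rfl⟩ := pair_inj.1 e
    obtain ⟨n, rfl, b, c⟩ := exists_omega.1 h'
    exact ⟨r + 1, n, rfl, nat_mem_nat.1 b, fun r' e => ⟨m, Nat.succ_injective e ▸ h1, c⟩⟩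

/-- `P` contains the product of two neighbourhoods of `a`. -/
def NB (Z : ZFSet.{u}) (R : R3.{u}) (a : ZFSet.{u}) (P : ZFSet.{u} → ZFSet.{u} → Prop) : Prop :=
  ∃ m, ∀ x ∈ Z, ∀ y ∈ Z, R (nat m) x a → R (nat m) a y → P x y

theorem full_WW [ZFm N] (hR : Full omega Z τ₁ τ₂ R) (hG : ∀ s c E, G s c E → Sc omega Z (Rel E))
    (H : ∀ a ∈ Z, ∃ s ∈ N, Su s ∧ (∀ c k, Cmp N Su G (nat c) (nat c) →
      ∃ c', Cmp N Su G (nat c) (nat c') ∧ NB Z R a (LL N G a s (nat c') (nat k))) ∧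
      ∀ m, ∃ c k, Cmp N Su G (nat c) (nat c) ∧ NB Z R a (LL N G a s (nat c) (nat k)) ∧
        ∀ E ∈ N, G s (nat c) E → ∀ x ∈ Z, (Rel E (nat k) x a → R (nat m) x a) ∧
          (Rel E (nat k) a x → R (nat m) a x)) :
    Full omega Z τ₁ τ₂ (WW N Su G Z τ₁ τ₂) := by
  obtain ⟨r0, r1, r2⟩ := hR
  have ev : ∀ a ∈ Z, ∀ P, NB Z R a P ↔ ∀ᶠ m in atTop, ∀ x ∈ Z, ∀ y ∈ Z,
      R (nat m) x a → R (nat m) a y → P x y := fun a ha P =>
    ⟨fun ⟨m, h⟩ => (eventually_ge_atTop m).mono fun l hl x hx y hy b c =>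
      h x hx y hy (r0.mono hx ha hl b) (r0.mono ha hy hl c), fun h => h.exists⟩
  have sg : ∀ a ∈ Z, ∀ s c k, SG N G τ₁ τ₂ a s c k ↔ NB Z R a (LL N G a s c k) := by
    intro a ha s c k
    constructor
    · rintro ⟨V, hV, V', hV', b, b', h⟩
      obtain ⟨m, hm⟩ := (cp_iff.1 r1).1 V hV a b
      obtain ⟨m', hm'⟩ := (cp_iff.1 r2).1 V' hV' a b'
      exact ⟨max m m', fun x hx y hy d e => h x (hm' x hx (r0.mono hx ha (le_max_right _ _) d))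
        y (hm y hy (r0.mono ha hy (le_max_left _ _) e))⟩
    · rintro ⟨m, h⟩
      obtain ⟨V, hV, b, d⟩ := (cp_iff.1 r1).2.1 a ha m
      obtain ⟨V', hV', b', d'⟩ := (cp_iff.1 r2).2.1 a ha m
      exact ⟨V, hV, V', hV', b, b', fun x hx y hy =>
        h x (r2.2.2 _ hV' hx) y (r1.2.2 _ hV hy) (d' x hx) (d y hy)⟩
  have pr : ∀ {a s n x y}, Pr N Su G τ₁ τ₂ a s (nat n) x y ↔ ∀ c < n, ∀ k < n,
      Cmp N Su G (nat c) (nat c) → (SG N G τ₁ τ₂ a s (nat c) (nat k) →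
        LL N G a s (nat c) (nat k) x y) ∧
        ∃ c', Cmp N Su G (nat c) (nat c') ∧ LL N G a s (nat c') (nat k) x y := by
    simp [Pr, mem_nat, exists_omega]
  have nb : ∀ a ∈ Z, ∀ r, NB Z R a (WW N Su G Z τ₁ τ₂ (nat r)) := by
    intro a ha r
    obtain ⟨s, hs, hs', h1, h2⟩ := H a ha
    have p1 : ∀ n, NB Z R a (Pr N Su G τ₁ τ₂ a s (nat n)) := fun n => by
      have : ∀ᶠ m in atTop, ∀ c < n, ∀ k < n, ∀ x ∈ Z, ∀ y ∈ Z, R (nat m) x a → R (nat m) a y →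
          Cmp N Su G (nat c) (nat c) → (SG N G τ₁ τ₂ a s (nat c) (nat k) →
          LL N G a s (nat c) (nat k) x y) ∧
          ∃ c', Cmp N Su G (nat c) (nat c') ∧ LL N G a s (nat c') (nat k) x y := by
        refine (eventually_all_finite (Set.finite_lt_nat n)).2 fun c _ =>
          (eventually_all_finite (Set.finite_lt_nat n)).2 fun k _ => ?_
        by_cases hc : Cmp N Su G (nat c) (nat c)
        swap
        · exact .of_forall fun _ _ _ _ _ _ _ h => (hc h).elim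
        obtain ⟨c', b, d⟩ := h1 c k hc
        by_cases hk : SG N G τ₁ τ₂ a s (nat c) (nat k)
        · filter_upwards [(ev a ha _).1 d, (ev a ha _).1 ((sg a ha _ _ _).1 hk)]
            with m e f x hx y hy g g' _ using ⟨fun _ => f x hx y hy g g', c', b, e x hx y hy g g'⟩
        · filter_upwards [(ev a ha _).1 d] with m e x hx y hy g g' _
            using ⟨fun h => (hk h).elim, c', b, e x hx y hy g g'⟩
      exact this.exists.imp fun m h x hx y hy b d => pr.2 fun c hc k hk => h c hc k hk x hx y hy b d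
    have p4 : ∃ n, Lev N Su G Z τ₁ τ₂ a s (pair (nat r) (nat n)) := by
      induction r with
      | zero => exact ⟨0, .ax (pair_mem (nat_mem 0) (nat_mem 0)) ⟨_, nat_mem_omega 0, rfl⟩⟩
      | succ r ih =>
        obtain ⟨m, hm⟩ := ih
        obtain ⟨l, hl⟩ := p1 m
        obtain ⟨c, k, b, d, e⟩ := h2 l
        exact ⟨r + c + k + 1, .step (pair_mem (nat_mem _) (nat_mem _)) hm hm ⟨_, _, rfl, _,
          nat_mem_omega _, rfl, nat_mem_nat.2 (by omega), _, nat_mem_nat.2 (by omega : c < _), _,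
          nat_mem_nat.2 (by omega : k < _), b, (sg a ha _ _ _).2 d,
          fun x hx y hy ⟨E, e1, e2, e3⟩ ⟨E', f1, f2, f3⟩ =>
            hl x hx y hy ((e E e1 e2 x hx).1 e3) ((e E' f1 f2 y hy).2 f3)⟩⟩
    obtain ⟨n, hn⟩ := p4
    exact (p1 n).imp fun m h x hx y hy b d =>
      ⟨a, ha, s, hs, hs', _, nat_mem_omega n, hn, h x hx y hy b d⟩
  have sm : ∀ a ∈ Z, ∀ m, ∃ r, ∀ y ∈ Z, (WW N Su G Z τ₁ τ₂ (nat r) a y → R (nat m) a y) ∧
      (WW N Su G Z τ₁ τ₂ (nat r) y a → R (nat m) y a) := by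
    intro a ha m
    obtain ⟨s, hs, hs', -, h2⟩ := H a ha
    obtain ⟨c, k, b, -, e⟩ := h2 m
    have : ∀ x ∈ Z, ∀ y ∈ Z, WW N Su G Z τ₁ τ₂ (nat (c + k + 1)) x y →
        ∃ E ∈ N, G s (nat c) E ∧ Rel E (nat k) x y := by
      rintro x hx y hy ⟨a', ha', s', f1, f2, _, -, f3, f4⟩
      obtain ⟨r, n, g1, g2, -⟩ := f3.inv
      simp only [pair_inj, nat_inj] at g1
      obtain ⟨rfl, rfl⟩ := g1
      obtain ⟨c', g3, g4⟩ := (pr.1 f4 c (by omega) k (by omega) b).2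
      obtain ⟨E, i1, i2, i3⟩ := g3 s hs hs' s' f1 f2
      exact ⟨E, i1, i2, (hG _ _ _ i2).mono hx hy k.le_succ
        ((hG _ _ _ i2).half hx ha' hy (g4 E i1 i3).1 (g4 E i1 i3).2)⟩
    refine ⟨c + k + 1, fun y hy => ⟨fun h => ?_, fun h => ?_⟩⟩
    · obtain ⟨E, i1, i2, i3⟩ := this a ha y hy h
      exact (e E i1 i2 y hy).2 i3
    · obtain ⟨E, i1, i2, i3⟩ := this y hy a ha h
      exact (e E i1 i2 y hy).1 i3
  refine ⟨sc_iff.2 ⟨fun k x hx => ?_, ?_, fun x hx y hy h => (sc_iff.1 r0).2.2 x hx y hy fun m =>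
    (sm x hx m).elim fun r hr => (hr y hy).1 (h r)⟩,
    r1.congr (fun x hx k => (nb x hx k).imp fun m h y hy => h x hx y hy (r0.refl m hx))
      fun x hx k => (sm x hx k).imp fun m h y hy => (h y hy).1,
    r2.congr (fun x hx k => (nb x hx k).imp fun m h y hy b => h y hy x hx b (r0.refl m hx))
      fun x hx k => (sm x hx k).imp fun m h y hy => (h y hy).2⟩
  · obtain ⟨m, h⟩ := nb x hx k
    exact h x hx x hx (r0.refl m hx) (r0.refl m hx)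
  rintro r x hx y hy z hz ⟨a, ha, s, s1, s2, _, -, l1, p1⟩ ⟨a', ha', s', s1', s2', _, -, l2, p2⟩
  obtain ⟨_, n, g1, -, g2⟩ := l1.inv
  obtain ⟨_, n', g1', -, g2'⟩ := l2.inv
  simp only [pair_inj, nat_inj] at g1 g1'
  obtain ⟨rfl, rfl⟩ := g1
  obtain ⟨rfl, rfl⟩ := g1'
  rcases le_total n n' with h | h
  · obtain ⟨m, i1, _, i2, _, i3, i4, i5, i6⟩ := g2 r rfl
    obtain ⟨c, hc, rfl⟩ := mem_nat.1 i2
    obtain ⟨k, hk, rfl⟩ := mem_nat.1 i3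
    obtain ⟨c', j1, j2⟩ := (pr.1 p2 c (by omega) k (by omega) i4).2
    obtain ⟨E, e1, e2, e3⟩ := j1 s s1 s2 s' s1' s2'
    have j3 := (pr.1 p1 c hc k hk i4).1 i5 E e1 e2
    exact ⟨a, ha, s, s1, s2, _, nat_mem_omega m, i1, i6 x hx z hz
      ⟨E, e1, e2, (hG _ _ _ e2).mono hx ha (k.le_add_right 2) j3.1⟩
      ⟨E, e1, e2, (hG _ _ _ e2).three ha hy ha' hz j3.2 (j2 E e1 e3).1 (j2 E e1 e3).2⟩⟩
  · obtain ⟨m, i1, _, i2, _, i3, i4, i5, i6⟩ := g2' r rfl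
    obtain ⟨c, hc, rfl⟩ := mem_nat.1 i2
    obtain ⟨k, hk, rfl⟩ := mem_nat.1 i3
    obtain ⟨c', j1, j2⟩ := (pr.1 p1 c (by omega) k (by omega) i4).2
    obtain ⟨E, e1, e2, e3⟩ := j1 s' s1' s2' s s1 s2
    have j3 := (pr.1 p2 c hc k hk i4).1 i5 E e1 e2
    exact ⟨a', ha', s', s1', s2', _, nat_mem_omega m, i1, i6 x hx z hz
      ⟨E, e1, e2, (hG _ _ _ e2).three hx ha hy ha' (j2 E e1 e3).1 (j2 E e1 e3).2 j3.1⟩
      ⟨E, e1, e2, (hG _ _ _ e2).mono ha' hz (k.le_add_right 2) j3.2⟩⟩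

end Pool.Agent.P.MP_68237a_lc
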