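import Pool.Agent.P.MP_68237a_lc.Diag
import Pool.Agent.P.MP_68237a_lc.WLem

/-!
The generic model satisfies the bitopological product principle.
-/

universe u

set_option synthInstance.maxSize 16384

namespace Pool.Agent.P.MP_68237a_lc

open ZFSet Pool.Agent.Lib.Forcing

variable {A : Amalg} {Γ : ZFSet.{u}} (G : GM A Γ)

namespace GM

theorem ok (S0 : Finset ℕ) {Z τ₁ τ₂ E0 : ZFSet.{u}}
    (hZ : ∃ t, G.val t (S0.image (2 * ·)) (· / 2) = Z)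
    (h1 : ∃ t, G.val t (S0.image (2 * ·)) (· / 2) = τ₁)
    (h2 : ∃ t, G.val t (S0.image (2 * ·)) (· / 2) = τ₂) (hE : E0 ∈ G.N)
    (hR : Full omega Z τ₁ τ₂ (Rel E0)) : ∃ t : Tr, Full omega Z τ₁ τ₂
      (WW G.N (G.Su (asg G.y.2 (S0.image (2 * ·)) (· / 2)))
        (G.Gd (asg G.y.2 (S0.image (2 * ·)) (· / 2)) Z τ₁ τ₂ (t.code G.o)) Z τ₁ τ₂) := by
  set I0 := S0.image (2 * ·)
  set U0 : ℕ → ℕ := (· / 2)
  obtain ⟨S1, hS1⟩ := G.names E0 hE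
  let E1 := (S1 \ S0).image (2 * · + 1)
  obtain ⟨t, ht⟩ := hS1 (I0 ∪ E1) U0 fun s hs => by
    by_cases h : s ∈ S0
    · exact ⟨2 * s, Finset.mem_union_left _ (Finset.mem_image_of_mem _ h), by simp [U0]⟩
    · exact ⟨2 * s + 1, Finset.mem_union_right _ (Finset.mem_image_of_mem _
        (Finset.mem_sdiff.2 ⟨hs, h⟩)), by simp only [U0]; omega⟩
  refine ⟨t, full_WW hR (fun _ _ _ ⟨_, _, _, _, _, h, _⟩ => h.1) fun a ha => ?_⟩
  let SV : ℕ → Prop := fun c => (∀ s ∈ (cls c).E, Odd s) ∧ A.Adm (I0 ∪ (cls c).E) (cls c).q ∧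
    Tp G.y I0 (cls c).q U0 ∧ ∀ V, Set.InjOn V (I0 ∪ (cls c).E : Finset ℕ) →
      (∀ s ∈ I0, V s = U0 s) → Tp G.y (I0 ∪ (cls c).E) (cls c).q V →
      Lab G.y (cls c).E (cls c).L (cls c).σ V →
      Full omega Z τ₁ τ₂ (Rel (G.val t (I0 ∪ (cls c).E) V))
  let Le : ℕ → ℕ → Prop := fun c' c => (cls c').E = (cls c).E ∧ (cls c').q = (cls c).q ∧
    Rf (cls c).E (cls c).L (cls c).σ (cls c').L (cls c').σ
  have le0 : ∀ c, Le c c := fun c => ⟨rfl, rfl, .refl⟩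
  have le1 : ∀ {c c' c''}, Le c'' c' → Le c' c → Le c'' c := fun a b =>
    ⟨a.1.trans b.1, a.2.1.trans b.2.1, b.2.2.trans (b.1 ▸ a.2.2)⟩
  have le2 : ∀ c L σ, Rf (cls c).E (cls c).L (cls c).σ L σ → ∃ c', Le c' c ∧
      ∀ V, Lab G.y (cls c).E (cls c').L (cls c').σ V → Lab G.y (cls c).E L σ V := fun c L σ h => by
    obtain ⟨c', a, b, d, e⟩ := exists_cls.choose_spec.2 c L σ
    have : Rf (cls c).E L σ (cls c').L (cls c').σ := ⟨d.ge, e⟩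
    exact ⟨c', ⟨a, b, h.trans this⟩, fun V => this.lab⟩
  have sv1 : ∀ {c c'}, SV c → Le c' c → SV c' := by
    rintro c c' a ⟨b, d, e⟩
    simp only [SV, b, d]
    exact ⟨a.1, a.2.1, a.2.2.1, fun V f g h i => a.2.2.2 V f g h (e.lab i)⟩
  have sv0 : ∀ c V, (∀ s ∈ (cls c).E, Odd s) → Set.InjOn V (I0 ∪ (cls c).E : Finset ℕ) →
      (∀ s ∈ I0, V s = U0 s) → Tp G.y (I0 ∪ (cls c).E) (cls c).q V →
      Lab G.y (cls c).E (cls c).L (cls c).σ V →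
      Full omega Z τ₁ τ₂ (Rel (G.val t (I0 ∪ (cls c).E) V)) → ∃ c', Le c' c ∧ SV c' := by
    intro c V a b d e f g
    obtain ⟨tZ, hZ⟩ := hZ
    obtain ⟨t1, h1⟩ := h1
    obtain ⟨t2, h2⟩ := h2
    have n := Finset.subset_union_left (s₁ := I0) (s₂ := (cls c).E)
    have v : ∀ V t, (∀ s ∈ I0, V s = U0 s) → G.val t I0 V = G.val t I0 U0 :=
      fun V t h => valR_congr h
    obtain ⟨L, hL⟩ := @GM.cont6 _ _ G (fun a b c d e _ => Full a b c d (Rel e))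
      (by unfold Full Sc Cp R3.inv Rel; infer_instance) _ _ _ _ _ _ _
      (G.nm_ord omega_mem isOrdinal_omega' _) (G.nm_val tZ n) (G.nm_val t1 n) (G.nm_val t2 n)
      (G.nm_val t subset_rfl) (G.nm_nat 0 _) V b (by simpa only [v V _ d, hZ, h1, h2] using g)
    obtain ⟨c', ⟨i, j, k⟩, l⟩ := le2 c (max (cls c).L L) (fun s => G.y.2 (V s)) ⟨le_max_left _ _, f⟩
    refine ⟨c', ⟨i, j, k⟩, ?_⟩
    simp only [SV, i, j]
    refine ⟨a, G.adm_pull b e, fun s hs t ht => by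
      rw [← d s hs, ← d t ht, e s (n hs) t (n ht)], fun V' b' d' e' f' => ?_⟩
    simpa only [v V' _ d', hZ, h1, h2] using hL V' b' (fun s hs t ht => (e' s hs t ht).trans
      (e s hs t ht).symm) fun s hs k hk => (Finset.mem_union.1 hs).elim
        (fun h => by rw [d s h, d' s h]) fun h => l V' f' s h k (hk.trans_le (le_max_right _ _))
  have gd1 : ∀ {c c' s E}, s ∈ G.N → G.Su (asg G.y.2 I0 U0) s → Le c' c →
      G.Gd (asg G.y.2 I0 U0) Z τ₁ τ₂ (t.code G.o) s (nat c') E →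
      G.Gd (asg G.y.2 I0 U0) Z τ₁ τ₂ (t.code G.o) s (nat c) E := by
    rintro c c' s E a b ⟨d, e, f⟩
    obtain ⟨I, U, -, g, h, i, rfl⟩ := (G.su_iff a).1 b
    rw [G.gd_iff g h i, G.gd_iff g h i, d, e]
    exact fun ⟨j, V, k, l, m⟩ => ⟨j, V, k, f.lab l, m⟩
  have cmp : ∀ {c c'}, SV c' → Le c' c → Cmp G.N (G.Su (asg G.y.2 I0 U0))
      (G.Gd (asg G.y.2 I0 U0) Z τ₁ τ₂ (t.code G.o)) (nat c) (nat c') := by
    intro c c' a b s hs hs' s' ht ht'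
    obtain ⟨I, U, d1, d2, d3, d4, e⟩ := (G.su_iff hs).1 hs'
    obtain ⟨I', U', f1, f2, f3, f4, rfl⟩ := (G.su_iff ht).1 ht'
    obtain ⟨V, V', v1, v2, v3, v4⟩ := G.real d2 f2 d1 f1
      (fun s hs => (f3 s hs).trans (d3 s hs).symm) (disj_of_parity d4 a.1) (disj_of_parity f4 a.1)
      a.2.1 (fun s hs t ht => by rw [d3 s hs, d3 t ht, a.2.2.1 s hs t ht]) (cls c').L (cls c').σ
    have := a.2.2.2 V (v1.inj.mono (Finset.coe_subset.2 (Finset.union_subset_union_left d2)))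
      (fun s hs => (v1.eq s (d2 hs)).trans (d3 s hs)) v1.tp v3
    refine ⟨_, G.val_mem t (I0 ∪ (cls c').E) V, gd1 hs hs' b (e ▸ (G.gd_iff d2 d3 d4).2
      ⟨a.1, V, v1, v3, rfl, this⟩), (G.gd_iff f2 f3 f4).2 ⟨a.1, V', v2,
      fun s hs k hk => v4 s hs ▸ v3 s hs k hk, valR_congr fun s hs => ?_, this⟩⟩
    rcases Finset.mem_union.1 hs with h | h
    · rw [v1.eq s (d2 h), v2.eq s (f2 h), d3 s h, f3 s h]
    · exact (v4 s h).symm
  obtain ⟨S2, hS2⟩ := G.names a (mem_of_mem (hZ.elim fun t h => h ▸ G.val_mem _ _ _) ha)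
  let I := (S0 ∪ S2).image (2 * ·)
  have i0 : I0 ⊆ I := Finset.image_subset_image Finset.subset_union_left
  have i1 : ∀ i ∈ I, Even i := Finset.forall_mem_image.2 fun s _ => even_two_mul s
  have i2 : Set.InjOn U0 I := fun s hs t ht e => by
    obtain ⟨a, rfl⟩ := i1 s hs
    obtain ⟨b, rfl⟩ := i1 t ht
    simp only [U0] at e; omega
  have hs := G.asg_mem I U0
  have hs' := (G.su_iff hs).2 ⟨I, U0, i2, i0, fun _ _ => rfl, i1, rfl⟩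
  have K : ∀ c k, SV c → ∃ c' m, Le c' c ∧ ∀ E,
      G.Gd (asg G.y.2 I0 U0) Z τ₁ τ₂ (t.code G.o) (asg G.y.2 I U0) (nat c') E →
        Two Z (Rel E) (Rel E0) a (nat k) (nat m) := by
    intro c k b
    obtain ⟨L, σ, m, d, e⟩ := G.key i0 i2 (disj_of_parity i1 b.1) hZ (hS2 I U0 fun s hs =>
      ⟨2 * s, Finset.mem_image_of_mem _ (Finset.mem_union_right _ hs), by simp [U0]⟩) ha b.2.1
      b.2.2.1 b.2.2.2 hR k
    obtain ⟨c', f, g⟩ := le2 c L σ d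
    refine ⟨c', m, f, fun E h => ?_⟩
    rw [G.gd_iff i0 (fun _ _ => rfl) i1, f.1, f.2.1] at h
    obtain ⟨-, V, j1, j2, rfl, -⟩ := h
    exact e V j1 (g V j2)
  have nb : ∀ {c k m}, (∀ E, G.Gd (asg G.y.2 I0 U0) Z τ₁ τ₂ (t.code G.o) (asg G.y.2 I U0) (nat c) E →
      Two Z (Rel E) (Rel E0) a (nat (k + 2)) (nat m)) → NB Z (Rel E0) a (LL G.N
        (G.Gd (asg G.y.2 I0 U0) Z τ₁ τ₂ (t.code G.o)) a (asg G.y.2 I U0) (nat c) (nat k)) :=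
    fun h => ⟨_, fun x hx y hy b d E _ e => ⟨(h E e x hx).2.2.2 b, (h E e y hy).2.2.1 d⟩⟩
  refine ⟨_, hs, hs', fun c k h => ?_, fun m => ?_⟩
  · obtain ⟨E, -, b, -⟩ := h _ hs hs' _ hs hs'
    obtain ⟨d, V, e, f, rfl, g⟩ := (G.gd_iff i0 (fun _ _ => rfl) i1).1 b
    obtain ⟨c1, j1, j2⟩ := sv0 c V d
      (e.inj.mono (Finset.coe_subset.2 (Finset.union_subset_union_left i0)))
      (fun s hs => e.eq s (i0 hs)) e.tp f g
    obtain ⟨c2, m, j3, j4⟩ := K c1 (k + 2) j2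
    exact ⟨c2, cmp (sv1 j2 j3) (le1 j3 j1), nb j4⟩
  · obtain ⟨c0, b, d, e⟩ := exists_cls.choose_spec.1 E1 (fun s t => G.y.1 (U0 s) (U0 t))
      ((I0 ∪ E1).sup id + 1)
    change (cls c0).E = _ at b
    obtain ⟨c1, -, j1⟩ := sv0 c0 U0
      (b ▸ Finset.forall_mem_image.2 fun s _ => odd_two_mul_add_one s) (b ▸ fun s hs t ht h => by
        simp only [Finset.coe_union, Set.mem_union, Finset.mem_coe, I0, E1, Finset.mem_image,
          Finset.mem_sdiff, U0] at hs ht h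
        rcases hs with ⟨s, hs, rfl⟩ | ⟨s, hs, rfl⟩ <;> rcases ht with ⟨t, ht, rfl⟩ | ⟨t, ht, rfl⟩
        · omega
        · exact (ht.2 ((by omega : s = t) ▸ hs)).elim
        · exact (hs.2 ((by omega : t = s) ▸ ht)).elim
        · omega) (fun _ _ => rfl)
      (b ▸ fun s hs t ht => (e s (lt_sup_succ hs) t (lt_sup_succ ht)).symm)
      (fun _ _ k hk => absurd (hk.trans_eq d) k.not_lt_zero) (by rwa [b, GM.val, ht])
    obtain ⟨c2, k, j2, j3⟩ := K c1 m j1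
    obtain ⟨c3, n, j4, j5⟩ := K c2 (k + 2) (sv1 j1 j2)
    exact ⟨c3, k, cmp (sv1 j1 (le1 j4 j2)) (le0 _), nb j5, fun E _ h x hx =>
      ⟨(j3 E (gd1 hs hs' j4 h) x hx).2.1, (j3 E (gd1 hs hs' j4 h) x hx).1⟩⟩

theorem bi (t1 : PwT ∈ G.N) (t2 : StT ∈ G.N) (t3 : EvT ∈ G.N) (t4 : UT A ∈ G.N) :
    CPQMBi G.N := by
  intro J _ hJ X hX T₁ h1 T₂ h2 fX f1 f2 H P hP τ₁ _ τ₂ _ p0 p1 p2
  obtain ⟨g, hg, g1, g2⟩ := id hJ
  have := InM.mk hg
  have := InM.mk hX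
  have := InM.mk h1
  have := InM.mk h2
  have := InM.mk t3
  have := InM.mk t4
  obtain ⟨S1, s1⟩ := G.names _
    (inferInstance : Tm G.N fun _ => img (fun p => pair (snd p) (fst p)) g).mem'
  obtain ⟨S2, s2⟩ := G.names X hX
  obtain ⟨S3, s3⟩ := G.names T₁ h1
  obtain ⟨S4, s4⟩ := G.names T₂ h2
  let S0 := S1 ∪ S2 ∪ S3 ∪ S4
  have cov : ∀ S ⊆ S0, ∀ s ∈ S, ∃ i ∈ S0.image (2 * ·), i / 2 = s := fun S h s hs =>
    ⟨2 * s, Finset.mem_image_of_mem _ (h hs), by simp⟩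
  set e0 := asg.{u} G.y.2 (S0.image (2 * ·)) (· / 2) with he0
  have : InM G.N e0 := ⟨G.asg_mem _ _⟩
  let W0 : ZFSet.{u} → R3.{u} := fun p => WW G.N (G.Su e0) (G.Gd e0 (app X (fst p))
    (app T₁ (fst p)) (app T₂ (fst p)) (snd p)) (app X (fst p)) (app T₁ (fst p)) (app T₂ (fst p))
  have hev := df_ev G.zf.powerSet G.base
  have d0 := Df.subst4 (R := W0) (@df_WW G.N (G.Su e0) _ (fun p => G.Gd e0 (app X (fst p))
    (app T₁ (fst p)) (app T₂ (fst p)) (snd p)) (fun p => app X (fst p)) (fun p => app T₁ (fst p))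
    (fun p => app T₂ (fst p)) (by unfold Su Asg; infer_instance)
    (by unfold Gd Asg Full Sc Cp R3.inv Rel mat apx; infer_instance) inferInstance inferInstance
    inferInstance)
  let OK : ZFSet.{u} → ZFSet.{u} → Prop := fun j γ =>
    Full omega (app X j) (app T₁ j) (app T₂ j) (W0 (pair j γ))
  have d1 := Df.subst2 (M := G.N) (R := OK) (by
    simp only [OK]; unfold Full Sc Cp R3.inv; infer_instance)
  refine @prod_biqm _ _ t2 _ _ _ _ _ _ _ hJ fX f1 f2 hP p0 p1 p2 (fun j k x y => ∃ γ ∈ G.N,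
    γ.IsOrdinal ∧ OK j γ ∧ (∀ γ' ∈ γ, ¬ OK j γ') ∧ W0 (pair j γ) k x y) inferInstance
    fun j hj => ?_
  obtain ⟨n, a, -⟩ := g1.2 j hj
  have hn := (pair_mem_prod.1 (g1.1 a)).2
  have nj : ∃ t, G.val t (S0.image (2 * ·)) (· / 2) = j := by
    have := G.at_app (s1 _ _ (cov S1 (by simp [S0, Finset.union_assoc])))
      ((G.at_ord (mem_of_mem omega_mem hn) (isOrdinal_omega'.mem hn)).imp fun t h => h _ _)
    rwa [app_eq (mem_img.2 ⟨_, a, by rw [fst_pair, snd_pair]⟩) fun w hw => ?_] at this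
    obtain ⟨p, b, c⟩ := mem_img.1 hw
    obtain ⟨i, -, m, -, rfl⟩ := mem_prod.1 (g1.1 b)
    simp only [fst_pair, snd_pair, pair_inj] at c
    exact c.2 ▸ g2 _ _ _ (c.1 ▸ b) a
  obtain ⟨E, hE, b⟩ := (H j _ _ _ (fX.iff.2 ⟨hj, rfl⟩) (f1.iff.2 ⟨hj, rfl⟩)
    (f2.iff.2 ⟨hj, rfl⟩)).full t1 (snd_mem hX (fX.iff.2 ⟨hj, rfl⟩))
  obtain ⟨t, ht⟩ := G.ok S0 (G.at_app (s2 _ _ (cov S2 fun s hs => by simp [S0, hs])) nj)
    (G.at_app (s3 _ _ (cov S3 fun s hs => by simp [S0, hs])) nj)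
    (G.at_app (s4 _ _ (cov S4 fun s hs => by simp [S0, hs])) nj) hE b
  obtain ⟨γ, ⟨c1, c2, c3⟩, c4⟩ := mem_wf.has_min {γ | γ ∈ G.N ∧ γ.IsOrdinal ∧ OK j γ}
    ⟨_, (G.code_mem t).1, (G.code_mem t).2, by simpa only [OK, W0, fst_pair, snd_pair] using ht⟩
  convert c3 using 1
  ext k x y
  refine ⟨fun ⟨γ', e1, e2, e3, e4, e5⟩ => ?_, fun h => ⟨γ, c1, c2, c3,
    fun γ' e1 e2 => c4 γ' ⟨mem_of_mem c1 e1, c2.mem e1, e2⟩ e1, h⟩⟩
  rcases c2.mem_trichotomous e2 with h | rfl | h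
  exacts [(e4 _ h c3).elim, e5, (c4 γ' ⟨e1, e2, e3⟩ h).elim]

end GM

end Pool.Agent.P.MP_68237a_lc
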