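import Pool.Agent.P.MP_68237a_lc.Comb2

/-!
The explicit structures used to refute the product principle, and the passage to a countable
alphabet.
-/

namespace Pool.Agent.P.MP_68237a_lc

def dNil : Dat := ⟨0, fun _ _ => ⊤, 0, fun _ => 2, fun _ => 0, 0, 0, 0⟩

def dDiag (j so m : ℕ) : Dat :=
  ⟨0, fun k l => if k = l then 0 else if l = j then 1 else ⊤, 0, fun _ => 2, fun _ => 0, j, so, m⟩

def pot (u a b k : ℕ) : ℕ := if k = a then u else if k = b then u + 1 else 0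

def dH (u a b : ℕ) : Dat := { dNil with H := pot u a b }

def dC (δ u a b u' a' b' : ℕ) : Dat :=
  { dNil with δ := δ, c := fun k l => ((pot u a b k - pot u' a' b' l : ℕ) : ℕ∞) }

theorem cross_empty (g : Str) (x y : ℕ) : cross ∅ g (0, fun _ => 2) x y = dNil := by
  unfold cross dNil
  congr 1
  · funext k l; simp
  · funext k; simp

/-- Atom `0` is the limit point, atoms `u + 1` form a descending chain. -/
def chain0 (so m : ℕ) (g e : ℕ → ℕ) : Str := fun x y =>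
  if x = y then dDiag (if x = 0 then 0 else g (x - 1)) so m
  else if x = 0 then dH (y - 1) (g (y - 1)) (g y)
  else if y ≠ 0 ∧ y < x then dC (e (y - 1)) (x - 1) (g (x - 1)) (g x) (y - 1) (g (y - 1)) (g y)
  else dNil

theorem adm_chain0 {so m : ℕ} (hm : m ≠ so) {g e : ℕ → ℕ} (hg : StrictMono g)
    (he : ∀ u, e u ≤ g (u + 2)) (D : Finset ℕ) : Adm D (chain0 so m g e) := by
  set w := chain0 so m g e with hw
  let P : ℕ → ℕ → ℕ := fun y => pot (y - 1) (g (y - 1)) (g y)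
  have w1 : ∀ x, w x x = dDiag (if x = 0 then 0 else g (x - 1)) so m := fun x => if_pos rfl
  have w2 : ∀ y, y ≠ 0 → w 0 y = dH (y - 1) (g (y - 1)) (g y) := fun y h =>
    (if_neg h.symm).trans (if_pos rfl)
  have w3 : ∀ x y, y ≠ 0 ∧ y < x → w x y =
      dC (e (y - 1)) (x - 1) (g (x - 1)) (g x) (y - 1) (g (y - 1)) (g y) := fun x y h =>
    (if_neg h.2.ne').trans ((if_neg (by omega)).trans (if_pos h))
  have w4 : ∀ x y, x ≠ y → x ≠ 0 → ¬ (y ≠ 0 ∧ y < x) → w x y = dNil := fun x y a b c =>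
    (if_neg a).trans ((if_neg b).trans (if_neg c))
  have hB : ∀ k x y, B w k x y ↔ x = y ∨ (y ≠ 0 ∧ y < x ∧ k < e (y - 1)) := by
    intro k x y
    unfold B
    refine or_congr_right' fun a => ?_
    by_cases b : x = 0
    · subst b; rw [w2 y (Ne.symm a)]; simp [dH, dNil]
    · by_cases c : y ≠ 0 ∧ y < x
      · rw [w3 x y c]; simp [dC, c]
      · rw [w4 x y a b c, ← and_assoc]; simp only [c, dNil, false_and, Nat.not_lt_zero]
  have hc : ∀ x y k l, (w x y).c k l = if x = y then (if k = l then 0 else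
      if l = (w x x).j then 1 else ⊤) else if y ≠ 0 ∧ y < x then ((P x k - P y l : ℕ) : ℕ∞)
      else ⊤ := by
    intro x y k l
    by_cases a : x = y
    · subst a; rw [if_pos rfl, w1]; rfl
    · rw [if_neg a]
      by_cases c : y ≠ 0 ∧ y < x
      · rw [w3 x y c, if_pos c]; rfl
      · rw [if_neg c]
        by_cases b : x = 0
        · subst b; rw [w2 y (Ne.symm a)]; rfl
        · rw [w4 x y a b c]; rfl
  have hj : ∀ x, x ≠ 0 → (w x x).j = g (x - 1) := by
    intro x hx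
    rw [w1, if_neg hx]; rfl
  have hH : ∀ x y k, (w x y).H k = if x = 0 ∧ y ≠ 0 then P y k else 0 := by
    intro x y k
    by_cases b : x = 0 ∧ y ≠ 0
    · rw [if_pos b, b.1, w2 y b.2]; rfl
    · rw [if_neg b]
      by_cases a : x = y
      · subst a; rw [w1]; rfl
      · by_cases c : y ≠ 0 ∧ y < x
        · rw [w3 x y c]; rfl
        · rw [w4 x y a (by omega) c]; rfl
  have hσ : ∀ x y k, (w x y).σ k = 2 := by
    intro x y k
    simp only [hw, chain0]
    split_ifs <;> rfl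
  have lipP : ∀ x y k l, x ≠ 0 → y ≠ 0 → (P x k : ℕ∞) ≤ P y l + (w x y).c k l := by
    intro x y k l hx hy
    rw [hc]
    split_ifs with h1 h2 h3 h4
    · subst h1 h2; simp
    · subst h1
      rw [h3, hj x hx]
      have : P x k ≤ P x (g (x - 1)) + 1 := by
        simp only [P, pot]; split_ifs <;> omega
      exact_mod_cast this
    · simp
    · exact_mod_cast (by omega : P x k ≤ P y l + (P x k - P y l))
    · simp
  refine ⟨fun x _ y _ u _ k => ?_, fun x _ y _ => ?_, fun x _ y _ k => ?_, fun x _ k => ?_,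
    fun x _ y _ u _ k l n => ?_, fun x _ y _ u _ k l => ?_, fun x _ y _ u _ k _ => ?_,
    fun x _ y _ h => ?_⟩
  · simp only [hB]
    rintro (rfl | h) (rfl | h')
    exacts [Or.inl rfl, Or.inr h', Or.inr h, Or.inr ⟨h'.1, h'.2.1.trans h.2.1, h'.2.2⟩]
  · simp only [hB]; omega
  · rw [hB, hc]
    rintro (rfl | ⟨h1, h2, h3⟩)
    · simp
    · rw [if_neg h2.ne', if_pos ⟨h1, h2⟩]
      have : P x k ≤ P y k := by
        obtain ⟨y, rfl⟩ := Nat.exists_eq_succ_of_ne_zero h1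
        obtain ⟨x, rfl⟩ := Nat.exists_eq_succ_of_ne_zero (show x ≠ 0 by omega)
        have h4 := h3.trans_le (he _)
        simp only [P, pot, Nat.succ_eq_add_one, Nat.add_sub_cancel] at *
        by_cases a : k = g x
        · have : x = y + 1 := by
            have := hg.lt_iff_lt.1 (a ▸ h4); omega
          subst this
          have := hg (show y < y + 1 by omega)
          rw [if_pos a, if_neg (by omega), if_pos a]
        · have := hg.monotone (show y + 2 ≤ x + 1 by omega)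
          rw [if_neg a, if_neg (by omega)]
          exact Nat.zero_le _
      simp [Nat.sub_eq_zero_of_le this]
  · rw [hc, if_pos rfl, if_pos rfl]; split_ifs <;> simp
  · by_cases a : x = u
    · subst a
      by_cases b : x = y
      · subst b
        simp only [hc, if_true]
        generalize (w x x).j = i
        clear * -
        split_ifs <;> simp_all
      · have : (w x y).c k l = ⊤ ∨ (w y x).c l n = ⊤ := by
          rw [hc, hc, if_neg b, if_neg (Ne.symm b)]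
          split_ifs <;> first | omega | simp
        rcases this with h | h <;> simp [h]
    · by_cases b : u ≠ 0 ∧ u < x
      · by_cases c : y = 0
        · have : (w x y).c k l = ⊤ := by rw [hc, if_neg (by omega), if_neg (by omega)]
          simp [this]
        · rw [hc x u, if_neg a, if_pos b]
          have h1 := lipP x y k l (by omega) c
          have h2 := lipP y u l n c b.1
          rw [ENat.coe_sub, tsub_le_iff_left]
          refine h1.trans ?_
          rw [add_comm ((w x y).c k l), ← add_assoc]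
          gcongr
      · have : (w x y).c k l = ⊤ ∨ (w y u).c l n = ⊤ := by
          rw [hc, hc]
          by_cases c : x = y
          · subst c; right; rw [if_neg a, if_neg b]
          · by_cases d : y = u
            · subst d; left; rw [if_neg c, if_neg b]
            · rw [if_neg c, if_neg d]
              split_ifs <;> first | omega | simp
        rcases this with h | h <;> simp [h]
  · rw [hH, hH]
    split_ifs with h1 h2
    · exact lipP y u k l h1.2 h2.2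
    · have : (w y u).c k l = ⊤ := by rw [hc, if_neg (by omega), if_neg (by omega)]
      simp [this]
    · simp
    · simp
  · rw [hσ, hσ]
  · simp [hw, chain0, dDiag, hm] at h

/-- The chain placed freely next to a given structure on atoms below `M`. -/
def chain (M : ℕ) (w0 w1 : Str) : Str := fun x y =>
  if x < M ∧ y < M then w0 x y else if M ≤ x ∧ M ≤ y then w1 (x - M) (y - M) else dNil

theorem adm_chain {M so m : ℕ} {K E : Finset ℕ} {w0 w1 : Str} (hK : ∀ x ∈ K, x < M)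
    (hE : ∀ x ∈ E, M ≤ x) (h0 : Adm K w0) (h1 : ∀ D, Adm D w1)
    (h2 : ∀ x, (w1 x x).so = so ∧ (w1 x x).m = m)
    (h3 : ∀ x ∈ K, (w0 x x).m ≠ so ∧ (w0 x x).so ≠ m) : Adm (K ∪ E) (chain M w0 w1) := by
  have hd : Disjoint K E := Finset.disjoint_left.2 fun x a b => (hK x a).not_ge (hE x b)
  have a0 : Adm K (chain M w0 w1) := h0.pull (U := id) (Set.injOn_id _) (fun _ h => h)
    fun s hs t ht => by simp [chain, hK s hs, hK t ht]
  have a1 : Adm (∅ ∪ E) (chain M w0 w1) := by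
    rw [Finset.empty_union]
    refine (h1 (E.image (· - M))).pull (U := (· - M)) (fun s hs t ht h => ?_)
      (fun s hs => Finset.mem_image_of_mem _ hs) fun s hs t ht => ?_
    · have := hE s hs; have := hE t ht; simp only at h; omega
    · simp [chain, hE s hs, hE t ht, (hE s hs).not_gt]
  have ns : ∀ x ∈ K ∪ E, ∀ y ∈ K ∪ E, ¬ Same ∅ E x y → (x ∈ K ∧ y ∈ E) ∨ (x ∈ E ∧ y ∈ K) := by
    intro x hx y hy h
    rw [Finset.mem_union] at hx hy
    unfold Same at h; tauto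
  have := adm_build (Θ := fun _ _ => (0, fun _ => 2)) (Finset.empty_subset K) hd a0 a1
    ⟨fun _ _ _ _ _ _ _ _ _ _ => le_rfl, fun _ _ _ _ _ _ _ _ _ => rfl, fun x hx y hy p h => by
      rcases ns x hx y hy p with ⟨a, b⟩ | ⟨a, b⟩
      · simp only [chain, hK x a, hE y b, (hE y b).not_gt, and_self, if_true, if_false, h2] at h
        exact ((h3 x a).1 h).elim
      · simp only [chain, hK y b, hE x a, (hE x a).not_gt, and_self, if_true, if_false, h2] at h
        exact ((h3 y b).2 h.symm).elim⟩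
  refine this.pull (U := id) (Set.injOn_id _) (fun _ h => h) fun x hx y hy => ?_
  simp only [build, id]
  split_ifs with p
  · rfl
  · rw [cross_empty]
    rcases ns x hx y hy p with ⟨a, b⟩ | ⟨a, b⟩
    · simp [chain, (hK x a).not_ge, (hE y b).not_gt]
    · simp [chain, (hK y b).not_ge, (hE x a).not_gt]

/-- A class of finite structures with values in `ℕ` that has strong amalgamation in the
two-sided canonical form. -/
structure Amalg where
  Adm : Finset ℕ → (ℕ → ℕ → ℕ) → Prop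
  TG : Finset ℕ → Finset ℕ → Finset ℕ → (ℕ → ℕ → ℕ) → Prop
  pull : ∀ {D D' : Finset ℕ} {w w' : ℕ → ℕ → ℕ} {U : ℕ → ℕ}, Adm D' w' → Set.InjOn U D →
    (∀ s ∈ D, U s ∈ D') → (∀ s ∈ D, ∀ t ∈ D, w s t = w' (U s) (U t)) → Adm D w
  pt : ∃ c, ∀ t, Adm {t} fun _ _ => c
  tg_pull : ∀ {E0 D E : Finset ℕ} {w w' : ℕ → ℕ → ℕ} {U : ℕ → ℕ}, E0 ⊆ D →
    TG (E0.image U) (D.image U) (E.image U) w' → Set.InjOn U (D ∪ E : Finset ℕ) →
    (∀ s ∈ D ∪ E, ∀ t ∈ D ∪ E, w s t = w' (U s) (U t)) → TG E0 D E w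
  tg_fin : ∀ {E0 D E : Finset ℕ}, E0 ⊆ D → Disjoint D E → ∀ s q : ℕ → ℕ → ℕ,
    ∃ T : Set (ℕ → ℕ → ℕ), T.Finite ∧ ∀ w, TG E0 D E w → (∀ x ∈ D, ∀ y ∈ D, w x y = s x y) →
      (∀ x ∈ E0 ∪ E, ∀ y ∈ E0 ∪ E, w x y = q x y) →
      ∃ w' ∈ T, ∀ x ∈ D ∪ E, ∀ y ∈ D ∪ E, w x y = w' x y
  tg_ex : ∀ {E0 D1 D2 E : Finset ℕ} {s q : ℕ → ℕ → ℕ}, E0 ⊆ D1 → E0 ⊆ D2 →
    Disjoint (D1 ∪ D2) E → Adm (D1 ∪ D2) s → Adm (E0 ∪ E) q →
    (∀ x ∈ E0, ∀ y ∈ E0, s x y = q x y) →
    ∃ w, Adm (D1 ∪ D2 ∪ E) w ∧ (∀ x ∈ D1 ∪ D2, ∀ y ∈ D1 ∪ D2, w x y = s x y) ∧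
      (∀ x ∈ E0 ∪ E, ∀ y ∈ E0 ∪ E, w x y = q x y) ∧ TG E0 D1 E w ∧ TG E0 D2 E w

theorem exists_closed (S0 : Set Dat) (h0 : S0.Countable) :
    ∃ S : Set Dat, S.Countable ∧ S0 ⊆ S ∧ ∀ {E0 D1 D2 E : Finset ℕ} {s q : Str},
      E0 ⊆ D1 → E0 ⊆ D2 → Disjoint (D1 ∪ D2) E → Adm (D1 ∪ D2) s → Adm (E0 ∪ E) q →
      (∀ x ∈ E0, ∀ y ∈ E0, s x y = q x y) → (∀ x y, s x y ∈ S) → (∀ x y, q x y ∈ S) →
      ∃ w, Adm (D1 ∪ D2 ∪ E) w ∧ (∀ x ∈ D1 ∪ D2, ∀ y ∈ D1 ∪ D2, w x y = s x y) ∧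
        (∀ x ∈ E0 ∪ E, ∀ y ∈ E0 ∪ E, w x y = q x y) ∧ TG E0 D1 E w ∧ TG E0 D2 E w ∧
        ∀ x y, w x y ∈ S := by
  classical
  choose! W hW using fun (E0 D1 D2 E : Finset ℕ) (s q : Str) => @exists_TG E0 D1 D2 E s q
  let ex : ∀ (D : Finset ℕ) (T : Set Dat), (↥(D ×ˢ D) → T) → Str := fun D T h x y =>
    if hx : (x, y) ∈ D ×ˢ D then h ⟨_, hx⟩ else dNil
  let st : Set Dat → Set Dat := fun T => T ∪ ⋃ (E0) (D1) (D2) (E) (s) (q) (x) (y),
    {W E0 D1 D2 E (ex (D1 ∪ D2) T s) (ex (E0 ∪ E) T q) x y}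
  let S : ℕ → Set Dat := fun n => st^[n] S0
  have hS : ∀ n, S (n + 1) = st (S n) := fun n => Function.iterate_succ_apply' st n S0
  have hc : ∀ n, (S n).Countable := by
    intro n
    induction n with
    | zero => exact h0
    | succ n ih =>
      have := ih.to_subtype
      rw [hS]
      refine ih.union ?_
      repeat refine Set.countable_iUnion fun _ => ?_
      exact Set.countable_singleton _
  have hm : Monotone S := monotone_nat_of_le_succ fun n => hS n ▸ Set.subset_union_left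
  refine ⟨⋃ n, S n, Set.countable_iUnion hc, Set.subset_iUnion S 0, ?_⟩
  intro E0 D1 D2 E s q h1 h2 hd a1 a2 h hs hq
  have fin : ∀ (D : Finset ℕ) (s : Str), (∀ x y, s x y ∈ ⋃ n, S n) →
      ∃ n, ∀ p ∈ D ×ˢ D, s p.1 p.2 ∈ S n := by
    intro D s hs
    choose k hk using fun x y => Set.mem_iUnion.1 (hs x y)
    exact ⟨(D ×ˢ D).sup fun p => k p.1 p.2, fun p hp =>
      hm (Finset.le_sup (f := fun p => k p.1 p.2) hp) (hk _ _)⟩
  obtain ⟨n1, hn1⟩ := fin (D1 ∪ D2) s hs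
  obtain ⟨n2, hn2⟩ := fin (E0 ∪ E) q hq
  let s' := ex (D1 ∪ D2) (S (max n1 n2)) fun p => ⟨_, hm (le_max_left _ _) (hn1 p.1 p.2)⟩
  let q' := ex (E0 ∪ E) (S (max n1 n2)) fun p => ⟨_, hm (le_max_right _ _) (hn2 p.1 p.2)⟩
  have es : ∀ x ∈ D1 ∪ D2, ∀ y ∈ D1 ∪ D2, s' x y = s x y := fun x hx y hy => by
    simp only [s', ex, dif_pos (Finset.mem_product.2 ⟨hx, hy⟩ : (x, y) ∈ _)]
  have eq : ∀ x ∈ E0 ∪ E, ∀ y ∈ E0 ∪ E, q' x y = q x y := fun x hx y hy => by
    simp only [q', ex, dif_pos (Finset.mem_product.2 ⟨hx, hy⟩ : (x, y) ∈ _)]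
  obtain ⟨c1, c2, c3, c4, c5⟩ := hW E0 D1 D2 E s' q' h1 h2 hd
    (a1.pull (U := id) (Set.injOn_id _) (fun _ h => h) es)
    (a2.pull (U := id) (Set.injOn_id _) (fun _ h => h) eq) fun x hx y hy => by
      rw [es x (Finset.mem_union_left _ (h1 hx)) y (Finset.mem_union_left _ (h1 hy)),
        eq x (Finset.mem_union_left _ hx) y (Finset.mem_union_left _ hy), h x hx y hy]
  refine ⟨_, c1, fun x hx y hy => (c2 x hx y hy).trans (es x hx y hy),
    fun x hx y hy => (c3 x hx y hy).trans (eq x hx y hy), c4, c5, fun x y => ?_⟩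
  refine Set.mem_iUnion.2 ⟨max n1 n2 + 1, hS _ ▸ Or.inr ?_⟩
  simp only [Set.mem_iUnion]
  exact ⟨E0, D1, D2, E, fun p => ⟨_, hm (le_max_left _ _) (hn1 p.1 p.2)⟩,
    fun p => ⟨_, hm (le_max_right _ _) (hn2 p.1 p.2)⟩, x, y, Set.mem_singleton _⟩

def Seed (d : Dat) : Prop :=
  d = dNil ∨ (∃ j so m, d = dDiag j so m) ∨ (∃ u a b, d = dH u a b) ∨
    ∃ δ u a b u' a' b', d = dC δ u a b u' a' b'

theorem exists_amalg : ∃ (A : Amalg) (ρ : ℕ → Dat) (enc : Dat → ℕ),
    (∀ d, Seed d → ρ (enc d) = d) ∧ ∀ D w, A.Adm D w ↔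
      Adm D (fun x y => ρ (w x y)) ∧ ∀ x ∈ D, ∀ y ∈ D, enc (ρ (w x y)) = w x y := by
  have hc : {d | Seed d}.Countable := by
    simp only [Seed, Set.setOf_or, Set.setOf_exists]
    refine (Set.countable_singleton _).union (Set.Countable.union ?_ (Set.Countable.union ?_ ?_))
    all_goals
      repeat refine Set.countable_iUnion fun _ => ?_
      exact Set.countable_singleton _
  obtain ⟨S, h1, h2, h3⟩ := exists_closed _ hc
  obtain ⟨ρ, rfl⟩ := h1.exists_eq_range ⟨_, h2 (Or.inl rfl)⟩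
  let enc : Dat → ℕ := Function.invFun ρ
  have he : ∀ d ∈ Set.range ρ, ρ (enc d) = d := fun d hd => Function.invFun_eq hd
  refine ⟨⟨fun D w => Adm D (fun x y => ρ (w x y)) ∧ ∀ x ∈ D, ∀ y ∈ D, enc (ρ (w x y)) = w x y,
    fun E0 D E w => TG E0 D E (fun x y => ρ (w x y)) ∧
      ∀ x ∈ D ∪ E, ∀ y ∈ D ∪ E, enc (ρ (w x y)) = w x y, ?_, ?_, ?_, ?_, ?_⟩, ρ, enc,
    fun d hd => he d (h2 hd), fun _ _ => Iff.rfl⟩
  · rintro D D' w w' U ⟨a, b⟩ hU hD hw
    exact ⟨a.pull hU hD fun s hs t ht => by rw [hw s hs t ht],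
      fun s hs t ht => by rw [hw s hs t ht]; exact b _ (hD s hs) _ (hD t ht)⟩
  · have e := he (dDiag 0 0 1) (h2 (Or.inr (Or.inl ⟨_, _, _, rfl⟩)))
    refine ⟨enc (dDiag 0 0 1), fun t => ⟨?_, fun _ _ _ _ => by rw [e]⟩⟩
    refine (adm_chain0 (so := 0) (m := 1) one_ne_zero (g := id) (e := id) strictMono_id
      (fun u => by simp) {0}).pull (U := fun _ => 0) (by simp) (by simp) ?_
    simp [e, chain0]
  · rintro E0 D E w w' U h0 ⟨a, b⟩ hU hw
    rw [← Finset.image_union] at b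
    exact ⟨a.pull h0 hU fun s hs t ht => by rw [hw s hs t ht], fun s hs t ht => by
      rw [hw s hs t ht]
      exact b _ (Finset.mem_image_of_mem _ hs) _ (Finset.mem_image_of_mem _ ht)⟩
  · intro E0 D E h0 hd s q
    obtain ⟨T, hT, H⟩ := TG.finite h0 hd (fun x y => ρ (s x y)) (fun x y => ρ (q x y))
    refine ⟨(fun w x y => enc (w x y)) '' T, hT.image _, ?_⟩
    rintro w ⟨a, b⟩ hs hq
    obtain ⟨w', hw', e⟩ := H _ a (fun x hx y hy => by rw [hs x hx y hy])
      (fun x hx y hy => by rw [hq x hx y hy])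
    exact ⟨_, ⟨w', hw', rfl⟩, fun x hx y hy => by rw [← b x hx y hy, e x hx y hy]⟩
  · rintro E0 D1 D2 E s q a1 a2 hd ⟨b1, b2⟩ ⟨c1, c2⟩ h
    obtain ⟨w, d1, d2, d3, d4, d5, d6⟩ := h3 a1 a2 hd b1 c1
      (fun x hx y hy => by rw [h x hx y hy]) (fun _ _ => ⟨_, rfl⟩) (fun _ _ => ⟨_, rfl⟩)
    have e : (fun x y => ρ (enc (w x y))) = w := by
      funext x y; exact he _ (d6 x y)
    have e' : ∀ x y, enc (ρ (enc (w x y))) = enc (w x y) := fun x y => by rw [he _ (d6 x y)]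
    refine ⟨fun x y => enc (w x y), ⟨by rwa [e], fun x _ y _ => e' x y⟩,
      fun x hx y hy => ?_, fun x hx y hy => ?_, ⟨by rwa [e], fun x _ y _ => e' x y⟩,
      ⟨by rwa [e], fun x _ y _ => e' x y⟩⟩
    · exact (congrArg enc (d2 x hx y hy)).trans (b2 x hx y hy)
    · exact (congrArg enc (d3 x hx y hy)).trans (c2 x hx y hy)

end Pool.Agent.P.MP_68237a_lc
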