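import Mathlib.Data.ENat.Lattice
import Mathlib.Data.Finset.Lattice.Fold
import Mathlib.Order.Lattice.Nat
import Mathlib.Order.Fin.Basic
import Mathlib.Tactic

/-!
The finite combinatorial structures carried by the atoms, and their amalgamation.
-/

namespace Pool.Agent.P.MP_68237a_lc

/-- The data attached to an ordered pair of atoms. -/
structure Dat where
  δ : ℕ
  c : ℕ → ℕ → ℕ∞
  f : ℕ
  σ : ℕ → Fin 3
  H : ℕ → ℕ
  j : ℕ
  so : ℕ
  m : ℕ

abbrev Str := ℕ → ℕ → Dat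

def B (w : Str) (k s t : ℕ) : Prop := s = t ∨ k < (w s t).δ

def Act (j f : ℕ) (σ : ℕ → Fin 3) : Prop :=
  j ≤ f ∧ σ f ≤ 1 ∧ (∀ k, σ k = 0 → k ≤ f) ∧ ∀ k, σ k = 1 → k ≤ f ∨ σ f = 0

structure Adm (D : Finset ℕ) (w : Str) : Prop where
  tr : ∀ s ∈ D, ∀ t ∈ D, ∀ u ∈ D, ∀ k, B w k s t → B w k t u → B w k s u
  anti : ∀ s ∈ D, ∀ t ∈ D, B w 0 s t → B w 0 t s → s = t
  c0 : ∀ s ∈ D, ∀ t ∈ D, ∀ k, B w k s t → (w s t).c k k = 0
  c1 : ∀ s ∈ D, ∀ k, (w s s).c k (w s s).j ≤ 1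
  ctri : ∀ s ∈ D, ∀ t ∈ D, ∀ u ∈ D, ∀ k l m, (w s u).c k m ≤ (w s t).c k l + (w t u).c l m
  lip : ∀ s ∈ D, ∀ t ∈ D, ∀ u ∈ D, ∀ k l, ((w s t).H k : ℕ∞) ≤ (w s u).H l + (w t u).c k l
  mono : ∀ s ∈ D, ∀ t ∈ D, ∀ u ∈ D, ∀ k, B w k t u → (w s u).σ k ≤ (w s t).σ k
  act : ∀ s ∈ D, ∀ t ∈ D, (w s s).m = (w t t).so → Act (w t t).j (w s t).f (w s t).σ

theorem B.le {w : Str} {k l s t : ℕ} (h : B w k s t) (hl : l ≤ k) : B w l s t :=
  h.imp_right fun h => hl.trans_lt h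

theorem B.refl (w : Str) (k s : ℕ) : B w k s s := Or.inl rfl

theorem Adm.subset {D D' : Finset ℕ} {w : Str} (h : Adm D w) (hD : D' ⊆ D) : Adm D' w where
  tr s hs t ht u hu := h.tr s (hD hs) t (hD ht) u (hD hu)
  anti s hs t ht := h.anti s (hD hs) t (hD ht)
  c0 s hs t ht := h.c0 s (hD hs) t (hD ht)
  c1 s hs := h.c1 s (hD hs)
  ctri s hs t ht u hu := h.ctri s (hD hs) t (hD ht) u (hD hu)
  lip s hs t ht u hu := h.lip s (hD hs) t (hD ht) u (hD hu)
  mono s hs t ht u hu := h.mono s (hD hs) t (hD ht) u (hD hu)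
  act s hs t ht := h.act s (hD hs) t (hD ht)

/-- Admissibility pulls back along injective relabellings. -/
theorem Adm.pull {D D' : Finset ℕ} {w w' : Str} (h : Adm D' w') {U : ℕ → ℕ}
    (hU : Set.InjOn U D) (hD : ∀ s ∈ D, U s ∈ D')
    (hw : ∀ s ∈ D, ∀ t ∈ D, w s t = w' (U s) (U t)) : Adm D w := by
  have hB : ∀ s ∈ D, ∀ t ∈ D, ∀ k, B w k s t ↔ B w' k (U s) (U t) := fun s hs t ht k => by
    unfold B; rw [hw s hs t ht, hU.eq_iff hs ht]
  refine ⟨fun s hs t ht u hu k => ?_, fun s hs t ht => ?_, fun s hs t ht k => ?_,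
    fun s hs => ?_, fun s hs t ht u hu => ?_, fun s hs t ht u hu => ?_,
    fun s hs t ht u hu k => ?_, fun s hs t ht => ?_⟩
  · rw [hB s hs t ht, hB t ht u hu, hB s hs u hu]
    exact h.tr _ (hD s hs) _ (hD t ht) _ (hD u hu) k
  · rw [hB s hs t ht, hB t ht s hs]
    exact fun h1 h2 => hU hs ht (h.anti _ (hD s hs) _ (hD t ht) h1 h2)
  · rw [hB s hs t ht, hw s hs t ht]; exact h.c0 _ (hD s hs) _ (hD t ht) k
  · rw [hw s hs s hs]; exact h.c1 _ (hD s hs)
  · rw [hw s hs u hu, hw s hs t ht, hw t ht u hu]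
    exact h.ctri _ (hD s hs) _ (hD t ht) _ (hD u hu)
  · rw [hw s hs u hu, hw s hs t ht, hw t ht u hu]
    exact h.lip _ (hD s hs) _ (hD t ht) _ (hD u hu)
  · rw [hB t ht u hu, hw s hs u hu, hw s hs t ht]
    exact h.mono _ (hD s hs) _ (hD t ht) _ (hD u hu) k
  · rw [hw s hs s hs, hw s hs t ht, hw t ht t ht]
    exact h.act _ (hD s hs) _ (hD t ht)

def Same (E0 E : Finset ℕ) (x y : ℕ) : Prop :=
  (x ∉ E ∧ y ∉ E) ∨ ((x ∈ E0 ∨ x ∈ E) ∧ (y ∈ E0 ∨ y ∈ E))

instance (E0 E : Finset ℕ) (x y : ℕ) : Decidable (Same E0 E x y) := by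
  unfold Same; infer_instance

theorem Same.refl (E0 E : Finset ℕ) (x : ℕ) : Same E0 E x x := by unfold Same; tauto

theorem Same.symm {E0 E : Finset ℕ} {x y : ℕ} (h : Same E0 E x y) : Same E0 E y x := by
  unfold Same at *; tauto

theorem Same.opp {E0 E : Finset ℕ} {x y u : ℕ} (a : ¬ Same E0 E x y) (b : ¬ Same E0 E y u) :
    Same E0 E x u := by
  unfold Same at *; tauto

theorem Same.mid {E0 E : Finset ℕ} {x y u : ℕ} (a : Same E0 E x y) (b : Same E0 E y u)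
    (c : ¬ Same E0 E x u) : y ∈ E0 := by
  unfold Same at *; tauto

theorem Same.base {E0 E : Finset ℕ} (x : ℕ) {z : ℕ} (a : z ∈ E0) (b : z ∉ E) : Same E0 E x z := by
  unfold Same; tauto

theorem Same.three {E0 E : Finset ℕ} {x y u : ℕ} (a : Same E0 E x y) (b : Same E0 E y u)
    (c : Same E0 E x u) (h : ¬ (x ∉ E ∧ y ∉ E ∧ u ∉ E)) :
    (x ∈ E0 ∨ x ∈ E) ∧ (y ∈ E0 ∨ y ∈ E) ∧ (u ∈ E0 ∨ u ∈ E) := by
  unfold Same at *; tauto

/-- The free amalgam on a pair of atoms from different sides. -/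
noncomputable def cross (E0 : Finset ℕ) (g : Str) (θ : ℕ × (ℕ → Fin 3)) (x y : ℕ) : Dat where
  δ := E0.sup fun z => min (g x z).δ (g z y).δ
  c := fun k l => ⨅ z ∈ E0, ⨅ m, (g x z).c k m + (g z y).c m l
  f := θ.1
  σ := fun k => ((E0.filter fun z => k < (g z y).δ).inf fun z => (g x z).σ k) ⊓ θ.2 k
  H := fun k => sInf {n : ℕ | ∀ z ∈ E0, ∀ m, ((g x z).H m : ℕ∞) ≤ n + (g z y).c m k}
  j := 0
  so := 0
  m := 0

noncomputable def build (E0 E : Finset ℕ) (g : Str) (Θ : ℕ → ℕ → ℕ × (ℕ → Fin 3)) : Str :=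
  fun x y => if Same E0 E x y then g x y else cross E0 g (Θ x y) x y

theorem enat_le_add_iInf {ι : Sort*} {a b : ℕ∞} {f : ι → ℕ∞} (h : ∀ i, a ≤ b + f i) :
    a ≤ b + ⨅ i, f i :=
  tsub_le_iff_left.1 (le_iInf fun i => tsub_le_iff_left.2 (h i))

section amalgam

variable {E0 E D : Finset ℕ} {g : Str} {Θ : ℕ → ℕ → ℕ × (ℕ → Fin 3)}

/-- The conditions on the free part of the amalgam. -/
structure GoodΘ (E0 E D : Finset ℕ) (g : Str) (Θ : ℕ → ℕ → ℕ × (ℕ → Fin 3)) : Prop where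
  h1 : ∀ x ∈ D ∪ E, ∀ y ∈ D ∪ E, ∀ y' ∈ D ∪ E, ¬ Same E0 E x y → ¬ Same E0 E x y' →
    ∀ k, B g k y y' → (Θ x y').2 k ≤ (Θ x y).2 k
  h2 : ∀ x ∈ D ∪ E, ∀ y ∈ D ∪ E, ¬ Same E0 E x y → ∀ z ∈ E0, ∀ k, B g k y z → (Θ x y).2 k = 2
  h3 : ∀ x ∈ D ∪ E, ∀ y ∈ D ∪ E, ¬ Same E0 E x y → (g x x).m = (g y y).so →
    Act (g y y).j (Θ x y).1 (Θ x y).2 ∧ ∀ z ∈ E0, (g z y).δ ≤ (Θ x y).1

theorem adm_build (h0 : E0 ⊆ D) (hd : Disjoint D E) (h1 : Adm D g) (h2 : Adm (E0 ∪ E) g)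
    (hΘ : GoodΘ E0 E D g Θ) : Adm (D ∪ E) (build E0 E g Θ) := by
  set w := build E0 E g Θ with hw
  have nE : ∀ x ∈ D, x ∉ E := fun x hx => Finset.disjoint_left.1 hd hx
  have side : ∀ x ∈ D ∪ E, ∀ y ∈ D ∪ E, Same E0 E x y →
      ∃ S, Adm S g ∧ E0 ⊆ S ∧ x ∈ S ∧ y ∈ S := by
    intro x hx y hy h
    rw [Finset.mem_union] at hx hy
    rcases h with h | h
    · exact ⟨D, h1, h0, hx.resolve_right h.1, hy.resolve_right h.2⟩
    · exact ⟨_, h2, Finset.subset_union_left, Finset.mem_union.2 h.1, Finset.mem_union.2 h.2⟩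
  have side3 : ∀ x ∈ D ∪ E, ∀ y ∈ D ∪ E, ∀ u ∈ D ∪ E, Same E0 E x y → Same E0 E y u →
      Same E0 E x u → ∃ S, Adm S g ∧ E0 ⊆ S ∧ x ∈ S ∧ y ∈ S ∧ u ∈ S := by
    intro x hx y hy u hu a b c
    rw [Finset.mem_union] at hx hy hu
    by_cases h : x ∉ E ∧ y ∉ E ∧ u ∉ E
    · exact ⟨D, h1, h0, hx.resolve_right h.1, hy.resolve_right h.2.1, hu.resolve_right h.2.2⟩
    · obtain ⟨p, q, r⟩ := a.three b c h
      exact ⟨_, h2, Finset.subset_union_left, Finset.mem_union.2 p, Finset.mem_union.2 q,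
        Finset.mem_union.2 r⟩
  have srefl : ∀ x, Same E0 E x x := Same.refl E0 E
  have ssymm : ∀ {x y}, Same E0 E x y → Same E0 E y x := Same.symm
  have sE0 : ∀ x, ∀ z ∈ E0, Same E0 E x z := fun x z hz => Same.base x hz (nE z (h0 hz))
  have sopp : ∀ {x y u}, ¬ Same E0 E x y → ¬ Same E0 E y u → Same E0 E x u := Same.opp
  have smid : ∀ {x y u}, Same E0 E x y → Same E0 E y u → ¬ Same E0 E x u → y ∈ E0 := Same.mid
  have ws : ∀ {x y}, Same E0 E x y → w x y = g x y := fun h => by simp only [hw, build, if_pos h]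
  have wc : ∀ {x y}, ¬ Same E0 E x y → w x y = cross E0 g (Θ x y) x y := fun h => by
    simp only [hw, build, if_neg h]
  have Bs : ∀ {x y k}, Same E0 E x y → (B w k x y ↔ B g k x y) := fun h => by
    unfold B; rw [ws h]
  have Bc : ∀ {x y k}, ¬ Same E0 E x y → (B w k x y ↔ ∃ z ∈ E0, B g k x z ∧ B g k z y) := by
    intro x y k h
    have a : x ≠ y := fun e => h (e ▸ srefl x)
    have b : ∀ z ∈ E0, x ≠ z := fun z hz e => h (ssymm (e ▸ sE0 y z hz))
    have c : ∀ z ∈ E0, z ≠ y := fun z hz e => h (e ▸ sE0 x z hz)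
    unfold B
    rw [wc h]
    simp only [cross, a, false_or, Finset.lt_sup_iff, lt_min_iff]
    exact exists_congr fun z => and_congr_right fun hz => by simp [b z hz, c z hz]
  have Bvia : ∀ x ∈ D ∪ E, ∀ y ∈ D ∪ E, ∀ z ∈ E0, ∀ k, B g k x z → B g k z y → B w k x y := by
    intro x hx y hy z hz k a b
    by_cases h : Same E0 E x y
    · obtain ⟨S, hS, hE, hx, hy⟩ := side x hx y hy h
      exact (Bs h).2 (hS.tr x hx z (hE hz) y hy k a b)
    · exact (Bc h).2 ⟨z, hz, a, b⟩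
  have tr : ∀ s ∈ D ∪ E, ∀ t ∈ D ∪ E, ∀ u ∈ D ∪ E, ∀ k, B w k s t → B w k t u → B w k s u := by
    intro x hx y hy u hu k a b
    by_cases p : Same E0 E x y <;> by_cases q : Same E0 E y u
    · rw [Bs p] at a; rw [Bs q] at b
      by_cases r : Same E0 E x u
      · obtain ⟨S, hS, -, hx, hy, hu⟩ := side3 x hx y hy u hu p q r
        exact (Bs r).2 (hS.tr x hx y hy u hu k a b)
      · exact Bvia x hx u hu y (smid p q r) k a b
    · rw [Bs p] at a
      obtain ⟨z, hz, b, c⟩ := (Bc q).1 b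
      obtain ⟨S, hS, hE, hx', hy'⟩ := side x hx y hy p
      exact Bvia x hx u hu z hz k (hS.tr x hx' y hy' z (hE hz) k a b) c
    · rw [Bs q] at b
      obtain ⟨z, hz, a, c⟩ := (Bc p).1 a
      obtain ⟨S, hS, hE, hy', hu'⟩ := side y hy u hu q
      exact Bvia x hx u hu z hz k a (hS.tr z (hE hz) y hy' u hu' k c b)
    · obtain ⟨z, hz, a, c⟩ := (Bc p).1 a
      obtain ⟨z', hz', b, d⟩ := (Bc q).1 b
      obtain ⟨S, hS, hE, hy', -⟩ := side y hy y hy (srefl y)
      obtain ⟨S', hS', hE', hx', -⟩ := side x hx x hx (srefl x)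
      exact Bvia x hx u hu z' hz' k (hS'.tr x hx' z (hE' hz) z' (hE' hz') k a
        (hS.tr z (hE hz) y hy' z' (hE hz') k c b)) d
  have cvia : ∀ x ∈ D ∪ E, ∀ y ∈ D ∪ E, ∀ z ∈ E0, ∀ k l m,
      (w x y).c k m ≤ (g x z).c k l + (g z y).c l m := by
    intro x hx y hy z hz k l m
    by_cases h : Same E0 E x y
    · obtain ⟨S, hS, hE, hx, hy⟩ := side x hx y hy h
      rw [ws h]; exact hS.ctri x hx z (hE hz) y hy k l m
    · rw [wc h]
      exact (iInf₂_le z hz).trans (iInf_le _ l)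
  have cge : ∀ {x y}, ¬ Same E0 E x y → ∀ {k m : ℕ} {a b : ℕ∞},
      (∀ z ∈ E0, ∀ l, a ≤ b + ((g x z).c k l + (g z y).c l m)) → a ≤ b + (w x y).c k m := by
    intro x y h k m a b H
    rw [wc h]
    exact enat_le_add_iInf fun z => enat_le_add_iInf fun hz => enat_le_add_iInf fun l => H z hz l
  have ctri : ∀ s ∈ D ∪ E, ∀ t ∈ D ∪ E, ∀ u ∈ D ∪ E, ∀ k l m,
      (w s u).c k m ≤ (w s t).c k l + (w t u).c l m := by
    intro x hx y hy u hu k l m
    by_cases p : Same E0 E x y <;> by_cases q : Same E0 E y u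
    · rw [ws p, ws q]
      by_cases r : Same E0 E x u
      · obtain ⟨S, hS, -, hx, hy, hu⟩ := side3 x hx y hy u hu p q r
        rw [ws r]; exact hS.ctri x hx y hy u hu k l m
      · exact cvia x hx u hu y (smid p q r) k l m
    · rw [ws p]
      refine cge q fun z hz n => ?_
      obtain ⟨S, hS, hE, hx', hy'⟩ := side x hx y hy p
      refine (cvia x hx u hu z hz k n m).trans ?_
      rw [← add_assoc]
      gcongr
      exact hS.ctri x hx' y hy' z (hE hz) k l n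
    · rw [ws q, add_comm]
      refine cge p fun z hz n => ?_
      obtain ⟨S, hS, hE, hy', hu'⟩ := side y hy u hu q
      refine (cvia x hx u hu z hz k n m).trans ?_
      rw [add_comm ((g y u).c l m), add_assoc]
      gcongr
      exact hS.ctri z (hE hz) y hy' u hu' n l m
    · refine cge q fun z' hz' n' => ?_
      rw [add_comm]
      refine cge p fun z hz n => ?_
      obtain ⟨S, hS, hE, hy', -⟩ := side y hy y hy (srefl y)
      obtain ⟨S', hS', hE', hx', -⟩ := side x hx x hx (srefl x)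
      have a := cvia x hx u hu z' hz' k n' m
      have b := hS'.ctri x hx' z (hE' hz) z' (hE' hz') k n n'
      have c := hS.ctri z (hE hz) y hy' z' (hE hz') n l n'
      calc _ ≤ ((g x z).c k n + ((g z y).c n l + (g y z').c l n')) + (g z' u).c n' m :=
            a.trans (by gcongr; exact b.trans (by gcongr))
        _ = _ := by ring
  have Hmem : ∀ x ∈ D ∪ E, ∀ {y}, ¬ Same E0 E x y → ∀ k, ∀ z ∈ E0, ∀ m,
      ((g x z).H m : ℕ∞) ≤ (w x y).H k + (g z y).c m k := by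
    intro x hx y h k
    rw [wc h]
    obtain ⟨S, hS, hE, hx', -⟩ := side x hx x hx (srefl x)
    refine Nat.sInf_mem (s := {n : ℕ | ∀ z ∈ E0, ∀ m, ((g x z).H m : ℕ∞) ≤ n + (g z y).c m k})
      ⟨(E0.sup fun z => (g x z).H (g z z).j) + 1, fun z hz m => ?_⟩
    refine le_trans ?_ le_self_add
    refine (hS.lip x hx' z (hE hz) z (hE hz) m (g z z).j).trans ?_
    push_cast
    gcongr
    · exact_mod_cast Finset.le_sup (f := fun z => (g x z).H (g z z).j) hz
    · exact hS.c1 z (hE hz) m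
  have Hmin : ∀ {x y}, ¬ Same E0 E x y → ∀ k, ∀ a : ℕ∞,
      (∀ z ∈ E0, ∀ m, ((g x z).H m : ℕ∞) ≤ a + (g z y).c m k) → ((w x y).H k : ℕ∞) ≤ a := by
    intro x y h k a H
    induction a using ENat.recTopCoe with
    | top => exact le_top
    | coe n =>
      rw [wc h]
      exact Nat.cast_le.2 (Nat.sInf_le
        (s := {n : ℕ | ∀ z ∈ E0, ∀ m, ((g x z).H m : ℕ∞) ≤ n + (g z y).c m k}) H)
  have Hvia : ∀ x ∈ D ∪ E, ∀ y ∈ D ∪ E, ∀ z ∈ E0, ∀ k m,
      ((g x z).H m : ℕ∞) ≤ (w x y).H k + (g z y).c m k := by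
    intro x hx y hy z hz k m
    by_cases h : Same E0 E x y
    · obtain ⟨S, hS, hE, hx, hy⟩ := side x hx y hy h
      rw [ws h]; exact hS.lip x hx z (hE hz) y hy m k
    · exact Hmem x hx h k z hz m
  have σle : ∀ x ∈ D ∪ E, ∀ y ∈ D ∪ E, ∀ z ∈ E0, ∀ k, B g k z y → (w x y).σ k ≤ (g x z).σ k := by
    intro x hx y hy z hz k b
    by_cases h : Same E0 E x y
    · obtain ⟨S, hS, hE, hx, hy⟩ := side x hx y hy h
      rw [ws h]; exact hS.mono x hx z (hE hz) y hy k b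
    · rw [wc h]
      have c : z ≠ y := fun e => h (e ▸ sE0 x z hz)
      exact inf_le_left.trans (Finset.inf_le (f := fun z => (g x z).σ k)
        (Finset.mem_filter.2 ⟨hz, b.resolve_left c⟩))
  have σge : ∀ {x y}, ¬ Same E0 E x y → ∀ k, ∀ a : Fin 3,
      (∀ z ∈ E0, B g k z y → a ≤ (g x z).σ k) → a ≤ (Θ x y).2 k → a ≤ (w x y).σ k := by
    intro x y h k a H H'
    rw [wc h]
    exact le_inf (Finset.le_inf fun z hz =>
      H z (Finset.mem_filter.1 hz).1 (Or.inr (Finset.mem_filter.1 hz).2)) H'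
  have mE : ∀ z ∈ E0, z ∈ D ∪ E := fun z hz => Finset.mem_union_left _ (h0 hz)
  refine ⟨tr, fun x hx y hy a b => ?_, fun x hx y hy k a => ?_, fun x hx k => ?_, ctri,
    fun x hx t ht u hu k l => ?_, fun x hx t ht u hu k b => ?_, fun x hx y hy a => ?_⟩
  · by_cases p : Same E0 E x y
    · obtain ⟨S, hS, -, hx', hy'⟩ := side x hx y hy p
      exact hS.anti x hx' y hy' ((Bs p).1 a) ((Bs (ssymm p)).1 b)
    · obtain ⟨z, hz, c, d⟩ := (Bc p).1 a
      have e := tr z (mE z hz) y hy x hx 0 ((Bs (ssymm (sE0 y z hz))).2 d) b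
      obtain ⟨S, hS, hE, hx', -⟩ := side x hx x hx (srefl x)
      have := hS.anti x hx' z (hE hz) c ((Bs (ssymm (sE0 x z hz))).1 e)
      exact (p (ssymm (this ▸ sE0 y z hz))).elim
  · by_cases p : Same E0 E x y
    · obtain ⟨S, hS, -, hx', hy'⟩ := side x hx y hy p
      rw [ws p]; exact hS.c0 x hx' y hy' k ((Bs p).1 a)
    · obtain ⟨z, hz, c, d⟩ := (Bc p).1 a
      obtain ⟨S, hS, hE, hx', -⟩ := side x hx x hx (srefl x)
      obtain ⟨S', hS', hE', hy', -⟩ := side y hy y hy (srefl y)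
      have := cvia x hx y hy z hz k k k
      rw [hS.c0 x hx' z (hE hz) k c, hS'.c0 z (hE' hz) y hy' k d] at this
      simpa using this
  · obtain ⟨S, hS, -, hx', -⟩ := side x hx x hx (srefl x)
    rw [ws (srefl x)]; exact hS.c1 x hx' k
  · by_cases p : Same E0 E x t
    · by_cases q : Same E0 E t u
      · rw [ws p, ws q]
        by_cases r : Same E0 E x u
        · obtain ⟨S, hS, -, hx, ht, hu⟩ := side3 x hx t ht u hu p q r
          rw [ws r]; exact hS.lip x hx t ht u hu k l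
        · exact Hvia x hx u hu t (smid p q r) l k
      · refine cge q fun z hz n => ?_
        obtain ⟨S, hS, hE, hx', ht'⟩ := side x hx t ht p
        rw [ws p]
        refine (hS.lip x hx' t ht' z (hE hz) k n).trans ?_
        rw [add_comm ((g t z).c k n), ← add_assoc]
        gcongr
        exact Hvia x hx u hu z hz l n
    · refine Hmin p k _ fun z hz m => ?_
      refine (Hvia x hx u hu z hz l m).trans ?_
      rw [add_assoc, add_comm ((w t u).c k l)]
      gcongr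
      have := ctri z (mE z hz) t ht u hu m k l
      rwa [ws (ssymm (sE0 u z hz)), ws (ssymm (sE0 t z hz))] at this
  · by_cases p : Same E0 E x t
    · by_cases q : Same E0 E t u
      · rw [Bs q] at b
        rw [ws p]
        by_cases r : Same E0 E x u
        · obtain ⟨S, hS, -, hx, ht, hu⟩ := side3 x hx t ht u hu p q r
          rw [ws r]; exact hS.mono x hx t ht u hu k b
        · exact σle x hx u hu t (smid p q r) k b
      · obtain ⟨z, hz, c, d⟩ := (Bc q).1 b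
        obtain ⟨S, hS, hE, hx', ht'⟩ := side x hx t ht p
        rw [ws p]
        exact (σle x hx u hu z hz k d).trans (hS.mono x hx' t ht' z (hE hz) k c)
    · refine σge p k _ (fun z hz c => ?_) ?_
      · have e := tr z (mE z hz) t ht u hu k ((Bs (ssymm (sE0 t z hz))).2 c) b
        exact σle x hx u hu z hz k ((Bs (ssymm (sE0 u z hz))).1 e)
      · by_cases r : Same E0 E x u
        · by_cases q : Same E0 E t u
          · rw [hΘ.h2 x hx t ht p u (smid r (ssymm q) p) k ((Bs q).1 b)]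
            exact Fin.le_last _
          · obtain ⟨z, hz, c, -⟩ := (Bc q).1 b
            rw [hΘ.h2 x hx t ht p z hz k c]
            exact Fin.le_last _
        · have q : Same E0 E t u := sopp (fun h => p (ssymm h)) r
          rw [wc r]
          exact inf_le_right.trans (hΘ.h1 x hx t ht u hu p r k ((Bs q).1 b))
  · rw [ws (srefl x), ws (srefl y)] at a
    rw [ws (srefl y)]
    by_cases p : Same E0 E x y
    · obtain ⟨S, hS, -, hx', hy'⟩ := side x hx y hy p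
      rw [ws p]; exact hS.act x hx' y hy' a
    · obtain ⟨⟨a1, a2, a3, a4⟩, a5⟩ := hΘ.h3 x hx y hy p a
      have e : ∀ k, (Θ x y).1 ≤ k → (w x y).σ k = (Θ x y).2 k := by
        intro k hk
        rw [wc p]
        have : E0.filter (fun z => k < (g z y).δ) = ∅ :=
          Finset.filter_eq_empty_iff.2 fun z hz => not_lt.2 ((a5 z hz).trans hk)
        simp only [cross, this, Finset.inf_empty, top_inf_eq]
      have ef : (w x y).f = (Θ x y).1 := by rw [wc p]; rfl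
      rw [Act, ef, e _ le_rfl]
      refine ⟨a1, a2, fun k hk => ?_, fun k hk => ?_⟩
      · by_contra hc
        exact hc (a3 k (e k (not_le.1 hc).le ▸ hk))
      · by_cases hc : k ≤ (Θ x y).1
        · exact Or.inl hc
        · exact a4 k (e k (not_le.1 hc).le ▸ hk)

end amalgam

end Pool.Agent.P.MP_68237a_lc
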