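import Pool.Agent.P.MP_68237a_lc.Comb

/-!
Canonically placed tuples: finitely many types over each finite set, and any two finite sets
admit a common canonically placed tuple.
-/

namespace Pool.Agent.P.MP_68237a_lc

def Nb (D : Finset ℕ) (w : Str) : ℕ := D.sup fun s => D.sup fun t => max (w s t).δ (w t t).j

theorem le_Nb {D : Finset ℕ} (w : Str) {s t : ℕ} (hs : s ∈ D) (ht : t ∈ D) :
    (w s t).δ ≤ Nb D w ∧ (w t t).j ≤ Nb D w :=
  max_le_iff.1 ((Finset.le_sup (f := fun t => max (w s t).δ (w t t).j) ht).trans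
    (Finset.le_sup (f := fun s => D.sup fun t => max (w s t).δ (w t t).j) hs))

theorem B.eq_of_Nb {D : Finset ℕ} {w : Str} {k s t : ℕ} (h : B w k s t) (hs : s ∈ D) (ht : t ∈ D)
    (hk : Nb D w ≤ k) : s = t :=
  h.resolve_right (not_lt.2 ((le_Nb w hs ht).1.trans hk))

theorem Nb_pull {D : Finset ℕ} {w w' : Str} {U : ℕ → ℕ}
    (hw : ∀ s ∈ D, ∀ t ∈ D, w s t = w' (U s) (U t)) : Nb (D.image U) w' = Nb D w := by
  unfold Nb
  rw [Finset.sup_image]
  refine Finset.sup_congr rfl fun s hs => ?_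
  simp only [Function.comp, Finset.sup_image]
  exact Finset.sup_congr rfl fun t ht => by simp only [Function.comp, hw s hs t ht, hw t ht t ht]

theorem cross_pull {E0 : Finset ℕ} {g g' : Str} {U : ℕ → ℕ} {x y : ℕ} (θ : ℕ × (ℕ → Fin 3))
    (h : ∀ z ∈ E0, g x z = g' (U x) (U z) ∧ g z y = g' (U z) (U y)) :
    cross (E0.image U) g' θ (U x) (U y) = cross E0 g θ x y := by
  unfold cross
  congr 1
  · rw [Finset.sup_image]
    exact Finset.sup_congr rfl fun z hz => by simp only [Function.comp, h z hz]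
  · funext k l
    rw [Finset.iInf_finset_image]
    exact iInf_congr fun z => iInf_congr fun hz => by simp only [h z hz]
  · funext k
    congr 1
    rw [Finset.filter_image, Finset.inf_image]
    refine Finset.inf_congr (Finset.filter_congr fun z hz => by rw [(h z hz).2]) fun z hz => ?_
    simp only [Function.comp, (h z (Finset.mem_filter.1 hz).1).1]
  · funext k
    congr 1
    ext n
    simp only [Set.mem_setOf_eq, Finset.forall_mem_image]
    exact forall_congr' fun z => forall_congr' fun hz => by simp only [h z hz]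

theorem cross_congr {E0 : Finset ℕ} {g g' : Str} {x y : ℕ} (θ : ℕ × (ℕ → Fin 3))
    (h : ∀ z ∈ E0, g x z = g' x z ∧ g z y = g' z y) : cross E0 g' θ x y = cross E0 g θ x y := by
  simpa using cross_pull (U := id) θ h

def θ0 (F : ℕ) : ℕ × (ℕ → Fin 3) := (F, fun k => if k = F then 0 else 2)

def Bdd (N : ℕ) (θ : ℕ × (ℕ → Fin 3)) : Prop := θ.1 ≤ N ∧ ∀ k, N < k → θ.2 k = θ.2 (N + 1)

theorem finite_Bdd (N : ℕ) : {θ | Bdd N θ}.Finite := by
  refine (Set.finite_range fun p : Fin (N + 1) × (Fin (N + 2) → Fin 3) =>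
    ((p.1 : ℕ), fun k => p.2 ⟨min k (N + 1), by omega⟩)).subset ?_
  rintro ⟨a, τ⟩ ⟨h1, h2⟩
  refine ⟨(⟨a, Nat.lt_succ_of_le h1⟩, fun i => τ i), Prod.ext rfl (funext fun k => ?_)⟩
  by_cases hk : N < k
  · simp only [min_eq_right (Nat.succ_le_of_lt hk)]; exact (h2 k hk).symm
  · simp only [min_eq_left (show k ≤ N + 1 by omega)]

/-- The atoms `E` are canonically placed over `D` relative to the base `E0`. -/
def TG (E0 D E : Finset ℕ) (w : Str) : Prop :=
  ∃ Θ : ℕ → ℕ → ℕ × (ℕ → Fin 3), (∀ x ∈ E, ∀ y ∈ D, Bdd (Nb D w) (Θ x y)) ∧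
    (∀ x ∈ D, ∀ y ∈ E, Θ x y = θ0 (Nb (E0 ∪ E) w)) ∧
    ∀ x ∈ D ∪ E, ∀ y ∈ D ∪ E, w x y = build E0 E w Θ x y

theorem TG.pull {E0 D E : Finset ℕ} {w w' : Str} {U : ℕ → ℕ} (h0 : E0 ⊆ D)
    (h : TG (E0.image U) (D.image U) (E.image U) w') (hU : Set.InjOn U (D ∪ E : Finset ℕ))
    (hw : ∀ s ∈ D ∪ E, ∀ t ∈ D ∪ E, w s t = w' (U s) (U t)) : TG E0 D E w := by
  obtain ⟨Θ, h1, h2, h3⟩ := h
  have l : ∀ s ∈ D, s ∈ D ∪ E := fun s hs => Finset.mem_union_left _ hs
  have r : ∀ s ∈ E, s ∈ D ∪ E := fun s hs => Finset.mem_union_right _ hs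
  have m : E0 ∪ E ⊆ D ∪ E := Finset.union_subset_union_left h0
  have mi : ∀ S ⊆ D ∪ E, ∀ x ∈ D ∪ E, (U x ∈ S.image U ↔ x ∈ S) := fun S hS x hx =>
    ⟨fun h => by
      obtain ⟨y, hy, e⟩ := Finset.mem_image.1 h
      rwa [← hU (hS hy) hx e], fun h => Finset.mem_image_of_mem _ h⟩
  refine ⟨fun x y => Θ (U x) (U y), fun x hx y hy => ?_, fun x hx y hy => ?_,
    fun x hx y hy => ?_⟩
  · rw [← Nb_pull fun s hs t ht => hw s (l s hs) t (l t ht)]
    exact h1 _ (Finset.mem_image_of_mem _ hx) _ (Finset.mem_image_of_mem _ hy)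
  · rw [← Nb_pull fun s hs t ht => hw s (m hs) t (m ht), Finset.image_union]
    exact h2 _ (Finset.mem_image_of_mem _ hx) _ (Finset.mem_image_of_mem _ hy)
  · have e : Same E0 E x y ↔ Same (E0.image U) (E.image U) (U x) (U y) := by
      unfold Same
      rw [mi E r x hx, mi E r y hy, mi E0 (fun s hs => l s (h0 hs)) x hx,
        mi E0 (fun s hs => l s (h0 hs)) y hy]
    unfold build
    split_ifs with hs
    · rfl
    · have hi : ∀ x ∈ D ∪ E, U x ∈ D.image U ∪ E.image U := fun x hx => by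
        rw [← Finset.image_union]; exact Finset.mem_image_of_mem _ hx
      rw [hw x hx y hy, h3 _ (hi x hx) _ (hi y hy), build, if_neg (mt e.2 hs)]
      exact cross_pull _ fun z hz => ⟨hw x hx z (l z (h0 hz)), hw z (l z (h0 hz)) y hy⟩

def glue (E : Finset ℕ) (s q : Str) : Str := fun x y => if x ∈ E ∨ y ∈ E then q x y else s x y

theorem TG.finite {E0 D E : Finset ℕ} (h0 : E0 ⊆ D) (hd : Disjoint D E) (s q : Str) :
    ∃ T : Set Str, T.Finite ∧ ∀ w, TG E0 D E w → (∀ x ∈ D, ∀ y ∈ D, w x y = s x y) →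
      (∀ x ∈ E0 ∪ E, ∀ y ∈ E0 ∪ E, w x y = q x y) →
      ∃ w' ∈ T, ∀ x ∈ D ∪ E, ∀ y ∈ D ∪ E, w x y = w' x y := by
  classical
  have := (finite_Bdd (Nb D s)).to_subtype
  let Θf : (↥(E ×ˢ D) → ↥{θ | Bdd (Nb D s) θ}) → ℕ → ℕ → ℕ × (ℕ → Fin 3) := fun h x y =>
    if hx : (x, y) ∈ E ×ˢ D then h ⟨_, hx⟩ else θ0 (Nb (E0 ∪ E) q)
  refine ⟨Set.range fun h => build E0 E (glue E s q) (Θf h), Set.finite_range _, ?_⟩
  rintro w ⟨Θ, h1, h2, h3⟩ hs hq
  have e1 : Nb D s = Nb D w := by simpa using Nb_pull (U := id) hs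
  have e2 : Nb (E0 ∪ E) q = Nb (E0 ∪ E) w := by simpa using Nb_pull (U := id) hq
  have nE : ∀ x ∈ D, x ∉ E := fun x hx => Finset.disjoint_left.1 hd hx
  have hg : ∀ x ∈ D ∪ E, ∀ y ∈ D ∪ E, Same E0 E x y → w x y = glue E s q x y := by
    intro x hx y hy h
    rw [Finset.mem_union] at hx hy
    unfold glue
    split_ifs with h'
    · rcases h with h | h
      · tauto
      · exact hq x (Finset.mem_union.2 h.1) y (Finset.mem_union.2 h.2)
    · rw [not_or] at h'
      exact hs x (hx.resolve_right h'.1) y (hy.resolve_right h'.2)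
  refine ⟨_, ⟨fun p => ⟨Θ p.1.1 p.1.2, e1 ▸ h1 _ (Finset.mem_product.1 p.2).1 _
    (Finset.mem_product.1 p.2).2⟩, rfl⟩, fun x hx y hy => ?_⟩
  rw [h3 x hx y hy]
  beta_reduce
  unfold build
  split_ifs with h
  · exact hg x hx y hy h
  · have e3 : Θf (fun p => ⟨Θ p.1.1 p.1.2, e1 ▸ h1 _ (Finset.mem_product.1 p.2).1 _
        (Finset.mem_product.1 p.2).2⟩) x y = Θ x y := by
      simp only [Θf]
      split_ifs with h'
      · rfl
      · rw [Finset.mem_product] at h'
        rw [Finset.mem_union] at hx hy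
        have : x ∈ D ∧ y ∈ E := by
          have := nE x; have := nE y; unfold Same at h; tauto
        rw [h2 x this.1 y this.2, e2]
    rw [e3]
    refine cross_congr _ fun z hz => ?_
    have hz' := Finset.mem_union_left E (h0 hz)
    have := Same.base (E := E) x hz (nE z (h0 hz))
    have := (Same.base (E := E) y hz (nE z (h0 hz))).symm
    constructor <;> symm <;> apply hg <;> assumption

theorem exists_TG' {E0 D1 D2 E : Finset ℕ} {g : Str} (h1 : E0 ⊆ D1) (h2 : E0 ⊆ D2)
    (hd : Disjoint (D1 ∪ D2) E) (a1 : Adm (D1 ∪ D2) g) (a2 : Adm (E0 ∪ E) g)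
    (hN : Nb D2 g ≤ Nb D1 g) :
    ∃ w, Adm (D1 ∪ D2 ∪ E) w ∧ (∀ x y, Same E0 E x y → w x y = g x y) ∧
      TG E0 D1 E w ∧ TG E0 D2 E w := by
  classical
  set N1 := Nb D1 g
  set N2 := Nb D2 g
  set F := Nb (E0 ∪ E) g
  let C : ℕ → Prop := fun y => ∃ z ∈ D2, z ∉ E0 ∧ B g N2 z y
  let Θ : ℕ → ℕ → ℕ × (ℕ → Fin 3) := fun x y =>
    if x ∈ E then
      (if y ∈ D2 then (N2, fun k => if k < N2 then 2 else if k = N2 then 0 else 1)
      else if C y then (N1, fun k => if k < N2 then 2 else if k = N2 ∨ k = N1 then 0 else 1)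
      else (N1, fun k => if k = N1 then 1 else 2))
    else θ0 F
  have nE : ∀ x ∈ D1 ∪ D2, x ∉ E := fun x hx => Finset.disjoint_left.1 hd hx
  have r2 : ∀ x ∈ D2, x ∈ D1 ∪ D2 := fun x hx => Finset.mem_union_right _ hx
  have ns1 : ∀ {x y}, y ∈ D1 ∪ D2 ∪ E → x ∈ E → ¬ Same E0 E x y → y ∈ D1 ∪ D2 ∧ y ∉ E0 := by
    intro x y hy hx h
    rw [Finset.mem_union] at hy
    clear_value C Θ
    unfold Same at h; tauto
  have ns2 : ∀ {x y}, x ∉ E → ¬ Same E0 E x y → y ∈ E := by
    intro x y hx h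
    clear_value C Θ
    unfold Same at h; tauto
  have hΘ : GoodΘ E0 E (D1 ∪ D2) g Θ := by
    refine ⟨fun x hx y hy y' hy' p p' k b => ?_, fun x hx y hy p z hz k b => ?_,
      fun x hx y hy p _ => ?_⟩
    · rcases eq_or_ne y y' with rfl | hne
      · exact le_rfl
      by_cases hxE : x ∈ E
      · obtain ⟨c, d⟩ := ns1 hy hxE p
        obtain ⟨c', d'⟩ := ns1 hy' hxE p'
        have key : C y → N2 ≤ k → C y' ∧ y' ∉ D2 := by
          rintro ⟨z, hz, hz0, e⟩ hk
          have e' := a1.tr z (r2 z hz) y c y' c' N2 e (b.le hk)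
          refine ⟨⟨z, hz, hz0, e'⟩, fun h => hne ?_⟩
          obtain rfl := e'.eq_of_Nb hz h le_rfl
          exact a1.anti y c z c' (b.le (Nat.zero_le _)) (e.le (Nat.zero_le _))
        simp only [Θ, if_pos hxE]
        by_cases hC : C y
        · by_cases hk : k < N2
          · by_cases hy2 : y ∈ D2
            · simp only [if_pos hy2, if_pos hk]; exact Fin.le_last _
            · simp only [if_neg hy2, if_pos hC, if_pos hk]; exact Fin.le_last _
          · obtain ⟨k1, k2⟩ := key hC (not_lt.1 hk)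
            simp only [if_neg k2, if_pos k1, if_neg hk]
            by_cases hy2 : y ∈ D2
            · simp only [if_pos hy2, if_neg hk]
              split_ifs <;> first | decide | tauto
            · simp only [if_neg hy2, if_pos hC, if_neg hk, le_refl]
        · have hy2 : y ∉ D2 := fun h => hC ⟨y, h, d, B.refl _ _ _⟩
          simp only [if_neg hy2, if_neg hC]
          by_cases hk : k = N1
          · subst hk
            have hy1 : y ∈ D1 := (Finset.mem_union.1 c).resolve_right hy2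
            have hy'2 : y' ∈ D2 := (Finset.mem_union.1 c').resolve_left fun h =>
              hne (b.eq_of_Nb hy1 h le_rfl)
            simp only [if_pos hy'2, if_neg (not_lt.2 hN), if_true]
            split_ifs <;> decide
          · simp only [if_neg hk]; exact Fin.le_last _
      · have c := Finset.mem_union_right E0 (ns2 hxE p)
        have c' := Finset.mem_union_right E0 (ns2 hxE p')
        simp only [Θ, if_neg hxE, θ0, le_refl]
    · by_cases hxE : x ∈ E
      · obtain ⟨c, d⟩ := ns1 hy hxE p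
        have key : C y → k < N2 := by
          rintro ⟨z', hz', hz0, e⟩
          by_contra hk
          have e' := a1.tr z' (r2 z' hz') y c z (r2 z (h2 hz)) N2 e (b.le (not_lt.1 hk))
          exact hz0 (e'.eq_of_Nb hz' (h2 hz) le_rfl ▸ hz)
        simp only [Θ, if_pos hxE]
        by_cases hC : C y
        · by_cases hy2 : y ∈ D2
          · simp only [if_pos hy2, if_pos (key hC)]
          · simp only [if_neg hy2, if_pos hC, if_pos (key hC)]
        · have hy2 : y ∉ D2 := fun h => hC ⟨y, h, d, B.refl _ _ _⟩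
          have hy1 : y ∈ D1 := (Finset.mem_union.1 c).resolve_right hy2
          have hk : k ≠ N1 := fun h => d (b.eq_of_Nb hy1 (h1 hz) h.ge ▸ hz)
          simp only [if_neg hy2, if_neg hC, if_neg hk]
      · have c := ns2 hxE p
        have hk : k ≠ F := fun h => nE z (r2 z (h2 hz))
          (b.eq_of_Nb (Finset.mem_union_right E0 c) (Finset.mem_union_left E hz) h.ge ▸ c)
        simp only [Θ, if_neg hxE, θ0, if_neg hk]
    · by_cases hxE : x ∈ E
      · obtain ⟨c, d⟩ := ns1 hy hxE p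
        simp only [Θ, if_pos hxE]
        by_cases hy2 : y ∈ D2
        · simp only [if_pos hy2]
          refine ⟨⟨(le_Nb g hy2 hy2).2, by simp, fun k hk => ?_, fun k hk => Or.inr (by simp)⟩,
            fun z hz => (le_Nb g (h2 hz) hy2).1⟩
          by_contra hc
          beta_reduce at hk
          rw [if_neg (by omega), if_neg (by omega)] at hk
          exact absurd hk (by decide)
        · have hy1 : y ∈ D1 := (Finset.mem_union.1 c).resolve_right hy2
          simp only [if_neg hy2]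
          by_cases hC : C y
          · simp only [if_pos hC]
            refine ⟨⟨(le_Nb g hy1 hy1).2, by simp [hN.not_gt], fun k hk => ?_,
              fun k hk => Or.inr (by simp [hN.not_gt])⟩, fun z hz => (le_Nb g (h1 hz) hy1).1⟩
            by_contra hc
            beta_reduce at hk
            rw [if_neg (by omega), if_neg (by omega)] at hk
            exact absurd hk (by decide)
          · simp only [if_neg hC]
            refine ⟨⟨(le_Nb g hy1 hy1).2, by simp, fun k hk => ?_, fun k hk => Or.inl ?_⟩,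
              fun z hz => (le_Nb g (h1 hz) hy1).1⟩
            · beta_reduce at hk
              split_ifs at hk <;> exact absurd hk (by decide)
            · by_contra hc
              beta_reduce at hk
              rw [if_neg (by omega)] at hk
              exact absurd hk (by decide)
      · have c := Finset.mem_union_right E0 (ns2 hxE p)
        simp only [Θ, if_neg hxE, θ0]
        refine ⟨⟨(le_Nb g c c).2, by simp, fun k hk => ?_, fun k hk => Or.inr (by simp)⟩,
          fun z hz => (le_Nb g (Finset.mem_union_left E hz) c).1⟩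
        by_contra hc
        beta_reduce at hk
        rw [if_neg (by omega)] at hk
        exact absurd hk (by decide)
  have ws : ∀ x y, Same E0 E x y → build E0 E g Θ x y = g x y := fun x y h => by
    simp only [build, if_pos h]
  have eN : ∀ D ⊆ D1 ∪ D2, Nb D (build E0 E g Θ) = Nb D g := fun D hD => by
    simpa using (Nb_pull (U := id) (D := D) (w := build E0 E g Θ) (w' := g) fun s hs t ht =>
      ws s t (Or.inl ⟨nE s (hD hs), nE t (hD ht)⟩)).symm
  have eF : Nb (E0 ∪ E) (build E0 E g Θ) = F := by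
    simpa using (Nb_pull (U := id) (D := E0 ∪ E) (w := build E0 E g Θ) (w' := g) fun s hs t ht =>
      ws s t (Or.inr ⟨Finset.mem_union.1 hs, Finset.mem_union.1 ht⟩)).symm
  have idem : ∀ x y, build E0 E g Θ x y = build E0 E (build E0 E g Θ) Θ x y := by
    intro x y
    by_cases h : Same E0 E x y
    · rw [build.eq_1 E0 E (build E0 E g Θ), if_pos h]
    · rw [build.eq_1 E0 E (build E0 E g Θ), if_neg h, build, if_neg h]
      refine cross_congr _ fun z hz => ?_
      have hz' := nE z (r2 z (h2 hz))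
      exact ⟨ws _ _ (Same.base x hz hz'), ws _ _ (Same.base y hz hz').symm⟩
  refine ⟨build E0 E g Θ, adm_build (h1.trans Finset.subset_union_left) hd a1 a2 hΘ, ws,
    ⟨Θ, fun x hx y hy => ?_, fun x hx y hy => ?_, fun x _ y _ => idem x y⟩,
    ⟨Θ, fun x hx y hy => ?_, fun x hx y hy => ?_, fun x _ y _ => idem x y⟩⟩
  · rw [eN D1 Finset.subset_union_left]
    simp only [Θ, if_pos hx]
    split_ifs
    · exact ⟨hN, fun k hk => by
        simp only []
        rw [if_neg (by omega), if_neg (by omega), if_neg (by omega), if_neg (by omega)]⟩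
    · exact ⟨le_rfl, fun k hk => by
        simp only []
        rw [if_neg (by omega), if_neg (by omega), if_neg (by omega), if_neg (by omega)]⟩
    · exact ⟨le_rfl, fun k hk => by
        simp only []
        rw [if_neg (by omega), if_neg (by omega)]⟩
  · rw [eF]; simp only [Θ, if_neg (nE x (Finset.mem_union_left _ hx))]
  · rw [eN D2 Finset.subset_union_right]
    simp only [Θ, if_pos hx, if_pos hy]
    exact ⟨le_rfl, fun k hk => by
      simp only []
      rw [if_neg (by omega), if_neg (by omega), if_neg (by omega), if_neg (by omega)]⟩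
  · rw [eF]; simp only [Θ, if_neg (nE x (r2 x hx))]

theorem exists_TG {E0 D1 D2 E : Finset ℕ} {s q : Str} (h1 : E0 ⊆ D1) (h2 : E0 ⊆ D2)
    (hd : Disjoint (D1 ∪ D2) E) (a1 : Adm (D1 ∪ D2) s) (a2 : Adm (E0 ∪ E) q)
    (h : ∀ x ∈ E0, ∀ y ∈ E0, s x y = q x y) :
    ∃ w, Adm (D1 ∪ D2 ∪ E) w ∧ (∀ x ∈ D1 ∪ D2, ∀ y ∈ D1 ∪ D2, w x y = s x y) ∧
      (∀ x ∈ E0 ∪ E, ∀ y ∈ E0 ∪ E, w x y = q x y) ∧ TG E0 D1 E w ∧ TG E0 D2 E w := by
  have nE : ∀ x ∈ D1 ∪ D2, x ∉ E := fun x hx => Finset.disjoint_left.1 hd hx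
  have g1 : ∀ x ∈ D1 ∪ D2, ∀ y ∈ D1 ∪ D2, glue E s q x y = s x y := fun x hx y hy => by
    simp [glue, nE x hx, nE y hy]
  have g2 : ∀ x ∈ E0 ∪ E, ∀ y ∈ E0 ∪ E, glue E s q x y = q x y := fun x hx y hy => by
    unfold glue
    split_ifs with h'
    · rfl
    · rw [not_or] at h'
      exact h x ((Finset.mem_union.1 hx).resolve_right h'.1) y
        ((Finset.mem_union.1 hy).resolve_right h'.2)
  have b1 : Adm (D1 ∪ D2) (glue E s q) := a1.pull (U := id) (Set.injOn_id _) (fun _ h => h) g1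
  have b2 : Adm (E0 ∪ E) (glue E s q) := a2.pull (U := id) (Set.injOn_id _) (fun _ h => h) g2
  have fin : ∀ w : Str, (∀ x y, Same E0 E x y → w x y = glue E s q x y) →
      (∀ x ∈ D1 ∪ D2, ∀ y ∈ D1 ∪ D2, w x y = s x y) ∧
      (∀ x ∈ E0 ∪ E, ∀ y ∈ E0 ∪ E, w x y = q x y) := fun w hw =>
    ⟨fun x hx y hy => (hw x y (Or.inl ⟨nE x hx, nE y hy⟩)).trans (g1 x hx y hy),
      fun x hx y hy => (hw x y (Or.inr ⟨Finset.mem_union.1 hx, Finset.mem_union.1 hy⟩)).trans
        (g2 x hx y hy)⟩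
  rcases le_total (Nb D2 (glue E s q)) (Nb D1 (glue E s q)) with hN | hN
  · obtain ⟨w, c1, c2, c3, c4⟩ := exists_TG' h1 h2 hd b1 b2 hN
    exact ⟨w, c1, (fin w c2).1, (fin w c2).2, c3, c4⟩
  · obtain ⟨w, c1, c2, c3, c4⟩ := exists_TG' h2 h1 (Finset.union_comm D1 D2 ▸ hd)
      (Finset.union_comm D1 D2 ▸ b1) b2 hN
    exact ⟨w, Finset.union_comm D2 D1 ▸ c1, (fin w c2).1, (fin w c2).2, c4, c3⟩

end Pool.Agent.P.MP_68237a_lc
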