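import Mathlib.SetTheory.Cardinal.Aleph
import Pool.Agent.Lib.Constructible.Choice

/-!
Countable transitive models of ZF that contain prescribed sets of hereditarily finite sets.
-/

universe u

namespace Pool.Agent.P.MP_68237a_lc

open ZFSet Pool.Agent.Lib.Forcing

/-- A countable elementary submodel of the universe that contains a given countable class. -/
theorem exists_elementary_of_base {T : Set ZFSet.{u}} (hT : T.Countable) :
    ∃ X : Set ZFSet.{u}, X.Countable ∧ insert ∅ T ⊆ X ∧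
    ∀ (φ : Fml) (e : Env.{u}), (∀ i, e i ∈ X) → (Sat X φ e ↔ Sat Set.univ φ e) := by
  classical
  let sk : Fml → List ZFSet.{u} → ZFSet.{u} := fun φ l =>
    if h : ∃ x, ¬ Sat Set.univ φ (cons x fun i => l.getD i ∅) then h.choose else ∅
  let S : ℕ → Set ZFSet.{u} := fun k => Nat.rec (insert ∅ T)
    (fun _ Y => Y ∪ Set.range fun t : Fml × List Y => sk t.1 (t.2.map Subtype.val)) k
  have hc : ∀ k, (S k).Countable := by
    intro k
    induction k with
    | zero => exact hT.insert _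
    | succ k ih =>
      have := ih.to_subtype
      exact ih.union (Set.countable_range _)
  have hm : Monotone S := monotone_nat_of_le_succ fun k => Set.subset_union_left
  refine ⟨⋃ k, S k, Set.countable_iUnion hc, Set.subset_iUnion S 0, fun φ => ?_⟩
  induction φ with
  | mem i j => exact fun _ _ => Iff.rfl
  | eq i j => exact fun _ _ => Iff.rfl
  | neg φ ih => exact fun e he => not_congr (ih e he)
  | and φ ψ ih1 ih2 => exact fun e he => and_congr (ih1 e he) (ih2 e he)
  | all φ ih =>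
    intro e he
    refine ⟨fun h => ?_, fun h x hx => (ih _ (cons_mem hx he)).2 (h x trivial)⟩
    by_contra hcon
    simp only [Sat, Set.mem_univ, forall_const, not_forall] at hcon
    obtain ⟨n, hn⟩ := sat_finite Set.univ φ
    obtain ⟨k, hk⟩ : ∃ k, ∀ i < n, e i ∈ S k := by
      clear hn
      induction n with
      | zero => exact ⟨0, fun _ h => absurd h (Nat.not_lt_zero _)⟩
      | succ n ihn =>
        obtain ⟨k, hk⟩ := ihn
        obtain ⟨k', hk'⟩ := Set.mem_iUnion.1 (he n)
        refine ⟨max k k', fun i hi => ?_⟩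
        rcases Nat.lt_succ_iff_lt_or_eq.1 hi with hi | rfl
        exacts [hm (le_max_left _ _) (hk i hi), hm (le_max_right _ _) hk']
    let l : List ↥(S k) := List.ofFn fun i : Fin n => (⟨e i, hk i i.2⟩ : ↥(S k))
    have hl : ∀ x, Sat Set.univ φ (cons x fun i => (l.map Subtype.val).getD i ∅) ↔
        Sat Set.univ φ (cons x e) := by
      intro x
      refine hn _ _ ?_
      rintro (_ | i) hi
      · rfl
      · have : i < n := by omega
        simp [l, this]
    have hex : ∃ x, ¬ Sat Set.univ φ (cons x fun i => (l.map Subtype.val).getD i ∅) :=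
      hcon.imp fun x hx => mt (hl x).1 hx
    have h1 : sk φ (l.map Subtype.val) ∈ ⋃ k, S k :=
      Set.mem_iUnion.2 ⟨k + 1, Or.inr ⟨(φ, l), rfl⟩⟩
    have h2 := (ih _ (cons_mem h1 he)).1 (h _ h1)
    rw [← hl] at h2
    simp only [sk, dif_pos hex] at h2
    exact hex.choose_spec h2

theorem exists_ctm_of_base {T : Set ZFSet.{u}} (hT : T.Countable)
    (ht : ∀ x ∈ T, ∀ y ∈ x, y ∈ T) :
    ∃ M : Set ZFSet.{u}, M.Countable ∧ IsZFModel M ∧ T ⊆ M := by
  classical
  obtain ⟨X, hc, h00, hX⟩ := exists_elementary_of_base hT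
  have h0 : ∅ ∈ X := h00 (Set.mem_insert _ _)
  obtain ⟨π, hπ⟩ := exists_collapse X
  have hext : ∀ x ∈ X, ∀ y ∈ X, (∀ z ∈ X, z ∈ x → z ∈ y) → x ⊆ y := by
    intro x hx y hy h
    have := (hX (.all (.neg (.and (.mem 0 1) (.neg (.mem 0 2))))) (cons x (cons y fun _ => ∅))
      (cons_mem hx (cons_mem hy fun _ => h0))).1 (fun z hz h' => h'.2 (h z hz h'.1))
    intro z hz
    by_contra h'
    exact this z trivial ⟨hz, h'⟩
  have hinj : ∀ x, x ∈ X → ∀ y ∈ X, π x = π y → x = y := by
    intro x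
    induction x using ZFSet.inductionOn with
    | h x ih =>
      intro hx y hy h
      apply subset_antisymm
      · refine hext x hx y hy fun z hz hzx => ?_
        obtain ⟨w, h1, h2, h3⟩ := (hπ y _).1 (h ▸ (hπ x _).2 ⟨z, hzx, hz, rfl⟩)
        rwa [ih z hzx hz w h2 h3.symm]
      · refine hext y hy x hx fun z hz hzy => ?_
        obtain ⟨w, h1, h2, h3⟩ := (hπ x _).1 (h ▸ (hπ y _).2 ⟨z, hzy, hz, rfl⟩)
        rwa [← ih w h1 h2 z hz h3]
  have hsat : ∀ (φ : Fml) (e : Env.{u}), (∀ i, e i ∈ X) →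
      (Sat (π '' X) φ (fun i => π (e i)) ↔ Sat X φ e) := by
    intro φ
    induction φ with
    | mem i j =>
      intro e he
      simp only [Sat, hπ]
      exact ⟨fun ⟨y, h1, h2, h3⟩ => hinj y h2 _ (he i) h3 ▸ h1, fun h => ⟨_, h, he i, rfl⟩⟩
    | eq i j => exact fun e he => ⟨hinj _ (he i) _ (he j), fun h => congrArg π h⟩
    | neg φ ih => exact fun e he => not_congr (ih e he)
    | and φ ψ ih1 ih2 => exact fun e he => and_congr (ih1 e he) (ih2 e he)
    | all φ ih =>
      intro e he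
      have : ∀ x, (fun i => π (cons x e i)) = cons (π x) (fun i => π (e i)) := by
        intro x; funext i; cases i <;> rfl
      simp only [Sat]
      constructor
      · intro h x hx
        rw [← ih _ (cons_mem hx he), this]
        exact h _ ⟨x, hx, rfl⟩
      · rintro h _ ⟨x, hx, rfl⟩
        rw [← this, ih _ (cons_mem hx he)]
        exact h x hx
  let j : ZFSet.{u} → ZFSet.{u} := fun m => if h : m ∈ π '' X then h.choose else ∅
  have hj : ∀ m ∈ π '' X, j m ∈ X ∧ π (j m) = m := by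
    intro m hm
    simp only [j, dif_pos hm]
    exact hm.choose_spec
  have hid : ∀ x, x ∈ T → π x = x := by
    intro x
    induction x using ZFSet.inductionOn with
    | h x ih =>
      intro hx
      ext z
      rw [hπ]
      exact ⟨fun ⟨y, a, _, c⟩ => c ▸ (ih y a (ht x hx y a)).symm ▸ a,
        fun a => ⟨z, a, h00 (Or.inr (ht x hx z a)), ih z a (ht x hx z a)⟩⟩
  refine ⟨π '' X, hc.image _, IsElem.isZFModel (j := j) ⟨⟨?_, ∅, h0, ?_⟩, fun φ e he => ?_⟩,
    fun x hx => ⟨x, h00 (Or.inr hx), hid x hx⟩⟩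
  · rintro _ ⟨x, -, rfl⟩ z hz
    obtain ⟨y, -, h1, h2⟩ := (hπ x z).1 hz
    exact ⟨y, h1, h2⟩
  · rw [ZFSet.eq_empty]
    intro z hz
    obtain ⟨y, h, -⟩ := (hπ _ z).1 hz
    exact notMem_empty _ h
  · rw [← hX φ _ fun i => (hj _ (he i)).1, ← hsat φ _ fun i => (hj _ (he i)).1]
    simp only [fun i => (hj _ (he i)).2]

/-- The hereditarily finite sets. -/
noncomputable def HF : ZFSet.{u} := vonNeumann Ordinal.omega0

theorem countable_HF : (HF.{u} : Set ZFSet.{u}).Countable := by
  rw [← Set.countable_coe_iff, ← Cardinal.mk_le_aleph0_iff]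
  have := cardinalMk_coe_sort (x := HF.{u})
  rw [HF, card_vonNeumann, Cardinal.preBeth_omega, Cardinal.lift_aleph0] at this
  exact this.le

theorem HF_trans {x y : ZFSet.{u}} (hx : x ∈ HF) (hy : y ∈ x) : y ∈ HF :=
  isTransitive_vonNeumann _ x hx hy

theorem HF_insert {x y : ZFSet.{u}} (hx : x ∈ HF) (hy : y ∈ HF) : insert x y ∈ HF := by
  rw [HF, mem_vonNeumann] at *
  rw [rank_insert]
  exact max_lt (Ordinal.isSuccLimit_omega0.succ_lt hx) hy

theorem HF_empty : (∅ : ZFSet.{u}) ∈ HF := by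
  rw [HF, mem_vonNeumann, rank_empty]; exact Ordinal.omega0_pos

theorem HF_singleton {x : ZFSet.{u}} (hx : x ∈ HF) : ({x} : ZFSet.{u}) ∈ HF := by
  simpa using HF_insert hx HF_empty

theorem HF_pair {x y : ZFSet.{u}} (hx : x ∈ HF) (hy : y ∈ HF) : pair x y ∈ HF :=
  HF_insert (HF_singleton hx) (HF_singleton (HF_insert hx (HF_singleton hy)))

theorem HF_nat : ∀ n, nat.{u} n ∈ HF
  | 0 => HF_empty
  | n + 1 => HF_insert (HF_nat n) (HF_nat n)

theorem finite_ind {C : ZFSet.{u} → Prop} (h0 : C ∅) {D : ZFSet.{u} → Prop}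
    (h1 : ∀ x y, D x → C y → C (insert x y)) {x : ZFSet.{u}} (hx : (x : Set ZFSet.{u}).Finite)
    (h : ∀ y ∈ x, D y) : C x := by
  have key : ∀ s : Set ZFSet.{u}, s.Finite → (∀ y ∈ s, D y) →
      ∃ z, C z ∧ (z : Set ZFSet.{u}) = s := by
    intro s hs
    induction s, hs using Set.Finite.induction_on with
    | empty => exact fun _ => ⟨∅, h0, coe_empty⟩
    | @insert a s _ _ ih =>
      intro h
      obtain ⟨z, hz, rfl⟩ := ih fun y hy => h y (Set.mem_insert_of_mem _ hy)
      exact ⟨insert a z, h1 _ _ (h a (Set.mem_insert _ _)) hz, coe_insert _ _⟩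
  obtain ⟨z, hz, h'⟩ := key x hx h
  rwa [← SetLike.coe_injective h']

theorem HF_of_finite {x : ZFSet.{u}} (hx : (x : Set ZFSet.{u}).Finite) (h : ∀ y ∈ x, y ∈ HF) :
    x ∈ HF :=
  finite_ind (C := (· ∈ HF)) HF_empty (fun _ _ => HF_insert) hx h

theorem finite_of_HF {x : ZFSet.{u}} (hx : x ∈ HF) : (x : Set ZFSet.{u}).Finite := by
  rw [HF, mem_vonNeumann] at hx
  obtain ⟨n, hn⟩ := Ordinal.lt_omega0.1 hx
  have h1 := card_mono (subset_vonNeumann_self x)
  rw [card_vonNeumann, hn, Cardinal.preBeth_nat] at h1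
  rw [← Set.finite_coe_iff, ← Cardinal.mk_lt_aleph0_iff]
  have h2 := cardinalMk_coe_sort (x := x)
  refine h2.trans_lt ?_
  rw [Cardinal.lift_lt_aleph0]
  exact h1.trans_lt (Cardinal.natCast_lt_aleph0)

end Pool.Agent.P.MP_68237a_lc
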