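import Mathlib.Data.Real.Basic
import Pool.Agent.Lib.Constructible.DefPow

/-!
The notions of the problem, relativised to a transitive class `N` of sets. Functions are sets of
ordered pairs, `omega` is the set of von Neumann natural numbers `nat n`, and a nonnegative real
number is its Dedekind cut.
-/

universe u

namespace Pool.Agent.P.MP_68237a_lc

open ZFSet Pool.Agent.Lib.Forcing

/-- The nonnegative real `r` as a set: the upper Dedekind cut of all fractions `m / (n + 1)`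
above `r`, a fraction being the pair `(m, n)`. -/
def cut (r : ℝ) : ZFSet.{u} :=
  (omega.prod omega).sep fun z => ∃ m n : ℕ, z = pair (nat m) (nat n) ∧ r < (m : ℝ) / (n + 1)

/-- The set `d` is (the graph of) a quasi-metric `X × X → [0, ∞)`, with values `ρ x y`. -/
structure IsQM (X d : ZFSet.{u}) (ρ : ZFSet.{u} → ZFSet.{u} → ℝ) : Prop where
  graph : ∀ z, z ∈ d ↔ ∃ x ∈ X, ∃ y ∈ X, z = pair (pair x y) (cut (ρ x y))
  nonneg : ∀ x ∈ X, ∀ y ∈ X, 0 ≤ ρ x y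
  refl : ∀ x ∈ X, ρ x x = 0
  tri : ∀ x ∈ X, ∀ y ∈ X, ∀ z ∈ X, ρ x y ≤ ρ x z + ρ z y
  sep : ∀ x ∈ X, ∀ y ∈ X, ρ x y = 0 → x = y

/-- `τ` is the topology `τ(ρ)` on `X`, as computed in `N`. -/
def Induces (N : Set ZFSet.{u}) (X τ : ZFSet.{u}) (ρ : ZFSet.{u} → ZFSet.{u} → ℝ) : Prop :=
  ∀ V, V ∈ τ ↔ V ∈ N ∧ V ⊆ X ∧ ∀ x ∈ V, ∃ n : ℕ, ∀ y ∈ X, ρ x y < 1 / 2 ^ n → y ∈ V

/-- `N` satisfies: the topological space `(X, τ)` is quasi-metrizable. -/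
def QMetrizable (N : Set ZFSet.{u}) (X τ : ZFSet.{u}) : Prop :=
  ∃ d ∈ N, ∃ ρ, IsQM X d ρ ∧ Induces N X τ ρ

/-- `N` satisfies: the bitopological space `(X, τ₁, τ₂)` is quasi-metrizable. -/
def BiQMetrizable (N : Set ZFSet.{u}) (X τ₁ τ₂ : ZFSet.{u}) : Prop :=
  ∃ d ∈ N, ∃ ρ, IsQM X d ρ ∧ Induces N X τ₁ ρ ∧ Induces N X τ₂ fun x y => ρ y x

/-- `N` satisfies: `J` is countable (it injects into `omega`). -/
def CountableIn (N : Set ZFSet.{u}) (J : ZFSet.{u}) : Prop :=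
  ∃ g ∈ N, IsFunc J omega g ∧ ∀ i j n, pair i n ∈ g → pair j n ∈ g → i = j

/-- `F` is a function with domain `J`. -/
def IsFamily (J F : ZFSet.{u}) : Prop := ∃ B, IsFunc J B F

/-- `P` is the product of the family of sets `X` indexed by `J`, as computed in `N`. -/
def IsProd (N : Set ZFSet.{u}) (J X P : ZFSet.{u}) : Prop :=
  ∀ f, f ∈ P ↔ f ∈ N ∧ IsFamily J f ∧ ∀ j A x, pair j A ∈ X → pair j x ∈ f → x ∈ A

/-- `τ` is the Tychonoff topology on the product set `P` for the family of topologies `T`, as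
computed in `N`: `W` is open if every `f ∈ W` lies in a basic set inside `W` given by finitely
many pairs (index `j`, open set of the `j`-th factor). -/
def IsProdTop (N : Set ZFSet.{u}) (T P τ : ZFSet.{u}) : Prop :=
  ∀ W, W ∈ τ ↔ W ∈ N ∧ W ⊆ P ∧ ∀ f ∈ W, ∃ S : Set (ZFSet.{u} × ZFSet.{u}), S.Finite ∧
    (∀ p ∈ S, (∃ t, pair p.1 t ∈ T ∧ p.2 ∈ t) ∧ ∀ x, pair p.1 x ∈ f → x ∈ p.2) ∧
    ∀ g ∈ P, (∀ p ∈ S, ∀ x, pair p.1 x ∈ g → x ∈ p.2) → g ∈ W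

/-- `N` satisfies CPQM. -/
def CPQM (N : Set ZFSet.{u}) : Prop :=
  ∀ J ∈ N, CountableIn N J → ∀ X ∈ N, ∀ T ∈ N, IsFamily J X → IsFamily J T →
    (∀ j A t, pair j A ∈ X → pair j t ∈ T → QMetrizable N A t) →
    ∀ P ∈ N, ∀ τ ∈ N, IsProd N J X P → IsProdTop N T P τ → QMetrizable N P τ

/-- `N` satisfies CPQMBi. -/
def CPQMBi (N : Set ZFSet.{u}) : Prop :=
  ∀ J ∈ N, CountableIn N J → ∀ X ∈ N, ∀ T₁ ∈ N, ∀ T₂ ∈ N,
    IsFamily J X → IsFamily J T₁ → IsFamily J T₂ →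
    (∀ j A t₁ t₂, pair j A ∈ X → pair j t₁ ∈ T₁ → pair j t₂ ∈ T₂ → BiQMetrizable N A t₁ t₂) →
    ∀ P ∈ N, ∀ τ₁ ∈ N, ∀ τ₂ ∈ N, IsProd N J X P → IsProdTop N T₁ P τ₁ → IsProdTop N T₂ P τ₂ →
      BiQMetrizable N P τ₁ τ₂

end Pool.Agent.P.MP_68237a_lc
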