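import Pool.Agent.P.MP_68237a_lc.Key

/-!
Finite diagrams as hereditarily finite sets, and the internal description of canonical placement.
-/

universe u

set_option synthInstance.maxSize 16384

namespace Pool.Agent.P.MP_68237a_lc

open ZFSet Pool.Agent.Lib.Forcing

def mat (S w : ZFSet.{u}) : ZFSet.{u} := ((omega.prod omega).prod omega).sep fun q =>
  ∃ x, pair (fst (fst q)) x ∈ w ∧ ∃ y, pair (snd (fst q)) y ∈ w ∧ pair (pair x y) (snd q) ∈ S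

def apx (w L : ZFSet.{u}) : ZFSet.{u} :=
  (omega.prod L).sep fun q => ∃ x, pair (fst q) x ∈ w ∧ snd q ∈ x

noncomputable def matE (I : Finset ℕ) (w : ℕ → ℕ → ℕ) : ZFSet.{u} :=
  range fun p : I × I => pair (pair (nat p.1) (nat p.2)) (nat (w p.1 p.2))

noncomputable def apxE (E : Finset ℕ) (L : ℕ) (σ : ℕ → ℕ → Bool) : ZFSet.{u} :=
  range fun p : {p ∈ E ×ˢ Finset.range L | σ p.1 p.2 = true} => pair (nat p.1.1) (nat p.1.2)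

theorem mem_matE {I : Finset ℕ} {w : ℕ → ℕ → ℕ} {z : ZFSet.{u}} :
    z ∈ matE I w ↔ ∃ s ∈ I, ∃ t ∈ I, pair (pair (nat s) (nat t)) (nat (w s t)) = z := by
  simp [matE]

theorem mem_apxE {E : Finset ℕ} {L : ℕ} {σ : ℕ → ℕ → Bool} {z : ZFSet.{u}} :
    z ∈ apxE E L σ ↔ ∃ s ∈ E, ∃ k < L, σ s k = true ∧ pair (nat s) (nat k) = z := by
  simp [apxE, and_assoc]

theorem matE_eq_iff {I I' : Finset ℕ} {w w' : ℕ → ℕ → ℕ} :
    matE.{u} I w = matE I' w' ↔ I = I' ∧ ∀ s ∈ I, ∀ t ∈ I, w s t = w' s t := by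
  constructor
  · intro h
    have a : ∀ {I I' w w'}, matE.{u} I w = matE I' w' → ∀ s ∈ I, ∀ t ∈ I,
        s ∈ I' ∧ w s t = w' s t := fun h s hs t ht => by
      obtain ⟨s', b, t', c, d⟩ := mem_matE.1 (h ▸ mem_matE.2 ⟨s, hs, t, ht, rfl⟩)
      simp only [pair_inj, nat_inj] at d
      obtain ⟨⟨rfl, rfl⟩, d⟩ := d
      exact ⟨b, d.symm⟩
    exact ⟨subset_antisymm (fun s hs => (a h s hs s hs).1) fun s hs => (a h.symm s hs s hs).1,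
      fun s hs t ht => (a h s hs t ht).2⟩
  · rintro ⟨rfl, h⟩
    ext z
    simp only [mem_matE]
    exact exists_congr fun s => and_congr_right fun hs => exists_congr fun t =>
      and_congr_right fun ht => by rw [h s hs t ht]

theorem apxE_eq_iff {E : Finset ℕ} {L : ℕ} {σ σ' : ℕ → ℕ → Bool} :
    apxE.{u} E L σ = apxE E L σ' ↔ ∀ s ∈ E, ∀ k < L, σ s k = σ' s k := by
  constructor
  · intro h s hs k hk
    simpa [mem_apxE, nat_inj, hs, hk] using congrArg (pair (nat s) (nat k) ∈ ·) h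
  · intro h
    ext z
    simp only [mem_apxE]
    exact exists_congr fun s => and_congr_right fun hs => exists_congr fun t =>
      and_congr_right fun ht => by rw [h s hs t ht]

theorem apx_asg (lb : ℕ → ℕ → Bool) (E : Finset ℕ) (U : ℕ → ℕ) (L : ℕ) :
    apx (asg.{u} lb E U) (nat L) = apxE E L fun s => lb (U s) := by
  ext z
  simp only [apx, mem_sep, mem_prod, mem_apxE, mem_asg, mem_nat]
  constructor
  · rintro ⟨⟨_, -, _, ⟨k, a, rfl⟩, rfl⟩, x, ⟨s, b, c⟩, d⟩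
    simp only [fst_pair, snd_pair, pair_inj] at c d
    obtain ⟨rfl, rfl⟩ := c
    exact ⟨s, b, k, a, nat_mem_lab.1 d, rfl⟩
  · rintro ⟨s, a, k, b, c, rfl⟩
    exact ⟨⟨_, nat_mem_omega s, _, ⟨k, b, rfl⟩, rfl⟩, _, ⟨s, a, by rw [fst_pair]⟩,
      by rwa [snd_pair, nat_mem_lab]⟩

structure Cl where
  E : Finset ℕ
  q : ℕ → ℕ → ℕ
  L : ℕ
  σ : ℕ → ℕ → Bool

theorem exists_cls : ∃ cls : ℕ → Cl, (∀ (E : Finset ℕ) (q : ℕ → ℕ → ℕ) (n : ℕ), ∃ c,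
    (cls c).E = E ∧ (cls c).L = 0 ∧ ∀ s < n, ∀ t < n, (cls c).q s t = q s t) ∧
    ∀ c L (σ : ℕ → ℕ → Bool), ∃ c', (cls c').E = (cls c).E ∧ (cls c').q = (cls c).q ∧
      (cls c').L = L ∧ ∀ s ∈ (cls c).E, ∀ k < L, (cls c').σ s k = σ s k := by
  obtain ⟨e1, h1⟩ := exists_enum ℕ
  obtain ⟨e2, h2⟩ := exists_enum Bool
  obtain ⟨e, he⟩ := exists_surjective_nat (Finset ℕ × ℕ × ℕ × ℕ)
  refine ⟨fun c => ⟨(e c).1, e1 (e c).2.1, (e c).2.2.1, e2 (e c).2.2.2⟩, fun E q n => ?_,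
    fun c L σ => ?_⟩
  · obtain ⟨c1, a⟩ := h1 n q
    obtain ⟨c, b⟩ := he (E, c1, 0, 0)
    exact ⟨c, by simp only [b, true_and]; exact a⟩
  · obtain ⟨c2, a⟩ := h2 ((e c).1.sup id + 1 + L) σ
    obtain ⟨c', b⟩ := he ((e c).1, (e c).2.1, L, c2)
    refine ⟨c', ?_⟩
    simp only [b, true_and]
    exact fun s hs k hk => a s (by have := lt_sup_succ hs; omega) k (by omega)

noncomputable def cls : ℕ → Cl := exists_cls.choose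

noncomputable def UT (A : Amalg) : ZFSet.{u} := HF.sep fun z => ∃ c I0 I w,
  (∀ s ∈ (cls c).E, Odd s) ∧ A.TG I0 I (cls c).E w ∧
  (∀ s ∈ I0 ∪ (cls c).E, ∀ t ∈ I0 ∪ (cls c).E, w s t = (cls c).q s t) ∧
  z = pair (nat c) (pair (nat (cls c).L) (pair (matE I0 w) (pair (matE I w)
    (pair (matE (I ∪ (cls c).E) w) (apxE (cls c).E (cls c).L (cls c).σ)))))

noncomputable def EvT : ZFSet.{u} := HF.sep fun z => ∃ n, Even n ∧ z = nat n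

theorem nat_mem_EvT {n : ℕ} : nat.{u} n ∈ EvT ↔ Even n := by simp [EvT, HF_nat, nat_inj]

theorem HF_matE (I : Finset ℕ) (w : ℕ → ℕ → ℕ) : matE.{u} I w ∈ HF :=
  HF_of_finite (by rw [matE, coe_range]; exact Set.finite_range _) fun z hz => by
    obtain ⟨s, -, t, -, rfl⟩ := mem_matE.1 hz
    exact HF_pair (HF_pair (HF_nat _) (HF_nat _)) (HF_nat _)

theorem HF_apxE (E : Finset ℕ) (L : ℕ) (σ : ℕ → ℕ → Bool) : apxE.{u} E L σ ∈ HF :=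
  HF_of_finite (by rw [apxE, coe_range]; exact Set.finite_range _) fun z hz => by
    obtain ⟨s, -, t, -, -, rfl⟩ := mem_apxE.1 hz
    exact HF_pair (HF_nat _) (HF_nat _)

theorem asg_union (lb : ℕ → ℕ → Bool) (I E : Finset ℕ) (U : ℕ → ℕ) :
    asg.{u} lb I U ∪ asg lb E U = asg lb (I ∪ E) U := by
  ext z
  simp [mem_asg, or_and_right, exists_or]

theorem asg_sdiff (lb : ℕ → ℕ → Bool) {I E : Finset ℕ} (h : Disjoint I E) (U : ℕ → ℕ) :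
    asg.{u} lb (I ∪ E) U \ asg lb I U = asg lb E U := by
  ext z
  simp only [mem_sdiff, mem_asg, Finset.mem_union]
  constructor
  · rintro ⟨⟨s, a | a, rfl⟩, b⟩
    exacts [(b ⟨s, a, rfl⟩).elim, ⟨s, a, rfl⟩]
  · rintro ⟨s, a, rfl⟩
    exact ⟨⟨s, Or.inr a, rfl⟩, fun ⟨t, b, c⟩ =>
      Finset.disjoint_left.1 h b (nat_inj.1 (pair_inj.1 c).1 ▸ a)⟩

variable {A : Amalg} {Γ : ZFSet.{u}} (G : GM A Γ)

namespace GM

theorem mat_asg (I : Finset ℕ) (U : ℕ → ℕ) :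
    mat (Sig G.y) (asg.{u} G.y.2 I U) = matE I fun s t => G.y.1 (U s) (U t) := by
  ext z
  simp only [mat, mem_sep, mem_matE, mem_asg, mem_prod]
  constructor
  · rintro ⟨⟨_, ⟨i, -, j, -, rfl⟩, c, -, rfl⟩, x, ⟨s, a, b⟩, y, ⟨t, d, e⟩, f⟩
    simp only [fst_pair, snd_pair, pair_inj] at b e f
    obtain ⟨rfl, rfl⟩ := b
    obtain ⟨rfl, rfl⟩ := e
    exact ⟨s, a, t, d, by rw [G.sig_iff.1 f]⟩
  · rintro ⟨s, a, t, b, rfl⟩
    exact ⟨⟨_, ⟨_, nat_mem_omega s, _, nat_mem_omega t, rfl⟩, _, nat_mem_omega _, rfl⟩, _,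
      ⟨s, a, by rw [fst_pair, fst_pair]⟩, _, ⟨t, b, by rw [fst_pair, snd_pair]⟩,
      by rw [snd_pair, G.sig_iff]⟩

theorem asg_subset {I K : Finset ℕ} {U V : ℕ → ℕ} :
    asg.{u} G.y.2 I U ⊆ asg G.y.2 K V ↔ I ⊆ K ∧ ∀ s ∈ I, V s = U s := by
  constructor
  · intro h
    have : ∀ s ∈ I, s ∈ K ∧ V s = U s := fun s hs => by
      obtain ⟨t, a, b⟩ := mem_asg.1 (h (mem_asg.2 ⟨s, hs, rfl⟩))
      simp only [pair_inj, nat_inj, G.l_inj] at b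
      exact b.1 ▸ ⟨a, b.1 ▸ b.2⟩
    exact ⟨fun s hs => (this s hs).1, fun s hs => (this s hs).2⟩
  · rintro ⟨a, b⟩ z hz
    obtain ⟨s, c, rfl⟩ := mem_asg.1 hz
    exact mem_asg.2 ⟨s, a c, by rw [b s c]⟩

def Asg (w : ZFSet.{u}) : Prop := FinZ G.N w ∧ w ⊆ omega.prod (DD G.y) ∧
  ∀ i x, pair i x ∈ w → ∀ i' x', pair i' x' ∈ w → (i = i' ↔ x = x')

theorem asg_iff {w : ZFSet.{u}} (hw : w ∈ G.N) :
    G.Asg w ↔ ∃ (I : Finset ℕ) (U : ℕ → ℕ), Set.InjOn U I ∧ w = asg G.y.2 I U := by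
  constructor
  · rintro ⟨a, b, c⟩
    have hf : {i : ℕ | ∃ t, pair (nat i) (G.l t) ∈ w}.Finite :=
      ((((finZ_iff hw).1 a).image fst).preimage (f := nat) fun _ _ _ _ => nat_inj.1).subset
        fun i ⟨t, h⟩ => ⟨_, h, fst_pair _ _⟩
    choose! U hU using fun i (h : ∃ t, pair (nat i) (G.l t) ∈ w) => h
    refine ⟨hf.toFinset, U, fun s hs t ht e => nat_inj.1 ((c _ _ (hU s (by simpa using hs)) _ _
      (hU t (by simpa using ht))).2 (by rw [e])), ZFSet.ext fun z => ?_⟩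
    simp only [mem_asg, Set.Finite.mem_toFinset, Set.mem_setOf_eq]
    refine ⟨fun hz => ?_, fun ⟨i, d, e⟩ => e ▸ hU i d⟩
    obtain ⟨_, d, _, e, rfl⟩ := mem_prod.1 (b hz)
    obtain ⟨i, rfl⟩ := mem_omega_iff.1 d
    obtain ⟨t, rfl⟩ := mem_DD.1 e
    exact ⟨i, ⟨t, hz⟩, congrArg _ ((c _ _ (hU i ⟨t, hz⟩) _ _ hz).1 rfl)⟩
  · rintro ⟨I, U, a, rfl⟩
    refine ⟨(finZ_iff hw).2 (finite_asg _ _ _), fun z hz => ?_, fun i x b i' x' c => ?_⟩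
    · obtain ⟨s, -, rfl⟩ := mem_asg.1 hz
      exact pair_mem_prod.2 ⟨nat_mem_omega s, mem_DD.2 ⟨_, rfl⟩⟩
    · obtain ⟨s, d, e⟩ := mem_asg.1 b
      obtain ⟨t, f, g⟩ := mem_asg.1 c
      obtain ⟨rfl, rfl⟩ := pair_inj.1 e
      obtain ⟨rfl, rfl⟩ := pair_inj.1 g
      rw [nat_inj, G.l_inj, a.eq_iff d f]

def Su (e0 s : ZFSet.{u}) : Prop := G.Asg s ∧ e0 ⊆ s ∧ ∀ i x, pair i x ∈ s → i ∈ EvT

theorem su_iff {I0 : Finset ℕ} {U0 : ℕ → ℕ} {s : ZFSet.{u}} (hs : s ∈ G.N) :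
    G.Su (asg G.y.2 I0 U0) s ↔ ∃ (I : Finset ℕ) (U : ℕ → ℕ), Set.InjOn U I ∧ I0 ⊆ I ∧
      (∀ i ∈ I0, U i = U0 i) ∧ (∀ i ∈ I, Even i) ∧ s = asg G.y.2 I U := by
  rw [Su, G.asg_iff hs]
  constructor
  · rintro ⟨⟨I, U, a, rfl⟩, b, c⟩
    exact ⟨I, U, a, (G.asg_subset.1 b).1, (G.asg_subset.1 b).2,
      fun i hi => nat_mem_EvT.1 (c _ _ (mem_asg.2 ⟨i, hi, rfl⟩)), rfl⟩
  · rintro ⟨I, U, a, b, c, d, rfl⟩
    refine ⟨⟨I, U, a, rfl⟩, G.asg_subset.2 ⟨b, c⟩, fun i x h => ?_⟩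
    obtain ⟨s, e, f⟩ := mem_asg.1 h
    exact (pair_inj.1 f).1 ▸ nat_mem_EvT.2 (d s e)

def Gd (e0 Z τ₁ τ₂ γ : ZFSet.{u}) : R3.{u} := fun s c E => ∃ w ∈ G.N, G.Asg w ∧ s ⊆ w ∧
  Ev G.N (bas Γ G.y) (prm (Sig G.y) Γ (e0 ∪ (w \ s))) γ E ∧ Full omega Z τ₁ τ₂ (Rel E) ∧
  ∃ L ∈ omega, pair c (pair L (pair (mat (Sig G.y) e0) (pair (mat (Sig G.y) s)
    (pair (mat (Sig G.y) w) (apx (w \ s) L))))) ∈ UT A

theorem disj_of_parity {I E : Finset ℕ} (h : ∀ i ∈ I, Even i) (h' : ∀ i ∈ E, Odd i) :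
    Disjoint I E :=
  Finset.disjoint_left.2 fun i a b => Nat.not_odd_iff_even.2 (h i a) (h' i b)

theorem gd_iff {I0 I : Finset ℕ} {U0 U : ℕ → ℕ} {Z τ₁ τ₂ E : ZFSet.{u}} {t : Tr} {c : ℕ}
    (h0 : I0 ⊆ I) (h1 : ∀ i ∈ I0, U i = U0 i) (h2 : ∀ i ∈ I, Even i) :
    G.Gd (asg G.y.2 I0 U0) Z τ₁ τ₂ (t.code G.o) (asg G.y.2 I U) (nat c) E ↔
      (∀ s ∈ (cls c).E, Odd s) ∧ ∃ V, G.Rz I0 I (cls c).E (cls c).q U V ∧
        Lab G.y (cls c).E (cls c).L (cls c).σ V ∧ E = G.val t (I0 ∪ (cls c).E) V ∧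
        Full omega Z τ₁ τ₂ (Rel E) := by
  have key : ∀ (F : Finset ℕ) V, (∀ i ∈ F, Odd i) → (∀ i ∈ I, V i = U i) →
      asg.{u} G.y.2 I0 U0 = asg G.y.2 I0 V ∧ asg.{u} G.y.2 I U = asg G.y.2 I V ∧
      asg.{u} G.y.2 (I ∪ F) V \ asg G.y.2 I V = asg G.y.2 F V := fun F V a b =>
    ⟨asg_congr fun i hi => (h1 i hi).symm.trans (b i (h0 hi)).symm,
      asg_congr fun i hi => (b i hi).symm, asg_sdiff _ (disj_of_parity h2 a) V⟩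
  constructor
  · rintro ⟨_, a1, a2, a3, a4, a5, L, -, a6⟩
    obtain ⟨K, V, b1, rfl⟩ := (G.asg_iff a1).1 a2
    obtain ⟨c', J0, J, w, d1, d2, d3, d4⟩ := (mem_sep.1 a6).2
    simp only [pair_inj, nat_inj, G.mat_asg, matE_eq_iff] at d4
    obtain ⟨rfl, rfl, ⟨rfl, -⟩, ⟨rfl, -⟩, ⟨rfl, d5⟩, d6⟩ := d4
    have b2 := (G.asg_subset.1 a3).2
    obtain ⟨e1, e2, e3⟩ := key _ V d1 b2
    rw [e2, e3, apx_asg, apxE_eq_iff] at d6
    rw [e1, e2, e3, asg_union, G.ev_iff] at a4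
    have m := Finset.union_subset_union_left (t := (cls c).E) h0
    exact ⟨d1, V, ⟨b1, b2, A.tg_congr h0 d2 d5,
      fun s hs t ht => (d5 s (m hs) t (m ht)).trans (d3 s hs t ht)⟩, d6, a4, a5⟩
  · rintro ⟨a1, V, a2, a3, a4, a5⟩
    obtain ⟨e1, e2, e3⟩ := key _ V a1 a2.eq
    refine ⟨_, G.asg_mem (I ∪ (cls c).E) V, (G.asg_iff (G.asg_mem _ _)).2 ⟨_, _, a2.inj, rfl⟩,
      G.asg_subset.2 ⟨Finset.subset_union_left, a2.eq⟩, ?_, a5, _, nat_mem_omega (cls c).L, ?_⟩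
    · rwa [e1, e2, e3, asg_union, G.ev_iff]
    · rw [e1, e2, e3, apx_asg, apxE_eq_iff.2 a3, G.mat_asg, G.mat_asg, G.mat_asg]
      exact mem_sep.2 ⟨HF_pair (HF_nat _) (HF_pair (HF_nat _) (HF_pair (HF_matE _ _) (HF_pair
        (HF_matE _ _) (HF_pair (HF_matE _ _) (HF_apxE _ _ _))))), c, I0, I, _, a1, a2.tg, a2.tp,
        rfl⟩

end GM

end Pool.Agent.P.MP_68237a_lc
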