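import Pool.Agent.P.MP_68237a_lc.Meas

/-!
Terms that name the elements of a constructible hierarchy `L(b)` from ordinals and one parameter.
-/

universe u

set_option synthInstance.maxSize 16384

namespace Pool.Agent.P.MP_68237a_lc

open ZFSet Pool.Agent.Lib.Forcing

/-- The value of the function `x` at `y`. -/
def app (x y : ZFSet.{u}) : ZFSet.{u} := (⋃₀ ⋃₀ ⋃₀ x).sep fun z => ∃ w, pair y w ∈ x ∧ z ∈ w

theorem app_eq {x y w : ZFSet.{u}} (h : pair y w ∈ x) (hu : ∀ w', pair y w' ∈ x → w' = w) :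
    app x y = w := by
  ext z
  simp only [app, mem_sep, mem_sUnion]
  constructor
  · rintro ⟨-, w', h1, h2⟩
    rwa [← hu w' h1]
  · exact fun hz => ⟨⟨w, ⟨{y, w}, ⟨_, h, mem_pair.2 (Or.inr rfl)⟩, mem_pair.2 (Or.inr rfl)⟩, hz⟩,
      w, h, hz⟩

open Classical in
noncomputable def gop2 (a b τ x y : ZFSet.{u}) : ZFSet.{u} :=
  if τ = nat 11 then app x y else gop a b τ x y

def CStepG (g : ZFSet.{u} → ZFSet.{u} → ZFSet.{u} → ZFSet.{u}) (z p q : ZFSet.{u}) : Prop :=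
  ∃ γ x, p = pair γ x ∧ ∃ δ y, q = pair δ y ∧ ∃ τ ∈ omega, τ ≠ ∅ ∧
    z = pair (gp (pair τ (gp (pair γ δ)))) (g τ x y)

variable {M : Set ZFSet.{u}}

theorem codeG_ordinal {g : ZFSet.{u} → ZFSet.{u} → ZFSet.{u} → ZFSet.{u}} {z : ZFSet.{u}}
    (h : Gen M CAx (CStepG g) z) : ∀ γ x, z = pair γ x → γ.IsOrdinal := by
  intro γ x h'
  cases h with
  | ax _ h =>
    obtain ⟨γ', α, rfl, -, rfl⟩ := h
    exact (pair_inj.1 h').1 ▸ isOrdinal_gp _
  | step _ _ _ h =>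
    obtain ⟨_, _, -, _, _, -, τ, -, -, rfl⟩ := h
    exact (pair_inj.1 h').1 ▸ isOrdinal_gp _

theorem codeG_unique {g : ZFSet.{u} → ZFSet.{u} → ZFSet.{u} → ZFSet.{u}} {z : ZFSet.{u}}
    (h : Gen M CAx (CStepG g) z) :
    ∀ γ x x', z = pair γ x → Gen M CAx (CStepG g) (pair γ x') → x = x' := by
  induction h with
  | ax _ h =>
    intro γ x x' h1 h2
    obtain ⟨γ', α, rfl, ho, rfl⟩ := h
    obtain ⟨rfl, rfl⟩ := pair_inj.1 h1
    cases h2 with
    | ax _ h =>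
      obtain ⟨γ', α', h3, ho', rfl⟩ := h
      obtain ⟨h4, rfl⟩ := pair_inj.1 h3
      exact (gp_inj isOrdinal_empty ho isOrdinal_empty ho' h4).2
    | step _ _ _ h =>
      obtain ⟨_, _, -, _, _, -, τ, h3, h4, h5⟩ := h
      exact (h4 (gp_inj isOrdinal_empty ho (isOrdinal_omega'.mem h3) (isOrdinal_gp _)
        (pair_inj.1 h5).1).1.symm).elim
  | step _ hp hq h ih1 ih2 =>
    intro γ x x' h1 h2
    obtain ⟨γ1, x1, rfl, γ2, x2, rfl, τ, h3, h4, rfl⟩ := h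
    obtain ⟨rfl, rfl⟩ := pair_inj.1 h1
    cases h2 with
    | ax _ h =>
      obtain ⟨γ', α', h5, ho', rfl⟩ := h
      exact (h4 (gp_inj (isOrdinal_omega'.mem h3) (isOrdinal_gp _) isOrdinal_empty ho'
        (pair_inj.1 h5).1).1).elim
    | step _ hp' hq' h =>
      obtain ⟨δ1, y1, rfl, δ2, y2, rfl, τ', h5, -, h6⟩ := h
      obtain ⟨h7, rfl⟩ := pair_inj.1 h6
      obtain ⟨rfl, h8⟩ := gp_inj (isOrdinal_omega'.mem h3) (isOrdinal_gp _)
        (isOrdinal_omega'.mem h5) (isOrdinal_gp _) h7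
      obtain ⟨rfl, rfl⟩ := gp_inj (codeG_ordinal hp _ _ rfl) (codeG_ordinal hq _ _ rfl)
        (codeG_ordinal hp' _ _ rfl) (codeG_ordinal hq' _ _ rfl) h8
      rw [ih1 _ _ _ rfl hp', ih2 _ _ _ rfl hq']

/-- Terms. -/
inductive Tr : Type
  | ord (n : ℕ) : Tr
  | op (k : ℕ) (s t : Tr) : Tr

def Tr.enc : Tr → ℕ
  | .ord n => Nat.pair 0 n
  | .op k s t => Nat.pair (k + 1) (Nat.pair s.enc t.enc)

theorem Tr.enc_inj : Function.Injective Tr.enc := by
  intro s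
  induction s with
  | ord n => intro t h; cases t <;> simp_all [Tr.enc]
  | op k s s' ih ih' =>
    intro t h
    cases t <;> simp [Tr.enc] at h
    rw [h.1, ih h.2.1, ih' h.2.2]

instance : Countable Tr := Tr.enc_inj.countable

noncomputable def Tr.code (o : ℕ → ZFSet.{u}) : Tr → ZFSet.{u}
  | .ord n => gp (pair ∅ (o n))
  | .op k s t => gp (pair (nat (k + 1)) (gp (pair (s.code o) (t.code o))))

noncomputable def Tr.eval (o : ℕ → ZFSet.{u}) (a b : ZFSet.{u}) : Tr → ZFSet.{u}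
  | .ord n => o n
  | .op k s t => gop2 a b (nat (k + 1)) (s.eval o a b) (t.eval o a b)

section meas

variable {X : Type} [MeasurableSpace X]

instance UDf.exEqPair (i : ℕ) {R : Set ZFSet.{u} → ZFSet.{u} → ZFSet.{u} → Env.{u} → Prop}
    [UDf (fun M e => R M (e 1) (e 0) (fun i => e (i + 1 + 1)))] :
    UDf (fun M e => ∃ a b, e i = pair a b ∧ R M a b e) :=
  (inferInstance : UDf (fun M e => ∃ a ∈ M, ∃ b ∈ M, e i = pair a b ∧ R M a b e)).congr
    fun _ _ e he => ⟨fun ⟨a, _, b, _, h⟩ => ⟨a, b, h⟩, fun ⟨a, b, h⟩ =>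
      ⟨a, fst_mem_of_pair_mem (h.1 ▸ he i), b, snd_mem_of_pair_mem (h.1 ▸ he i), h⟩⟩

theorem meas_udf3 (R : ZFSet.{u} → ZFSet.{u} → ZFSet.{u} → Prop)
    [h : UDf fun _ e => R (e 0) (e 1) (e 2)] {x y z : X → ZFSet.{u}} (hx : Meas x) (hy : Meas y)
    (hz : Meas z) : MeasurableSet {G | R (x G) (y G) (z G)} :=
  meas_udf (fun e => R (e 0) (e 1) (e 2)) (fun G => cons (x G) (cons (y G) fun _ => z G)) (by
    rintro (_ | _ | i)
    exacts [hx, hy, hz])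

theorem Meas.ite (p : Prop) [Decidable p] {x y : X → ZFSet.{u}} (hx : Meas x) (hy : Meas y) :
    Meas fun G => if p then x G else y G := by
  split_ifs <;> assumption

theorem Meas.fst {x : X → ZFSet.{u}} (hx : Meas x) : Meas fun G => fst (x G) :=
  hx.sUnion.sUnion.sep _ fun _ hy =>
    meas_udf3 (fun z p _ => ∃ a b, p = ZFSet.pair a b ∧ z ∈ a) hy hx hx

theorem Meas.snd {x : X → ZFSet.{u}} (hx : Meas x) : Meas fun G => snd (x G) :=
  hx.sUnion.sUnion.sep _ fun _ hy =>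
    meas_udf3 (fun z p _ => ∃ a b, p = ZFSet.pair a b ∧ z ∈ b) hy hx hx

theorem Meas.gop2 {a b x y : X → ZFSet.{u}} (ha : Meas a) (hb : Meas b) (hx : Meas x)
    (hy : Meas y) (τ : ZFSet.{u}) : Meas fun G => gop2 (a G) (b G) τ (x G) (y G) := by
  classical
  unfold P.MP_68237a_lc.gop2 gop
  refine .ite _ ?_ (.ite _ (hx.insert hy.singleton) (.ite _ (hx.union hy) (.ite _ (hx.sdiff hy)
    (.ite _ (hb.level hx) (.ite _ ha (.ite _ ?_ (.ite _ ?_ (.ite _ ?_ (.ite _ ?_ ?_)))))))))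
  · exact hx.sUnion.sUnion.sUnion.sep _ fun _ hz =>
      meas_udf3 (fun z x y => ∃ w, ZFSet.pair y w ∈ x ∧ z ∈ w) hz hx hy
  · exact (hy.fst.img _ fun _ hz => hx.img _ fun _ hs => (hy.snd.pair hz).insert hs).sUnion
  · exact hx.sep _ fun _ hs => meas_udf3 (fun s i j => ∃ a, ZFSet.pair i a ∈ s ∧
      ∃ b, ZFSet.pair j b ∈ s ∧ a ∈ b) hs hy.fst hy.snd
  · exact hx.sep _ fun _ hs => meas_udf3 (fun s i j => ∃ a, ZFSet.pair i a ∈ s ∧
      ZFSet.pair j a ∈ s) hs hy.fst hy.snd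
  · exact hx.sep _ fun s hs => hy.fst.toC.all
      (fun G z => Insert.insert (ZFSet.pair (Lib.Forcing.snd (Lib.Forcing.snd (y G))) z) (s G) ∈
        Lib.Forcing.fst (Lib.Forcing.snd (y G)))
      fun _ hz => meas_mem ((hy.snd.snd.pair hz).insert hs) hy.snd.fst
  · exact hx.sep _ fun _ hz => meas_mem ((hy.snd.snd.pair hz).insert hy.fst) hy.snd.fst

theorem Meas.eval {o : ℕ → ZFSet.{u}} (ho : ∀ n, Meas fun _ : X => o n) {a b : X → ZFSet.{u}}
    (ha : Meas a) (hb : Meas b) (t : Tr) : Meas fun G => t.eval o (a G) (b G) := by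
  induction t with
  | ord n => exact ho n
  | op k s t ih ih' => exact ha.gop2 hb ih ih' _

end meas

section model

variable [hM : ZFm M]

instance Tm.app {s t : Env.{u} → ZFSet.{u}} [Tm M s] [Tm M t] : Tm M (fun e => app (s e) (t e)) := by
  have := (inferInstance : Tm M s).shift
  have := (inferInstance : Tm M t).shift
  unfold P.MP_68237a_lc.app; infer_instance

theorem tm_gop2 (hpow : ∀ x ∈ M, ∃ y ∈ M, ∀ z ∈ M, z ⊆ x → z ∈ y) {b : ZFSet.{u}} (hb : b ∈ M)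
    (a s t w : Env.{u} → ZFSet.{u}) [Tm M a] [Tm M s] [Tm M t] [Tm M w] :
    Tm M (fun e => gop2 (a e) b (s e) (t e) (w e)) := by
  have h1 : ∀ (s : Env.{u} → ZFSet.{u}) [Tm M s], Tm M (fun e => level b (s e)) :=
    fun s _ => (tm_level hpow hb).apply1 s
  unfold gop2 gop; infer_instance

/-- `z` is the value of the code `γ` at the parameter `a`. -/
def Ev (M : Set ZFSet.{u}) (b a γ z : ZFSet.{u}) : Prop :=
  Gen M CAx (CStepG (gop2 a b)) (pair γ z)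

theorem df_ev (hpow : ∀ x ∈ M, ∃ y ∈ M, ∀ z ∈ M, z ⊆ x → z ∈ y) {b : ZFSet.{u}} (hb : b ∈ M)
    (a s t : Env.{u} → ZFSet.{u}) [Tm M a] [Tm M s] [Tm M t] :
    Df M (fun e => Ev M b (a e) (s e) (t e)) := by
  have h2 := tm_gop2 hpow hb
  have h3 := @df_gen M _ (fun _ => CAx) (fun a => CStepG (gop2 a b))
    (by unfold CAx; infer_instance) (by unfold CStepG; infer_instance)
  exact Df.subst2 (R := fun z a => Gen M CAx (CStepG (gop2 a b)) z) h3
    (fun e => pair (s e) (t e)) a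

theorem ev_eval (hpow : ∀ x ∈ M, ∃ y ∈ M, ∀ z ∈ M, z ⊆ x → z ∈ y) {a b : ZFSet.{u}} (ha : a ∈ M)
    (hb : b ∈ M) {o : ℕ → ZFSet.{u}} (ho : ∀ n, o n ∈ M ∧ (o n).IsOrdinal) (t : Tr) :
    Ev M b a (t.code o) (t.eval o a b) := by
  induction t with
  | ord n =>
    exact .ax (pair_mem (tm_gp.mem1 (pair_mem Trans.empty (ho n).1)) (ho n).1)
      ⟨_, _, rfl, (ho n).2, rfl⟩
  | op k s t hx hy =>
    have := InM.mk ha
    have := InM.mk (fst_mem_of_pair_mem hx.mem)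
    have := InM.mk (snd_mem_of_pair_mem hx.mem)
    have := InM.mk (fst_mem_of_pair_mem hy.mem)
    have := InM.mk (snd_mem_of_pair_mem hy.mem)
    have h2 := tm_gop2 hpow hb
    exact .step (inferInstance : Tm M (fun _ => pair (gp (pair (nat (k + 1))
      (gp (pair (s.code o) (t.code o))))) (gop2 a b (nat (k + 1)) (s.eval o a b)
        (t.eval o a b)))).mem' hx hy ⟨_, _, rfl, _, _, rfl, _, nat_mem_omega _,
        fun h => by simpa using (nat_inj (n := 0)).1 h, rfl⟩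

theorem tm_tc : Tm M (fun e => tc (e 0)) := by
  refine mem_recursion tc (fun x f z => z = x ∪ ⋃₀ (⋃₀ ⋃₀ f).sep fun w => ∃ y ∈ x, pair y w ∈ f) ?_
  intro x hx f hf H
  have h1 : tc x = x ∪ ⋃₀ (⋃₀ ⋃₀ f).sep fun w => ∃ y ∈ x, pair y w ∈ f := by
    ext z
    simp only [mem_tc (x := x), mem_union, mem_sUnion, mem_sep]
    refine or_congr_right ⟨?_, ?_⟩
    · rintro ⟨y, hy, hz⟩
      have h3 := (H y hy _).2 rfl
      exact ⟨_, ⟨⟨{y, tc y}, ⟨_, h3, mem_pair.2 (Or.inr rfl)⟩, mem_pair.2 (Or.inr rfl)⟩,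
        y, hy, h3⟩, hz⟩
    · rintro ⟨w, ⟨-, y, hy, h2⟩, hz⟩
      exact ⟨y, hy, (H y hy w).1 h2 ▸ hz⟩
  have := InM.mk hx
  have := InM.mk hf
  exact ⟨h1 ▸ union_mem hx (sUnion_mem (sep_mem _ (sUnion_mem (sUnion_mem hf)))),
    fun z _ => by rw [h1]⟩

omit hM in
/-- A class that contains the base and the ordinals and is closed under the operations contains
the whole hierarchy. -/
theorem constr_subset_of_closed [Trans M] (hn : ∀ n, nat n ∈ M) {b : ZFSet.{u}}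
    {C : Set ZFSet.{u}} (c0 : ∀ α ∈ M, α.IsOrdinal → α ∈ C)
    (cs : ∀ k, k ≠ 4 → ∀ x ∈ C, ∀ y ∈ C, gop ∅ b (nat (k + 1)) x y ∈ C)
    (cb : (∀ x ∈ C, ∀ y ∈ C, ({x, y} : ZFSet.{u}) ∈ C) → (∀ x ∈ C, ∀ y ∈ C, x ∪ y ∈ C) →
      ∀ x ∈ b, x ∈ C) : constr M b ⊆ C := by
  have cn : ∀ n, nat n ∈ C := fun n => c0 _ (hn n) (isOrdinal_nat n)
  have c1 : ∀ x ∈ C, ∀ y ∈ C, ({x, y} : ZFSet.{u}) ∈ C := fun x hx y hy => by
    simpa [gop] using cs 0 (by decide) x hx y hy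
  have c2 : ∀ x ∈ C, ∀ y ∈ C, x ∪ y ∈ C := fun x hx y hy => by
    simpa [gop, nat_inj] using cs 1 (by decide) x hx y hy
  have c3 : ∀ x ∈ C, ∀ y ∈ C, x \ y ∈ C := fun x hx y hy => by
    simpa [gop, nat_inj] using cs 2 (by decide) x hx y hy
  have c4 : ∀ x ∈ C, level b x ∈ C := fun x hx => by
    simpa [gop, nat_inj] using cs 3 (by decide) x hx x hx
  have c1' : ∀ x ∈ C, ({x} : ZFSet.{u}) ∈ C := fun x hx => by simpa using c1 x hx x hx
  have cp : ∀ x ∈ C, ∀ y ∈ C, pair x y ∈ C := fun x hx y hy => c1 _ (c1' x hx) _ (c1 x hx y hy)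
  have c6 : ∀ x ∈ C, ∀ y ∈ C, ∀ z ∈ C, opExt x y z ∈ C := fun x hx y hy z hz => by
    simpa [gop, nat_inj] using cs 5 (by decide) x hx _ (cp y hy z hz)
  have c7 : ∀ x ∈ C, ∀ y ∈ C, ∀ z ∈ C, opMem x y z ∈ C := fun x hx y hy z hz => by
    simpa [gop, nat_inj] using cs 6 (by decide) x hx _ (cp y hy z hz)
  have c8 : ∀ x ∈ C, ∀ y ∈ C, ∀ z ∈ C, opEq x y z ∈ C := fun x hx y hy z hz => by
    simpa [gop, nat_inj] using cs 7 (by decide) x hx _ (cp y hy z hz)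
  have c9 : ∀ x ∈ C, ∀ y ∈ C, ∀ z ∈ C, ∀ w ∈ C, opAll x y z w ∈ C :=
    fun x hx y hy z hz w hw => by
      simpa [gop, nat_inj] using cs 8 (by decide) x hx _ (cp y hy _ (cp z hz w hw))
  have c10 : ∀ x ∈ C, ∀ y ∈ C, ∀ z ∈ C, ∀ w ∈ C, opSec x y z w ∈ C :=
    fun x hx y hy z hz w hw => by
      simpa [gop, nat_inj] using cs 9 (by decide) x hx _ (cp y hy _ (cp z hz w hw))
  have ct : ∀ X ∈ C, ∀ n, tups X n ∈ C := by
    intro X hX n
    induction n with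
    | zero => exact c1' _ (cn 0)
    | succ n ih => exact c6 _ ih _ hX _ (cn n)
  have cd : ∀ X ∈ C, ∀ n R, Der X n R → R ∈ C := by
    intro X hX n R h
    induction h with
    | zero => exact c1' _ (cn 0)
    | succ _ _ => exact ct X hX _
    | mem _ _ _ _ => exact c7 _ (ct X hX _) _ (cn _) _ (cn _)
    | eq _ _ _ _ => exact c8 _ (ct X hX _) _ (cn _) _ (cn _)
    | diff _ _ ih1 ih2 => exact c3 _ ih1 _ ih2
    | all _ _ _ ih => exact c9 _ (ct X hX _) _ hX _ ih _ (cn _)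
  have cu : ∀ n (e : Env.{u}), (∀ i, e i ∈ C) → tup n e ∈ C := by
    intro n
    induction n with
    | zero => exact fun _ _ => cn 0
    | succ n ih =>
      intro e he
      rw [tup, ZFSet.insert_eq]
      exact c2 _ (c1' _ (cp _ (cn n) _ (he 0))) _ (ih _ fun _ => he _)
  have cl : ∀ α : ZFSet.{u}, α ∈ M → α.IsOrdinal → ∀ x ∈ level b α, x ∈ C := by
    intro α
    induction α using ZFSet.inductionOn with
    | h α ih =>
      intro hα ho x hx
      rcases mem_level.1 hx with h | ⟨β, hβ, h⟩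
      · exact cb c1 c2 x h
      · obtain ⟨hX, n, R, h5, s, hs, rfl⟩ := mem_defPow_iff.1 h
        obtain ⟨e, he, rfl⟩ := (mem_tups hX).1 hs
        have h6 := c4 β (c0 β (mem_of_mem hα hβ) (ho.mem hβ))
        exact c10 _ h6 _ (cu n e fun i => ih β hβ (mem_of_mem hα hβ) (ho.mem hβ) _ (he i)) _
          (cd _ h6 _ _ h5) _ (cn n)
  rintro x ⟨α, hα, ho, hx⟩
  exact cl α hα ho x hx

end model

end Pool.Agent.P.MP_68237a_lc
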