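import Pool.Agent.P.MP_68237a_lc.Space
import Pool.Agent.P.MP_68237a_lc.Ctm2
import Pool.Agent.P.MP_68237a_lc.Terms

/-!
The model: the constructible closure of a generic labelled structure.
-/

universe u

set_option synthInstance.maxSize 16384

namespace Pool.Agent.P.MP_68237a_lc

open ZFSet Pool.Agent.Lib.Forcing Filter

def lab (lb : ℕ → ℕ → Bool) (t : ℕ) : ZFSet.{u} := omega.sep fun z => ∃ k, z = nat k ∧ lb t k = true

noncomputable def Sig (y : Raw) : ZFSet.{u} :=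
  range fun p : ℕ × ℕ => pair (pair (lab y.2 p.1) (lab y.2 p.2)) (nat (y.1 p.1 p.2))

noncomputable def asg (lb : ℕ → ℕ → Bool) (I : Finset ℕ) (U : ℕ → ℕ) : ZFSet.{u} :=
  range fun i : I => pair (nat i) (lab lb (U i))

def prm (S Γ w : ZFSet.{u}) : ZFSet.{u} := {pair (nat 0) S, pair (nat 1) Γ, pair (nat 2) w}

noncomputable def bas (Γ : ZFSet.{u}) (y : Raw) : ZFSet.{u} := tc {∅, Sig y, Γ}

noncomputable def valR (o : ℕ → ZFSet.{u}) (Γ : ZFSet.{u}) (y : Raw) (t : Tr) (I : Finset ℕ)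
    (U : ℕ → ℕ) : ZFSet.{u} := t.eval o (prm (Sig y) Γ (asg y.2 I U)) (bas Γ y)

theorem mem_lab {lb : ℕ → ℕ → Bool} {t : ℕ} {z : ZFSet.{u}} :
    z ∈ lab lb t ↔ ∃ k, z = nat k ∧ lb t k = true :=
  mem_sep.trans ⟨fun h => h.2, fun ⟨k, a, b⟩ => ⟨a ▸ nat_mem_omega k, k, a, b⟩⟩

theorem nat_mem_lab {lb : ℕ → ℕ → Bool} {t k : ℕ} : nat.{u} k ∈ lab lb t ↔ lb t k = true := by
  simp [mem_lab, nat_inj]

theorem mem_Sig {y : Raw} {z : ZFSet.{u}} :
    z ∈ Sig y ↔ ∃ s t, pair (pair (lab y.2 s) (lab y.2 t)) (nat (y.1 s t)) = z := by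
  simp [Sig]

theorem mem_asg {lb : ℕ → ℕ → Bool} {I : Finset ℕ} {U : ℕ → ℕ} {z : ZFSet.{u}} :
    z ∈ asg lb I U ↔ ∃ i ∈ I, pair (nat i) (lab lb (U i)) = z := by
  simp [asg]

theorem asg_congr {lb : ℕ → ℕ → Bool} {I : Finset ℕ} {U U' : ℕ → ℕ} (h : ∀ i ∈ I, U i = U' i) :
    asg.{u} lb I U = asg lb I U' := by
  ext z
  simp only [mem_asg]
  exact exists_congr fun i => and_congr_right fun hi => by rw [h i hi]

theorem finite_asg (lb : ℕ → ℕ → Bool) (I : Finset ℕ) (U : ℕ → ℕ) :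
    (asg.{u} lb I U : Set ZFSet.{u}).Finite := by
  rw [asg, coe_range]; exact Set.finite_range _

theorem valR_congr {o : ℕ → ZFSet.{u}} {Γ : ZFSet.{u}} {y : Raw} {t : Tr} {I : Finset ℕ}
    {U U' : ℕ → ℕ} (h : ∀ i ∈ I, U i = U' i) : valR o Γ y t I U = valR o Γ y t I U' := by
  rw [valR, valR, asg_congr h]

theorem app_prm (S Γ w : ZFSet.{u}) : app (prm S Γ w) (nat 0) = S ∧ app (prm S Γ w) (nat 1) = Γ ∧
    app (prm S Γ w) (nat 2) = w := by
  refine ⟨app_eq ?_ ?_, app_eq ?_ ?_, app_eq ?_ ?_⟩ <;> simp [prm, nat_inj]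

theorem app_asg {lb : ℕ → ℕ → Bool} {I : Finset ℕ} {U : ℕ → ℕ} {i : ℕ} (hi : i ∈ I) :
    app (asg.{u} lb I U) (nat i) = lab lb (U i) :=
  app_eq (mem_asg.2 ⟨i, hi, rfl⟩) fun w hw => by
    obtain ⟨j, -, h⟩ := mem_asg.1 hw
    obtain ⟨a, rfl⟩ := pair_inj.1 h
    rw [nat_inj.1 a]

theorem eval_app (o : ℕ → ZFSet.{u}) (a b : ZFSet.{u}) (s t : Tr) :
    (Tr.op 10 s t).eval o a b = app (s.eval o a b) (t.eval o a b) := if_pos rfl

theorem eval_par (o : ℕ → ZFSet.{u}) (a b : ZFSet.{u}) (s t : Tr) :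
    (Tr.op 4 s t).eval o a b = a := by
  simp [Tr.eval, gop2, gop, nat_inj]

instance trans_bas (Γ : ZFSet.{u}) (y : Raw) : Lib.Forcing.Trans (bas Γ y : Set ZFSet.{u}) :=
  ⟨tc_trans _, mem_tc.2 (Or.inl (mem_insert _ _))⟩

theorem Sig_act {A : Amalg} (π : Equiv.Perm ℕ) (x : Sp A) : Sig.{u} (act π x).1 = Sig x.1 := by
  ext z
  simp only [mem_Sig]
  exact ⟨fun ⟨s, t, h⟩ => ⟨π s, π t, h⟩, fun ⟨s, t, h⟩ => ⟨π.symm s, π.symm t, by
    rw [← h, ← π.apply_symm_apply s, ← π.apply_symm_apply t, π.symm_apply_apply,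
      π.symm_apply_apply]; rfl⟩⟩

theorem valR_act {A : Amalg} {o : ℕ → ZFSet.{u}} {Γ : ZFSet.{u}} (π : Equiv.Perm ℕ) (x : Sp A)
    (t : Tr) (I : Finset ℕ) (U : ℕ → ℕ) :
    valR o Γ (act π x).1 t I U = valR o Γ x.1 t I fun i => π (U i) := by
  rw [valR, valR, bas, bas, Sig_act]; rfl

section meas

variable {A : Amalg} [MeasurableSpace (Sp A)] [BorelSpace (Sp A)]

omit [BorelSpace (Sp A)] in
theorem meas_nat (k : ℕ) : Meas fun _ : Sp A => nat.{u} k :=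
  Meas.const countable_HF (fun _ hx _ hy => HF_trans hx hy) _ (HF_nat k)

theorem meas_lab (t : ℕ) : Meas fun y : Sp A => lab.{u} y.1.2 t :=
  (MeasC.iUnion fun k : ℕ => (meas_nat k).single.restrict (B := {y : Sp A | y.1.2 t k = true})
    (isOpen_iff_agree.2 fun x hx => ⟨t + k + 1, fun y hy =>
      (hy t (by omega) k (by omega)).2.symm.trans hx⟩).measurableSet).meas
    fun y z => mem_lab.trans (exists_congr fun k => by simp [and_comm])

theorem meas_Sig : Meas fun y : Sp A => Sig.{u} y.1 :=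
  (MeasC.iUnion fun p : ℕ × ℕ × ℕ => (((meas_lab p.1).pair (meas_lab p.2.1)).pair
    (meas_nat p.2.2)).single.restrict (B := {y : Sp A | y.1.1 p.1 p.2.1 = p.2.2})
    (isOpen_iff_agree.2 fun x hx => ⟨p.1 + p.2.1 + 1, fun y hy =>
      (hy _ (by omega) _ (by omega)).1.symm.trans hx⟩).measurableSet).meas
    fun y z => by simp [mem_Sig, @eq_comm _ z]

theorem meas_valR {o : ℕ → ZFSet.{u}} {Γ : ZFSet.{u}} (ho : ∀ n, Meas fun _ : Sp A => o n)
    (hΓ : Meas fun _ : Sp A => Γ) (t : Tr) (I : Finset ℕ) (U : ℕ → ℕ) :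
    Meas fun y : Sp A => valR o Γ y.1 t I U := by
  have h : Meas fun y : Sp A => asg.{u} y.1.2 I U :=
    (MeasC.iUnion fun i : I => ((meas_nat i).pair (meas_lab (U i))).single).meas
      fun y z => by simp [mem_asg, @eq_comm _ z]
  exact Meas.eval ho (((meas_nat 0).pair meas_Sig).insert (((meas_nat 1).pair hΓ).insert
    ((meas_nat 2).pair h).singleton)) (Meas.empty.insert (meas_Sig.insert hΓ.singleton)).tc t

end meas

/-- Hereditarily in `C`. -/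
def Her (C : Set ZFSet.{u}) (x : ZFSet.{u}) : Prop := x ∈ C ∧ ∀ y ∈ tc x, y ∈ C

theorem Her.intro {C : Set ZFSet.{u}} {x : ZFSet.{u}} (h : x ∈ C) (h' : ∀ y ∈ x, Her C y) :
    Her C x :=
  ⟨h, fun y hy => (mem_tc.1 hy).elim (fun a => (h' y a).1) fun ⟨z, a, b⟩ => (h' z a).2 y b⟩

theorem names_constr {M : Set ZFSet.{u}} [Lib.Forcing.Trans M] (hn : ∀ n, nat n ∈ M)
    {o : ℕ → ZFSet.{u}} (ho : ∀ α ∈ M, α.IsOrdinal → ∃ n, o n = α) {Γ : ZFSet.{u}} (hΓ : Γ ⊆ HF)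
    (y : Raw) : ∀ z ∈ constr M (bas Γ y), ∃ S : Finset ℕ, ∀ (I : Finset ℕ) (U : ℕ → ℕ),
      (∀ s ∈ S, ∃ i ∈ I, U i = s) → ∃ t, valR o Γ y t I U = z := by
  choose ν hν using fun n => ho _ (hn n) (isOrdinal_nat n)
  let C : Set ZFSet.{u} := {z | ∃ S : Finset ℕ, ∀ (I : Finset ℕ) (U : ℕ → ℕ),
      (∀ s ∈ S, ∃ i ∈ I, U i = s) → ∃ t, valR o Γ y t I U = z}
  have c0 : ∀ α ∈ M, α.IsOrdinal → α ∈ C := fun α hα h => by
    obtain ⟨n, rfl⟩ := ho α hα h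
    exact ⟨∅, fun _ _ _ => ⟨.ord n, rfl⟩⟩
  have cn : ∀ n, nat n ∈ C := fun n => c0 _ (hn n) (isOrdinal_nat n)
  refine constr_subset_of_closed hn (C := C) c0 ?_ fun c1 c2 => ?_
  · rintro k hk _ ⟨S1, h1⟩ _ ⟨S2, h2⟩
    refine ⟨S1 ∪ S2, fun I U h => ?_⟩
    obtain ⟨t1, rfl⟩ := h1 I U fun s hs => h s (Finset.mem_union_left _ hs)
    obtain ⟨t2, rfl⟩ := h2 I U fun s hs => h s (Finset.mem_union_right _ hs)
    refine ⟨.op (min k 9) t1 t2, ?_⟩
    by_cases h9 : k ≤ 9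
    · rw [min_eq_left h9]
      simp only [valR, Tr.eval, gop2, gop, nat_inj]
      rw [if_neg (by omega), if_neg (show ¬ k + 1 = 5 by omega),
        if_neg (show ¬ k + 1 = 5 by omega)]
    · obtain ⟨k, rfl⟩ : ∃ j, k = j + 10 := ⟨k - 10, by omega⟩
      simp [valR, Tr.eval, gop2, gop, nat_inj]
  have cf : ∀ x : ZFSet.{u}, (x : Set ZFSet.{u}).Finite → (∀ y ∈ x, Her C y) → Her C x :=
    fun x hx h => .intro (finite_ind (C := (· ∈ C)) (D := (· ∈ C)) (cn 0) (fun a b ha hb => by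
      rw [ZFSet.insert_eq]; exact c2 _ (by simpa using c1 a ha a ha) _ hb) hx
      fun y hy => (h y hy).1) h
  have ch : ∀ x : ZFSet.{u}, x ∈ HF → Her C x := fun x => by
    induction x using ZFSet.inductionOn with
    | h x ih => exact fun hx => cf x (finite_of_HF hx) fun y hy => ih y hy (HF_trans hx hy)
  have c3 : ∀ x y, Her C x → Her C y → Her C {x, y} := fun x y a b =>
    cf _ (by simp) fun z hz => (mem_pair.1 hz).elim (· ▸ a) (· ▸ b)
  have cp : ∀ x y, Her C x → Her C y → Her C (pair x y) := fun x y a b =>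
    c3 _ _ (by simpa using c3 x x a a) (c3 x y a b)
  have ca : ∀ k I U, valR o Γ y (.op 10 (.op 4 (.ord 0) (.ord 0)) (.ord (ν k))) I U =
      app (prm (Sig y) Γ (asg y.2 I U)) (nat k) := fun k I U => by
    rw [valR, eval_app, eval_par, Tr.eval, hν]
  have cl : ∀ t, Her C (lab y.2 t) := fun t => by
    refine .intro ⟨{t}, fun I U h => ?_⟩ fun z hz => ?_
    · obtain ⟨i, hi, rfl⟩ := h t (Finset.mem_singleton_self t)
      refine ⟨.op 10 (.op 10 (.op 4 (.ord 0) (.ord 0)) (.ord (ν 2))) (.ord (ν i)), ?_⟩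
      rw [← app_asg hi, ← (app_prm (Sig y) Γ (asg y.2 I U)).2.2, ← ca, ← hν]
      exact eval_app _ _ _ _ _
    · obtain ⟨k, rfl, -⟩ := mem_lab.1 hz
      exact ch _ (HF_nat k)
  refine (cf _ (by simp) fun z hz => ?_).2
  rcases mem_insert_iff.1 hz with rfl | hz
  · exact ch _ HF_empty
  rcases mem_pair.1 hz with rfl | rfl
  · refine .intro ⟨∅, fun I U _ => ⟨_, (ca 0 I U).trans (app_prm _ _ _).1⟩⟩ fun z hz => ?_
    obtain ⟨s, t, rfl⟩ := mem_Sig.1 hz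
    exact cp _ _ (cp _ _ (cl s) (cl t)) (ch _ (HF_nat _))
  · exact .intro ⟨∅, fun I U _ => ⟨_, (ca 1 I U).trans (app_prm _ _ _).2.1⟩⟩
      fun w hw => ch _ (hΓ hw)

/-- `f` names a set from the atoms `U s`, `s ∈ K`. -/
def Nm (o : ℕ → ZFSet.{u}) (Γ : ZFSet.{u}) (y : Raw) (K : Finset ℕ) (f : (ℕ → ℕ) → ZFSet.{u}) :
    Prop :=
  ∃ (t : Tr) (I : Finset ℕ) (ι : ℕ → ℕ), (∀ i ∈ I, ι i ∈ K) ∧
    ∀ U, f U = valR o Γ y t I fun i => U (ι i)

/-- The truth of `Φ` is preserved by small changes of the atoms `U s`, `s ∈ K`. -/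
def Cont (y : Raw) (K : Finset ℕ) (Φ : (ℕ → ℕ) → Prop) : Prop :=
  ∀ U, Set.InjOn U K → Φ U → ∃ L, ∀ U', Set.InjOn U' K →
    (∀ s ∈ K, ∀ t ∈ K, y.1 (U' s) (U' t) = y.1 (U s) (U t)) →
    (∀ s ∈ K, ∀ k < L, y.2 (U' s) k = y.2 (U s) k) → Φ U'

structure GM (A : Amalg) (Γ : ZFSet.{u}) where
  N : Set ZFSet.{u}
  y : Raw
  o : ℕ → ZFSet.{u}
  zf : IsZFModel N
  adm : ∀ D, A.Adm D y.1
  inj : ∀ s t, (∀ k, y.2 s k = y.2 t k) → s = t
  base : bas Γ y ∈ N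
  ord : ∀ n, o n ∈ N ∧ (o n).IsOrdinal
  ords : ∀ α ∈ N, α.IsOrdinal → ∃ n, o n = α
  names : ∀ z ∈ N, ∃ S : Finset ℕ, ∀ (I : Finset ℕ) (U : ℕ → ℕ),
    (∀ s ∈ S, ∃ i ∈ I, U i = s) → ∃ t, valR o Γ y t I U = z
  ext : ∀ (K K' : Finset ℕ) (U : ℕ → ℕ) q L σ, Set.InjOn U K → Ext A y.1 y.2 K K' U q L σ
  cont : ∀ (R : Env.{u} → Prop) [UDf fun _ e => R e] (K : Finset ℕ) (e : (ℕ → ℕ) → Env.{u}),
    (∀ i, Nm o Γ y K fun U => e U i) → Cont y K fun U => R (e U)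

/-- A table of hereditarily finite sets. -/
noncomputable def tab (S : ZFSet.{u} → Prop) : ZFSet.{u} := HF.sep S

theorem exists_GM (A : Amalg) {Γ : ZFSet.{u}} (hΓ : Γ ⊆ HF) : Nonempty (GM A Γ) := by
  borelize (Sp A)
  have hb := TopologicalSpace.isBasis_countableBasis (Sp A)
  obtain ⟨O, hO⟩ := (TopologicalSpace.countable_countableBasis (Sp A)).exists_eq_range (by
    obtain ⟨x⟩ : Nonempty (Sp A) := inferInstance
    obtain ⟨V, hV, -⟩ := hb.exists_subset_of_mem_open (Set.mem_univ x) isOpen_univ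
    exact ⟨V, hV⟩)
  have O1 : ∀ n, IsOpen (O n) := fun n => hb.isOpen (hO ▸ ⟨n, rfl⟩)
  have O2 : ∀ n, (O n).Nonempty := fun n =>
    TopologicalSpace.nonempty_of_mem_countableBasis (hO ▸ ⟨n, rfl⟩)
  have O3 : ∀ {x V}, x ∈ V → IsOpen V → ∃ n, x ∈ O n ∧ O n ⊆ V := fun hx hV => by
    obtain ⟨W, hW, h⟩ := hb.exists_subset_of_mem_open hx hV
    obtain ⟨n, rfl⟩ : W ∈ Set.range O := hO ▸ hW
    exact ⟨n, h⟩
  let le : ZFSet.{u} := tab fun z => ∃ m n, z = pair (nat m) (nat n) ∧ O m ⊆ O n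
  let Rl : ZFSet.{u} := tab fun z => ∃ n t k, z = pair (nat n) (pair (nat t) (nat k)) ∧
    ∀ y ∈ O n, y.1.2 t k = true
  let Rv : ZFSet.{u} := tab fun z => ∃ n s t c,
    z = pair (nat n) (pair (pair (nat s) (nat t)) (nat c)) ∧ ∀ y ∈ O n, y.1.1 s t = c
  have hle : ∀ z, z ∈ le ↔ ∃ m n, z = pair (nat m) (nat n) ∧ O m ⊆ O n := fun z =>
    mem_sep.trans (and_iff_right_of_imp fun ⟨m, n, h, _⟩ => h ▸ HF_pair (HF_nat m) (HF_nat n))
  have hle' : ∀ m n, pair (nat m) (nat n) ∈ le ↔ O m ⊆ O n := fun m n => by simp [hle, nat_inj]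
  have hP : IsForcing omega le := by
    refine ⟨fun z hz => ?_, fun p hp => ?_, fun p q r a b => ?_⟩
    · obtain ⟨m, n, rfl, -⟩ := (hle z).1 hz
      exact pair_mem_prod.2 ⟨nat_mem_omega m, nat_mem_omega n⟩
    · obtain ⟨n, rfl⟩ := mem_omega_iff.1 hp
      exact (hle' n n).2 subset_rfl
    · obtain ⟨m, n, h, a'⟩ := (hle _).1 a
      obtain ⟨rfl, rfl⟩ := pair_inj.1 h
      obtain ⟨n', k, h', b'⟩ := (hle _).1 b
      obtain ⟨h'', rfl⟩ := pair_inj.1 h'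
      exact (hle' _ _).2 (a'.trans (nat_inj.1 h'' ▸ b'))
  obtain ⟨M, hc, hM, hT⟩ := exists_ctm_of_base (T := (HF : Set ZFSet.{u}) ∪ {Γ, le, Rl, Rv})
    (countable_HF.union (Set.toFinite _).countable) (by
      rintro x (hx | rfl | rfl | rfl | rfl) y hy
      exacts [Or.inl (HF_trans hx hy), Or.inl (hΓ hy), Or.inl (mem_sep.1 hy).1,
        Or.inl (mem_sep.1 hy).1, Or.inl (mem_sep.1 hy).1])
  have := hM.zfm
  have hΓM : Γ ∈ M := hT (Or.inr (by simp))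
  have hleM : le ∈ M := hT (Or.inr (by simp))
  obtain ⟨o, ho⟩ := (hc.mono (Set.sep_subset M IsOrdinal)).exists_eq_range
    ⟨∅, Trans.empty, isOrdinal_empty⟩
  have ho1 : ∀ n, o n ∈ M ∧ (o n).IsOrdinal := fun n => (Set.ext_iff.1 ho _).2 ⟨n, rfl⟩
  have ho2 : ∀ α ∈ M, α.IsOrdinal → ∃ n, o n = α := fun α a b => (Set.ext_iff.1 ho _).1 ⟨a, b⟩
  let H : Sp A → ZFSet.{u} := fun x => omega.sep fun z => ∃ n, z = nat n ∧ x ∈ O n
  have hH : ∀ x z, z ∈ H x ↔ ∃ n, z = nat n ∧ x ∈ O n := fun x z =>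
    mem_sep.trans (and_iff_right_of_imp fun ⟨n, h, _⟩ => h ▸ nat_mem_omega n)
  have r1 : ∀ᶠ x in residual (Sp A), ∀ D ∈ M, D ⊆ omega →
      (∀ p ∈ omega, ∃ q ∈ D, pair q p ∈ le) → ∃ q ∈ D, q ∈ H x := by
    refine (eventually_countable_ball hc).2 fun D _ => ?_
    by_cases hD : ∀ p ∈ omega, ∃ q ∈ D, pair q p ∈ le
    swap
    · exact .of_forall fun _ _ h => (hD h).elim
    refine mem_of_superset (residual_of_dense_open (s := ⋃ n, ⋃ _ : nat n ∈ D, O n)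
      (isOpen_iUnion fun n => isOpen_iUnion fun _ => O1 n) (dense_iff_inter_open.2 ?_)) ?_
    · rintro V hV ⟨x, hx⟩
      obtain ⟨n, -, hn⟩ := O3 hx hV
      obtain ⟨q, hq, h⟩ := hD _ (nat_mem_omega n)
      obtain ⟨m, n', e, h'⟩ := (hle _).1 h
      obtain ⟨rfl, e'⟩ := pair_inj.1 e
      obtain ⟨y, hy⟩ := O2 m
      exact ⟨y, hn (nat_inj.1 e' ▸ h' hy), Set.mem_iUnion₂.2 ⟨m, hq, hy⟩⟩
    · intro x hx _ _
      obtain ⟨n, a, b⟩ := Set.mem_iUnion₂.1 hx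
      exact ⟨_, a, (hH _ _).2 ⟨n, rfl, b⟩⟩
  obtain ⟨P, hPe⟩ := exists_perms
  obtain ⟨e1, he1⟩ := exists_enum ℕ
  obtain ⟨e2, he2⟩ := exists_enum Bool
  let env : List (Tr × Finset ℕ × ℕ) → Sp A → Env.{u} := fun l y i =>
    valR o Γ y.1 (l.getD i (.ord 0, ∅, 0)).1 (l.getD i (.ord 0, ∅, 0)).2.1
      fun s => e1 (l.getD i (.ord 0, ∅, 0)).2.2 s 0
  choose! C hC hC' using fun (p : Fml × List (Tr × Finset ℕ × ℕ))
    (h : MeasurableSet {y | Sat Set.univ p.1 (env p.2 y)}) => exists_decided h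
  have r2 : ∀ᶠ x in residual (Sp A), ∀ c, (∀ K K' c1 L c2,
      Ext A (act (P c) x).1.1 (act (P c) x).1.2 K K' id (e1 c1) L (e2 c2)) ∧
      ∀ p : Fml × List (Tr × Finset ℕ × ℕ),
        MeasurableSet {y | Sat Set.univ p.1 (env p.2 y)} → act (P c) x ∈ C p := by
    simp only [eventually_countable_forall, eventually_and]
    exact fun c => ⟨fun K K' c1 L c2 => residual_act _ (residual_ext K K' _ L _),
      fun p h => residual_act (P c) (hC p h)⟩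
  obtain ⟨x, x1, x2, x3⟩ := (dense_of_mem_residual (r1.and (r2.and residual_inj))).nonempty
  have hG : IsGeneric M omega le (H x) := by
    refine ⟨sep_subset, fun p q a b => ?_, fun p a q b => ?_, x1⟩
    · obtain ⟨n, rfl, a'⟩ := (hH _ _).1 a
      obtain ⟨m, k, e, b'⟩ := (hle _).1 b
      obtain ⟨e', rfl⟩ := pair_inj.1 e
      exact (hH _ _).2 ⟨k, rfl, b' (nat_inj.1 e' ▸ a')⟩
    · obtain ⟨n, rfl, a'⟩ := (hH _ _).1 a
      obtain ⟨m, rfl, b'⟩ := (hH _ _).1 b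
      obtain ⟨k, c, d⟩ := O3 (Set.mem_inter a' b') ((O1 n).inter (O1 m))
      exact ⟨_, (hH _ _).2 ⟨k, rfl, c⟩, (hle' _ _).2 fun _ h => (d h).1,
        (hle' _ _).2 fun _ h => (d h).2⟩
  have hM' := hM.genericExt hP omega_mem hleM hG
  have hsub := subset_genericExt hP omega_mem hG
  have := InM.mk (generic_mem hP omega_mem hG)
  have hord := @ordinal_mem_of_genericExt M (H x) _
  generalize genericExt M (H x) = M' at *
  have := hM'.zfm
  have hS : Sig x.1 ∈ M' := by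
    have := InM.mk (hsub (hT (Or.inr (by simp : Rl ∈ _))))
    have := InM.mk (hsub (hT (Or.inr (by simp : Rv ∈ _))))
    let F : ZFSet.{u} → ZFSet.{u} := fun z => omega.sep fun k => ∃ n ∈ H x, pair n (pair z k) ∈ Rl
    have hF : ∀ t, F (nat t) = lab x.1.2 t := fun t => by
      ext z
      rw [lab, mem_sep, mem_sep]
      refine and_congr_right fun _ => ⟨?_, ?_⟩
      · rintro ⟨_, a, b⟩
        obtain ⟨n, rfl, a'⟩ := (hH _ _).1 a
        obtain ⟨n', t', k, e, b'⟩ := (mem_sep.1 b).2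
        simp only [pair_inj, nat_inj] at e
        obtain ⟨rfl, rfl, rfl⟩ := e
        exact ⟨k, rfl, b' x a'⟩
      · rintro ⟨k, rfl, h⟩
        obtain ⟨n, a, b⟩ := O3 (V := {y : Sp A | y.1.2 t k = true}) h (isOpen_iff_agree.2
          fun x hx => ⟨t + k + 1, fun y hy => (hy t (by omega) k (by omega)).2.symm.trans hx⟩)
        exact ⟨_, (hH _ _).2 ⟨n, rfl, a⟩, mem_sep.2 ⟨HF_pair (HF_nat _)
          (HF_pair (HF_nat _) (HF_nat _)), n, t, k, rfl, b⟩⟩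
    convert (inferInstance : Tm M' fun _ => img (fun q => pair (pair
      (omega.sep fun k => ∃ n ∈ H x, pair n (pair (fst (fst q)) k) ∈ Rl)
      (omega.sep fun k => ∃ n ∈ H x, pair n (pair (snd (fst q)) k) ∈ Rl)) (snd q))
      (((omega.prod omega).prod omega).sep fun q => ∃ n ∈ H x, pair n q ∈ Rv)).mem' using 1
    ext z
    rw [mem_Sig, mem_img]
    constructor
    · rintro ⟨s, t, rfl⟩
      obtain ⟨n, a, b⟩ := O3 (V := {y : Sp A | y.1.1 s t = x.1.1 s t}) rfl (isOpen_iff_agree.2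
        fun x hx => ⟨s + t + 1, fun y hy => (hy s (by omega) t (by omega)).1.symm.trans hx⟩)
      refine ⟨pair (pair (nat s) (nat t)) (nat (x.1.1 s t)), mem_sep.2 ⟨by simp [nat_mem_omega],
        _, (hH _ _).2 ⟨n, rfl, a⟩, mem_sep.2 ⟨HF_pair (HF_nat _)
          (HF_pair (HF_pair (HF_nat _) (HF_nat _)) (HF_nat _)), n, s, t, _, rfl, b⟩⟩, ?_⟩
      rw [← hF, ← hF, fst_pair, fst_pair, snd_pair, snd_pair]
    · rintro ⟨q, hq, rfl⟩
      obtain ⟨_, a, b⟩ := (mem_sep.1 hq).2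
      obtain ⟨n, rfl, a'⟩ := (hH _ _).1 a
      obtain ⟨n', s, t, c, e, b'⟩ := (mem_sep.1 b).2
      obtain ⟨e', rfl⟩ := pair_inj.1 e
      refine ⟨s, t, ?_⟩
      rw [← hF, ← hF, fst_pair, fst_pair, snd_pair, snd_pair, b' x (nat_inj.1 e' ▸ a')]
  have hbM : bas Γ x.1 ∈ M' :=
    tm_tc.mem1 (insert_mem Trans.empty (upair_mem hS (hsub hΓM)))
  have hext : ∀ (K K' : Finset ℕ) (U : ℕ → ℕ) q L σ, Set.InjOn U K →
      Ext A x.1.1 x.1.2 K K' U q L σ := by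
    intro K K' U q L σ hU h1 h2 h3
    obtain ⟨c, hc⟩ := hPe K U hU
    obtain ⟨c1, hc1⟩ := he1 (K'.sup id + 1) q
    obtain ⟨c2, hc2⟩ := he2 (K'.sup id + 1 + L) σ
    replace hc1 := fun s (hs : s ∈ K') t (ht : t ∈ K') =>
      hc1 s (lt_sup_succ hs) t (lt_sup_succ ht)
    obtain ⟨V, a, b, c', d⟩ := (x2 c).1 K K' c1 L c2 h1 (A.congr h2 subset_rfl hc1)
      fun s hs t ht => by
        rw [hc1 s (h1 hs) t (h1 ht), ← h3 s hs t ht, ← hc s hs, ← hc t ht]; rfl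
    refine ⟨fun s => P c (V s), (P c).injective.comp_injOn a, fun s hs => ?_,
      fun s hs t ht => (c' s hs t ht).trans (hc1 s hs t ht), fun s hs hs' k hk =>
        (d s hs hs' k hk).trans (hc2 s ?_ k (by omega))⟩
    · rw [← hc s hs]; exact congrArg _ (b s hs)
    · have := lt_sup_succ hs; omega
  refine ⟨⟨constr M' (bas Γ x.1), x.1, o, isZFModel_constr hM'.powerSet hbM, x.2, x3,
    base_mem_constr, fun n => ⟨ordinal_mem_constr hM'.powerSet hbM (hsub (ho1 n).1) (ho1 n).2,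
      (ho1 n).2⟩, fun α a b => ho2 α (hord (constr_subset hM'.powerSet hbM a) b) b,
    names_constr nat_mem (fun α a b => ho2 α (hord a b) b) hΓ _, hext, ?_⟩⟩
  intro R hR K e he U hU hΦ
  obtain ⟨φ, hφ⟩ := hR.out
  replace hφ := fun e => hφ Set.univ inferInstance e fun _ => trivial
  obtain ⟨n, hn⟩ := sat_finite (Set.univ : Set ZFSet.{u}) φ
  choose t I ι h1 h2 using he
  choose d hd using fun i => he1 ((I i).sup id + 1) fun s _ => ι i s
  let l := List.ofFn fun i : Fin n => (t i, I i, d i)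
  have key : ∀ c U', (∀ s ∈ K, P c s = U' s) →
      (Sat Set.univ φ (env l (act (P c) x)) ↔ R (e U')) := fun c U' h => by
    rw [hφ]
    refine hn _ _ fun i hi => ?_
    have : l.getD i (.ord 0, ∅, 0) = (t i, I i, d i) := by simp [l, hi]
    simp only [env, this, valR_act, h2]
    exact valR_congr fun s hs => by
      rw [hd i s (lt_sup_succ hs) 0 (Nat.succ_pos _), h _ (h1 i s hs)]
  have hm : MeasurableSet {y | Sat Set.univ φ (env l y)} := by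
    simp only [← hφ]
    have hc' := fun z => Meas.const (X := Sp A) hc hM.transitive z
    exact meas_udf R _ fun i => meas_valR (fun n => hc' _ (ho1 n).1) (hc' _ hΓM) _ _ _
  obtain ⟨c, hc⟩ := hPe K U hU
  obtain ⟨L, hL⟩ := hC' (φ, l) hm _ ((x2 c).2 _ hm)
  refine ⟨L, fun U' a b b' => ?_⟩
  obtain ⟨V, v1, v2, v3, v4⟩ := hext K (K ∪ Finset.range L) U' (act (P c) x).1.1 L
    (act (P c) x).1.2 a Finset.subset_union_left ((act (P c) x).2 _) fun s hs t ht => by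
      rw [b s hs t ht, ← hc s hs, ← hc t ht]; rfl
  obtain ⟨c', hc'⟩ := hPe _ V v1
  refine (key c' U' fun s hs => (hc' s (Finset.mem_union_left _ hs)).trans (v2 s hs)).1
    ((hL _ ((x2 c').2 _ hm) fun s hs t ht => ?_).1 ((key c U hc).2 hΦ))
  have m : ∀ s < L, s ∈ K ∪ Finset.range L := fun s hs =>
    Finset.mem_union_right _ (Finset.mem_range.2 hs)
  refine ⟨?_, ?_⟩
  · rw [← v3 s (m s hs) t (m t ht), ← hc' s (m s hs), ← hc' t (m t ht)]; rfl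
  · change x.1.2 (P c s) t = x.1.2 (P c' s) t
    rw [hc' s (m s hs)]
    by_cases h : s ∈ K
    · rw [v2 s h, b' s h t ht, hc s h]
    · exact (v4 s (m s hs) h t ht).symm

end Pool.Agent.P.MP_68237a_lc
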