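import Pool.Agent.P.MP_68237a_lc.Names

/-!
The double independence argument: canonically placed scales are uniformly comparable at a point.
-/

universe u

set_option synthInstance.maxSize 16384

namespace Pool.Agent.P.MP_68237a_lc

open ZFSet Pool.Agent.Lib.Forcing

def Two (Z : ZFSet.{u}) (R R' : R3.{u}) (a k m : ZFSet.{u}) : Prop :=
  ∀ y ∈ Z, (R m a y → R' k a y) ∧ (R m y a → R' k y a) ∧ (R' m a y → R k a y) ∧
    (R' m y a → R k y a)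

section
variable {Z τ₁ τ₂ a : ZFSet.{u}} {R R' R₀ : R3.{u}} {k m m' m₁ m₂ : ℕ}

theorem Two.mono (h : Two Z R R' a (nat k) (nat m)) (s : Sc omega Z R) (s' : Sc omega Z R')
    (ha : a ∈ Z) (hm : m ≤ m') : Two Z R R' a (nat k) (nat m') := fun y hy =>
  ⟨fun b => (h y hy).1 (s.mono ha hy hm b), fun b => (h y hy).2.1 (s.mono hy ha hm b),
    fun b => (h y hy).2.2.1 (s'.mono ha hy hm b), fun b => (h y hy).2.2.2 (s'.mono hy ha hm b)⟩

theorem Full.two (h : Full omega Z τ₁ τ₂ R) (h' : Full omega Z τ₁ τ₂ R') (ha : a ∈ Z) (k : ℕ) :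
    ∃ m, Two Z R R' a (nat k) (nat m) := by
  obtain ⟨m1, h1⟩ := h.2.1.cof h'.2.1 ha k
  obtain ⟨m2, h2⟩ := h.2.2.cof h'.2.2 ha k
  obtain ⟨m3, h3⟩ := h'.2.1.cof h.2.1 ha k
  obtain ⟨m4, h4⟩ := h'.2.2.cof h.2.2 ha k
  exact ⟨m1 + m2 + m3 + m4, fun y hy => ⟨fun b => h1 y hy (h.1.mono ha hy (by omega) b),
    fun b => h2 y hy (h.1.mono hy ha (by omega) b), fun b => h3 y hy (h'.1.mono ha hy (by omega) b),
    fun b => h4 y hy (h'.1.mono hy ha (by omega) b)⟩⟩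

theorem Two.comp (h0 : Two Z R₀ R' a (nat k) (nat m)) (h1 : Two Z R R' a (nat (k + m)) (nat m₁))
    (h2 : Two Z R₀ R' a (nat m₁) (nat m₂)) (s : Sc omega Z R) (s' : Sc omega Z R')
    (s₀ : Sc omega Z R₀) (ha : a ∈ Z) : Two Z R R₀ a (nat k) (nat (m₁ + m₂)) := fun y hy =>
  ⟨fun b => (h0 y hy).2.2.1 (s'.mono ha hy (by omega) ((h1 y hy).1 (s.mono ha hy (by omega) b))),
    fun b => (h0 y hy).2.2.2 (s'.mono hy ha (by omega) ((h1 y hy).2.1 (s.mono hy ha (by omega) b))),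
    fun b => s.mono ha hy (by omega) ((h1 y hy).2.2.1 ((h2 y hy).1 (s₀.mono ha hy (by omega) b))),
    fun b => s.mono hy ha (by omega)
      ((h1 y hy).2.2.2 ((h2 y hy).2.1 (s₀.mono hy ha (by omega) b)))⟩

end

variable {A : Amalg} {Γ : ZFSet.{u}} {G : GM A Γ}

theorem Amalg.tg_congr {E0 D E : Finset ℕ} {w w' : ℕ → ℕ → ℕ} (h0 : E0 ⊆ D) (h : A.TG E0 D E w')
    (hw : ∀ s ∈ D ∪ E, ∀ t ∈ D ∪ E, w s t = w' s t) : A.TG E0 D E w :=
  A.tg_pull (U := id) h0 (by simpa using h) (Set.injOn_id _) hw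

theorem GM.Rz.congr {I0 I E : Finset ℕ} {q : ℕ → ℕ → ℕ} {U V V' : ℕ → ℕ} (h : G.Rz I0 I E q U V)
    (h0 : I0 ⊆ I) (e : ∀ s ∈ I ∪ E, V' s = V s) : G.Rz I0 I E q U V' :=
  have m := Finset.union_subset_union_left (t := E) h0
  ⟨h.inj.congr fun s hs => (e s hs).symm, fun s hs =>
    (e s (Finset.mem_union_left _ hs)).trans (h.eq s hs), A.tg_congr h0 h.tg
    fun s hs t ht => by rw [e s hs, e t ht], fun s hs t ht => by
      rw [e s (m hs), e t (m ht), h.tp s hs t ht]⟩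

theorem GM.key (G : GM A Γ) {I0 I E : Finset ℕ} {U : ℕ → ℕ} {q : ℕ → ℕ → ℕ} {t : Tr}
    {Z τ₁ τ₂ a : ZFSet.{u}} (hI : I0 ⊆ I) (hU : Set.InjOn U I) (hd : Disjoint I E)
    (hZ : ∃ t, G.val t I0 U = Z) (ha' : ∃ t, G.val t I U = a) (ha : a ∈ Z)
    (hq : A.Adm (I0 ∪ E) q) (hq' : Tp G.y I0 q U) {L : ℕ} {σ : ℕ → ℕ → Bool}
    (hS : ∀ V, Set.InjOn V (I0 ∪ E : Finset ℕ) → (∀ s ∈ I0, V s = U s) → Tp G.y (I0 ∪ E) q V →
      Lab G.y E L σ V → Full omega Z τ₁ τ₂ (Rel (G.val t (I0 ∪ E) V)))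
    {R : R3.{u}} (hR : Full omega Z τ₁ τ₂ R) (k : ℕ) :
    ∃ L' σ' m, Rf E L σ L' σ' ∧ ∀ V, G.Rz I0 I E q U V →
      Lab G.y E L' σ' V → Two Z (Rel (G.val t (I0 ∪ E) V)) R a (nat k) (nat m) := by
  obtain ⟨tZ, hZ⟩ := hZ
  obtain ⟨ta, ha'⟩ := ha'
  obtain ⟨W, -, w1, -, w2, -⟩ := G.real hI hI hU hU (fun _ _ => rfl) hd hd hq hq' L σ
  set B := (I ∪ E).sup id + 1
  have hB : ∀ s ∈ I ∪ E, s < B := fun s hs => lt_sup_succ hs
  have m0 := Finset.union_subset_union_left (t := E) hI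
  have m1 : I0 ⊆ I ∪ E := hI.trans Finset.subset_union_left
  let F := E.image (· + B)
  let ι : ℕ → ℕ := fun s => if s ∈ E then s + B else s
  let κ : ℕ → ℕ := fun s => if s < B then s else s - B
  have i0 : ∀ s ∈ I0, ι s = s := fun s hs => if_neg (Finset.disjoint_left.1 hd (hI hs))
  have k0 : ∀ s ∈ I0, κ s = s := fun s hs => if_pos (hB s (m1 hs))
  have i1 : ∀ s ∈ I0 ∪ E, κ (ι s) = s ∧ ι s ∈ I0 ∪ F := fun s hs => by
    by_cases h : s ∈ E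
    · exact ⟨by simp [ι, κ, h], by simp [ι, F, h]⟩
    · have := (Finset.mem_union.1 hs).resolve_right h
      rw [i0 s this]
      exact ⟨k0 s this, Finset.mem_union_left _ this⟩
  have i2 : ∀ s ∈ I0 ∪ F, ι (κ s) = s ∧ κ s ∈ I0 ∪ E := fun s hs => by
    rcases Finset.mem_union.1 hs with h | h
    · rw [k0 s h]; exact ⟨i0 s h, Finset.mem_union_left _ h⟩
    · obtain ⟨s, h', rfl⟩ := Finset.mem_image.1 h
      simp [ι, κ, h']
  have dF : Disjoint (I ∪ E) F := Finset.disjoint_left.2 fun s hs hs' => by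
    obtain ⟨t, -, rfl⟩ := Finset.mem_image.1 hs'
    have := hB _ hs; omega
  let q2 : ℕ → ℕ → ℕ := fun s t => q (κ s) (κ t)
  have hq2 : A.Adm (I0 ∪ F) q2 := A.pull (U := κ) hq
    (fun s hs t ht e => by rw [← (i2 s hs).1, e, (i2 t ht).1]) (fun s hs => (i2 s hs).2)
    fun _ _ _ _ => rfl
  have F1 : ∀ V, G.Rz I0 I E q U V → Lab G.y E L σ V →
      Full omega Z τ₁ τ₂ (Rel (G.val t (I0 ∪ E) V)) := fun V b c =>
    hS V (b.inj.mono (Finset.coe_subset.2 m0)) (fun s hs => b.eq s (hI hs)) b.tp c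
  have F2 : ∀ V V', G.Rz I0 I E q U V → G.Rz I0 (I ∪ E) F q2 V V' →
      Lab G.y F L (fun s => σ (κ s)) V' →
      Full omega Z τ₁ τ₂ (Rel (G.val t (I0 ∪ E) fun s => V' (ι s))) := fun V V' b c d => by
    refine hS _ (fun s hs t ht e => ?_) (fun s hs => ?_) (fun s hs t ht => ?_) fun s hs k hk => ?_
    · rw [← (i1 s hs).1, c.inj (Finset.union_subset_union_left m1 (i1 s hs).2)
        (Finset.union_subset_union_left m1 (i1 t ht).2) e, (i1 t ht).1]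
    · rw [i0 s hs, c.eq s (m1 hs), b.eq s (hI hs)]
    · simpa only [q2, (i1 s hs).1, (i1 t ht).1] using c.tp _ (i1 s hs).2 _ (i1 t ht).2
    · have := d (ι s) (by simp [ι, F, hs]) k hk
      simpa only [(i1 s (Finset.mem_union_right _ hs)).1] using this
  let Φ : ℕ → ℕ → (ℕ → ℕ) → Prop := fun k m V => Two (G.val tZ I0 V) (Rel (G.val t (I0 ∪ E) V))
    (Rel (G.val t (I0 ∪ E) fun s => V (ι s))) (G.val ta I V) (nat k) (nat m)
  have hc : ∀ k m, Cont G.y (I ∪ E ∪ F) (Φ k m) := fun k m =>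
    have n : I ⊆ I ∪ E ∪ F := Finset.subset_union_left.trans Finset.subset_union_left
    @GM.cont6 _ _ G (fun a b c d e f => Two a (Rel b) (Rel c) d e f)
      (by unfold Two Rel; infer_instance) _ _ _ _ _ _ _ (G.nm_val tZ (hI.trans n))
      (G.nm_val t (m0.trans Finset.subset_union_left))
      ⟨t, _, ι, fun s hs => Finset.union_subset_union_left m1 (i1 s hs).2, fun _ => rfl⟩
      (G.nm_val ta n) (G.nm_nat k _) (G.nm_nat m _)
  have hΦ : ∀ k m V V', G.Rz I0 I E q U V → G.Rz I0 (I ∪ E) F q2 V V' → (Φ k m V' ↔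
      Two Z (Rel (G.val t (I0 ∪ E) V)) (Rel (G.val t (I0 ∪ E) fun s => V' (ι s))) a (nat k)
      (nat m)) := fun k m V V' b c => by
    have e : ∀ s ∈ I, V' s = U s := fun s hs =>
      (c.eq s (Finset.mem_union_left _ hs)).trans (b.eq s hs)
    simp only [Φ, GM.val]
    rw [valR_congr e, valR_congr fun s hs => e s (hI hs), valR_congr fun s hs => c.eq s (m0 hs),
      ← hZ, ← ha']
  have SA : ∀ k L1 σ1, Rf F L (fun s => σ (κ s)) L1 σ1 → ∃ L' σ' m, Rf F L1 σ1 L' σ' ∧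
      ∀ V, G.Rz I0 (I ∪ E) F q2 W V → Lab G.y F L' σ' V → Φ k m V := by
    intro k L1 σ1 h
    obtain ⟨T, t1, t2⟩ := A.tg_fin m1 dF (fun s t => G.y.1 (W s) (W t)) q2
    refine unif (hc k) (fun V b => ⟨b.inj, b.eq⟩) (fun V b c => ?_) (fun V b c m m' d => ?_) t1
      fun V b => t2 _ b.tg (fun s hs t ht => by rw [b.eq s hs, b.eq t ht]) b.tp
    all_goals simp only [hΦ _ _ _ _ w1 b]
    exacts [(F1 W w1 w2).two (F2 W V w1 b (h.lab c)) ha k,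
      fun e => e.mono (F1 W w1 w2).1 (F2 W V w1 b (h.lab c)).1 ha d]
  obtain ⟨n0, r0⟩ := hR.two (F1 W w1 w2) ha k
  obtain ⟨L1, σ1, n1, a1, b1⟩ := SA (k + n0) L _ .refl
  have a0 : Rf E L σ L1 fun s => if s ∈ E then σ s else σ1 s :=
    ⟨a1.1, fun s hs k _ => by simp only [if_pos hs]⟩
  have a0' : Rf F L1 σ1 L1 fun s => if s ∈ E then σ s else σ1 s := ⟨le_rfl, fun s hs k _ => by
    simp only [if_neg (mt (Finset.mem_union_right I) (Finset.disjoint_right.1 dF hs))]⟩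
  obtain ⟨L2, σ2, n2, a2, b2⟩ : ∃ L' σ' m,
      Rf (E ∪ F) L1 (fun s => if s ∈ E then σ s else σ1 s) L' σ' ∧ ∀ V,
      (G.Rz I0 I E q U V ∧ G.Rz I0 (I ∪ E) F q2 V V) → Lab G.y (E ∪ F) L' σ' V →
        Φ (k + n0 + n1) m V := by
    obtain ⟨T, t1, t2⟩ := A.tg_fin hI hd (fun s t => G.y.1 (U s) (U t)) q
    choose T' t3 t4 using fun w => A.tg_fin m1 dF w q2
    have f : ∀ V, G.Rz I0 I E q U V ∧ G.Rz I0 (I ∪ E) F q2 V V →
        Lab G.y (E ∪ F) L1 (fun s => if s ∈ E then σ s else σ1 s) V →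
        Full omega Z τ₁ τ₂ (Rel (G.val t (I0 ∪ E) V)) ∧
        Full omega Z τ₁ τ₂ (Rel (G.val t (I0 ∪ E) fun s => V (ι s))) := fun V b c =>
      ⟨F1 V b.1 (a0.lab fun s hs => c s (Finset.mem_union_left _ hs)),
        F2 V V b.1 b.2 ((a1.trans a0').lab fun s hs => c s (Finset.mem_union_right _ hs))⟩
    refine unif (U0 := U) (by simpa only [Finset.union_assoc] using hc _)
      (fun V b => ⟨by simpa only [Finset.union_assoc] using b.2.inj, b.1.eq⟩) (fun V b c => ?_)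
      (fun V b c m m' d => ?_) (t1.biUnion fun w _ => t3 w) fun V b => ?_
    · simp only [hΦ _ _ _ _ b.1 b.2]
      exact (f V b c).1.two (f V b c).2 ha _
    · simp only [hΦ _ _ _ _ b.1 b.2]
      exact fun e => e.mono (f V b c).1.1 (f V b c).2.1 ha d
    · obtain ⟨w, c, d⟩ := t2 _ b.1.tg (fun s hs t ht => by rw [b.1.eq s hs, b.1.eq t ht]) b.1.tp
      obtain ⟨w', e, g⟩ := t4 w _ b.2.tg d b.2.tp
      exact ⟨w', Set.mem_biUnion c e, by rwa [← Finset.union_assoc]⟩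
  have a3 := a0'.trans (a2.mono Finset.subset_union_right)
  have a4 := a0.trans (a2.mono Finset.subset_union_left)
  obtain ⟨L3, σ3, n3, a5, b3⟩ := SA n2 L2 σ2 (a1.trans a3)
  obtain ⟨n4, r4⟩ := hR.two (F1 W w1 w2) ha (n2 + n3)
  refine ⟨L2, σ2, n2 + n3 + n4, a4, fun V v1 v2 => ?_⟩
  obtain ⟨V1, V2, c1, c2, c3, c4⟩ := G.real m1 m1 v1.inj w1.inj
    (fun s hs => (w1.eq s (hI hs)).trans (v1.eq s (hI hs)).symm) dF dF hq2 (fun s hs t ht => by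
      simp only [q2, k0 s hs, k0 t ht, v1.eq s (hI hs), v1.eq t (hI ht), hq' s hs t ht]) L3 σ3
  have c5 : Lab G.y F L3 σ3 V2 := fun s hs k hk => c4 s hs ▸ c3 s hs k hk
  have e : (G.val t (I0 ∪ E) fun s => V2 (ι s)) = G.val t (I0 ∪ E) fun s => V1 (ι s) :=
    valR_congr fun s hs => (Finset.mem_union.1 (i1 s hs).2).elim (fun h => by
      rw [c2.eq _ (m1 h), c1.eq _ (m1 h), w1.eq _ (hI h), v1.eq _ (hI h)]) (c4 _)
  have d1 := (hΦ _ _ _ _ w1 c2).1 (b1 V2 c2 ((a3.trans a5).lab c5))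
  have d3 := (hΦ _ _ _ _ w1 c2).1 (b3 V2 c2 c5)
  have d2 := (hΦ _ _ _ _ v1 c1).1 (b2 V1 ⟨v1.congr hI c1.eq, c1.inj, fun _ _ => rfl, c1.tg, c1.tp⟩
    fun s hs => (Finset.mem_union.1 hs).elim
      (fun h => c1.eq s (Finset.mem_union_right _ h) ▸ v2 s h) (a5.lab c3 s))
  have s1 := (F1 V v1 (a4.lab v2)).1
  rw [e] at d1 d3
  exact r0.comp (d1.comp d2 d3 s1 (F2 V V1 v1 c1 ((a1.trans (a3.trans a5)).lab c3)).1
    (F1 W w1 w2).1 ha) r4 s1 (F1 W w1 w2).1 hR.1 ha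

end Pool.Agent.P.MP_68237a_lc
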