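import Mathlib.MeasureTheory.MeasurableSpace.Defs
import Pool.Agent.Lib.Constructible.Choice

/-!
Sets that depend measurably on a point of a measurable space.
-/

universe u v

namespace Pool.Agent.P.MP_68237a_lc

open ZFSet Pool.Agent.Lib.Forcing

variable {X : Type} [MeasurableSpace X]

/-- Set-valued functions with a countable tree of measurable membership conditions. -/
inductive Meas : (X → ZFSet.{u}) → Prop
  | mk (x : X → ZFSet.{u}) (ι : Type) (hι : Countable ι) (y : ι → X → ZFSet.{u}) (A : ι → Set X)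
    (hy : ∀ i, Meas (y i)) (hA : ∀ i, MeasurableSet (A i))
    (h : ∀ G z, z ∈ x G ↔ ∃ i, G ∈ A i ∧ y i G = z) : Meas x

/-- The same for class-valued functions. -/
def MeasC (N : X → Set ZFSet.{u}) : Prop :=
  ∃ (ι : Type) (_ : Countable ι) (y : ι → X → ZFSet.{u}) (A : ι → Set X),
    (∀ i, Meas (y i)) ∧ (∀ i, MeasurableSet (A i)) ∧
    ∀ G z, z ∈ N G ↔ ∃ i, G ∈ A i ∧ y i G = z

theorem Meas.toC {x : X → ZFSet.{u}} (h : Meas x) : MeasC fun G => (x G : Set ZFSet.{u}) := by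
  obtain ⟨_, ι, hι, y, A, hy, hA, h⟩ := h
  exact ⟨ι, hι, y, A, hy, hA, h⟩

theorem MeasC.meas {N : X → Set ZFSet.{u}} (h : MeasC N) {x : X → ZFSet.{u}}
    (hx : ∀ G z, z ∈ x G ↔ z ∈ N G) : Meas x := by
  obtain ⟨ι, hι, y, A, hy, hA, h⟩ := h
  exact ⟨x, ι, hι, y, A, hy, hA, fun G z => (hx G z).trans (h G z)⟩

theorem MeasC.iUnion {ι : Type v} [Countable ι] {N : ι → X → Set ZFSet.{u}}
    (h : ∀ i, MeasC (N i)) : MeasC fun G => {z | ∃ i, z ∈ N i G} := by
  obtain ⟨f, hf⟩ := Countable.exists_injective_nat ι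
  choose κ hκ y A hy hA h using h
  let g : Set.range f → ι := fun n => n.2.choose
  have hg : ∀ i, g ⟨f i, i, rfl⟩ = i := fun i => hf (Exists.choose_spec (⟨i, rfl⟩ : ∃ j, f j = f i))
  refine ⟨Σ n : Set.range f, κ (g n), inferInstance, fun p => y _ p.2, fun p => A _ p.2,
    fun p => hy _ _, fun p => hA _ _, fun G z => ⟨?_, ?_⟩⟩
  · rintro ⟨i, hi⟩
    rw [← hg i] at hi
    obtain ⟨k, hk⟩ := (h _ G z).1 hi
    exact ⟨⟨_, k⟩, hk⟩
  · rintro ⟨⟨n, k⟩, hk⟩
    exact ⟨g n, (h _ G z).2 ⟨k, hk⟩⟩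

theorem MeasC.restrict {N : X → Set ZFSet.{u}} (h : MeasC N) {B : Set X} (hB : MeasurableSet B) :
    MeasC fun G => {z | G ∈ B ∧ z ∈ N G} := by
  obtain ⟨ι, hι, y, A, hy, hA, h⟩ := h
  refine ⟨ι, hι, y, fun i => B ∩ A i, hy, fun i => hB.inter (hA i), fun G z => ?_⟩
  simp only [Set.mem_setOf_eq, h, Set.mem_inter_iff, and_assoc, exists_and_left]

theorem Meas.single {y : X → ZFSet.{u}} (h : Meas y) : MeasC fun G => {z | y G = z} :=
  ⟨Unit, inferInstance, fun _ => y, fun _ => Set.univ, fun _ => h, fun _ => .univ,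
    fun G z => by simp [eq_comm]⟩

theorem MeasC.congr {N N' : X → Set ZFSet.{u}} (h : MeasC N) (e : ∀ G z, z ∈ N' G ↔ z ∈ N G) :
    MeasC N' := by
  rwa [show N' = N from funext fun G => Set.ext (e G)]

theorem MeasC.union {N N' : X → Set ZFSet.{u}} (h : MeasC N) (h' : MeasC N') :
    MeasC fun G => {z | z ∈ N G ∨ z ∈ N' G} :=
  (MeasC.iUnion (ι := Bool) (N := fun b => cond b N N') fun b => by cases b <;> assumption).congr
    fun G z => by simp [or_comm]

theorem MeasC.bind {N : X → Set ZFSet.{u}} (h : MeasC N) (K : X → ZFSet.{u} → Set ZFSet.{u})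
    (hK : ∀ y, Meas y → MeasC fun G => K G (y G)) :
    MeasC fun G => {z | ∃ w ∈ N G, z ∈ K G w} := by
  obtain ⟨ι, hι, y, A, hy, hA, h⟩ := h
  refine (MeasC.iUnion fun i => (hK _ (hy i)).restrict (hA i)).congr fun G z => ?_
  simp only [Set.mem_setOf_eq, h]
  exact ⟨fun ⟨_, ⟨i, a, rfl⟩, b⟩ => ⟨i, a, b⟩, fun ⟨i, a, b⟩ => ⟨_, ⟨i, a, rfl⟩, b⟩⟩

theorem MeasC.all {N : X → Set ZFSet.{u}} (h : MeasC N) (R : X → ZFSet.{u} → Prop)
    (hR : ∀ y, Meas y → MeasurableSet {G | R G (y G)}) :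
    MeasurableSet {G | ∀ z ∈ N G, R G z} := by
  obtain ⟨ι, hι, y, A, hy, hA, h⟩ := h
  convert MeasurableSet.iInter fun i => (hA i).compl.union (hR _ (hy i)) using 1
  ext G
  simp only [Set.mem_setOf_eq, h, Set.mem_iInter, Set.mem_union, Set.mem_compl_iff,
    ← imp_iff_not_or]
  exact ⟨fun H i a => H _ ⟨i, a, rfl⟩, fun H _ ⟨i, a, e⟩ => e ▸ H i a⟩

theorem meas_eq {x : X → ZFSet.{u}} (hx : Meas x) :
    ∀ {y : X → ZFSet.{u}}, Meas y → MeasurableSet {G | x G = y G} := by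
  induction hx with
  | mk x ι hι x' A hx' hA h ih =>
    rintro _ ⟨y, κ, hκ, y', B, hy', hB, h'⟩
    convert (MeasurableSet.iInter fun i => (hA i).compl.union (MeasurableSet.iUnion fun j =>
      (hB j).inter (ih i (hy' j)))).inter (MeasurableSet.iInter fun j => (hB j).compl.union
        (MeasurableSet.iUnion fun i => (hA i).inter (ih i (hy' j)))) using 1
    ext G
    simp only [Set.mem_setOf_eq, Set.mem_iInter, Set.mem_union, Set.mem_compl_iff,
      ← imp_iff_not_or, Set.mem_inter_iff, Set.mem_iUnion]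
    constructor
    · intro e
      refine ⟨fun i a => ?_, fun j a => ?_⟩
      · obtain ⟨j, b, c⟩ := (h' G _).1 (e ▸ (h G _).2 ⟨i, a, rfl⟩)
        exact ⟨j, b, c.symm⟩
      · exact (h G _).1 (e ▸ (h' G _).2 ⟨j, a, rfl⟩)
    · rintro ⟨a, b⟩
      ext z
      rw [h, h']
      constructor
      · rintro ⟨i, c, rfl⟩
        obtain ⟨j, d, e⟩ := a i c
        exact ⟨j, d, e.symm⟩
      · rintro ⟨j, c, rfl⟩
        exact b j c

theorem meas_mem {x y : X → ZFSet.{u}} (hx : Meas x) (hy : Meas y) :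
    MeasurableSet {G | x G ∈ y G} := by
  convert (hy.toC.all (fun G z => ¬ x G = z) fun y hy => (meas_eq hx hy).compl).compl using 1
  ext G
  simp

theorem meas_sat {N : X → Set ZFSet.{u}} (h : MeasC N) (φ : Fml) :
    ∀ e : X → Env.{u}, (∀ i, Meas fun G => e G i) → MeasurableSet {G | Sat (N G) φ (e G)} := by
  induction φ with
  | mem i j => exact fun e he => meas_mem (he i) (he j)
  | eq i j => exact fun e he => meas_eq (he i) (he j)
  | neg φ ih => exact fun e he => (ih e he).compl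
  | and φ ψ ih1 ih2 => exact fun e he => (ih1 e he).inter (ih2 e he)
  | all φ ih =>
    intro e he
    refine h.all (fun G z => Sat (N G) φ (cons z (e G))) fun y hy =>
      ih (fun G => cons (y G) (e G)) ?_
    rintro (_ | i)
    exacts [hy, he i]

theorem Meas.const {T : Set ZFSet.{u}} (hT : T.Countable) (ht : ∀ x ∈ T, ∀ y ∈ x, y ∈ T)
    (c : ZFSet.{u}) : c ∈ T → Meas fun _ : X => c := by
  induction c using ZFSet.inductionOn with
  | h c ih =>
    intro hc
    have : Countable c := (hT.mono fun y hy => ht c hc y hy).to_subtype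
    exact (MeasC.iUnion fun y : c => (ih y.1 y.2 (ht c hc _ y.2)).single).meas
      fun G z => by simp

theorem Meas.sep {x : X → ZFSet.{u}} (h : Meas x) (R : X → ZFSet.{u} → Prop)
    (hR : ∀ y, Meas y → MeasurableSet {G | R G (y G)}) : Meas fun G => (x G).sep (R G) :=
  (h.toC.bind (fun G w => {z | R G w ∧ w = z}) fun y hy => hy.single.restrict (hR y hy)).meas
    fun G z => by simp [mem_sep]

theorem Meas.img {x : X → ZFSet.{u}} (h : Meas x) (F : X → ZFSet.{u} → ZFSet.{u})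
    (hF : ∀ y, Meas y → Meas fun G => F G (y G)) : Meas fun G => img (F G) (x G) :=
  (h.toC.bind (fun G w => {z | F G w = z}) fun y hy => (hF y hy).single).meas
    fun G z => by simp [mem_img, eq_comm]

theorem Meas.sUnion {x : X → ZFSet.{u}} (h : Meas x) : Meas fun G => (⋃₀ x G : ZFSet.{u}) :=
  (h.toC.bind (fun _ w => w) fun _ hy => hy.toC).meas fun G z => by simp [mem_sUnion]

theorem Meas.union {x y : X → ZFSet.{u}} (h : Meas x) (h' : Meas y) : Meas fun G => x G ∪ y G :=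
  (h.toC.union h'.toC).meas fun G z => by simp

theorem Meas.insert {x y : X → ZFSet.{u}} (h : Meas x) (h' : Meas y) :
    Meas fun G => (insert (x G) (y G) : ZFSet.{u}) :=
  (h.single.union h'.toC).meas fun G z => by simp [eq_comm]

theorem Meas.singleton {x : X → ZFSet.{u}} (h : Meas x) : Meas fun G => ({x G} : ZFSet.{u}) :=
  h.single.meas fun G z => by simp [eq_comm]

theorem Meas.pair {x y : X → ZFSet.{u}} (h : Meas x) (h' : Meas y) :
    Meas fun G => pair (x G) (y G) :=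
  h.singleton.insert (h.insert h'.singleton).singleton

theorem Meas.sdiff {x y : X → ZFSet.{u}} (h : Meas x) (h' : Meas y) : Meas fun G => x G \ y G :=
  h.sep (fun G z => z ∉ y G) fun _ hy => (meas_mem hy h').compl

/-- The transitive closure. -/
noncomputable def tc (x : ZFSet.{u}) : ZFSet.{u} :=
  x ∪ ⋃₀ range fun y : x => tc y.1
termination_by x.rank
decreasing_by exact rank_lt_of_mem y.2

theorem mem_tc {x z : ZFSet.{u}} : z ∈ tc x ↔ z ∈ x ∨ ∃ y ∈ x, z ∈ tc y := by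
  rw [tc, mem_union, mem_sUnion]
  refine or_congr_right ⟨?_, ?_⟩
  · rintro ⟨_, h, hz⟩
    obtain ⟨y, rfl⟩ := mem_range.1 h
    exact ⟨y, y.2, hz⟩
  · rintro ⟨y, hy, hz⟩
    exact ⟨_, mem_range.2 ⟨⟨y, hy⟩, rfl⟩, hz⟩

theorem tc_trans (x : ZFSet.{u}) : ∀ z ∈ tc x, ∀ w ∈ z, w ∈ tc x := by
  induction x using ZFSet.inductionOn with
  | h x ih =>
    intro z hz w hw
    rcases mem_tc.1 hz with h | ⟨y, hy, h⟩
    · exact mem_tc.2 (Or.inr ⟨z, h, mem_tc.2 (Or.inl hw)⟩)
    · exact mem_tc.2 (Or.inr ⟨y, hy, ih y hy z h w hw⟩)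

theorem Meas.tc {x : X → ZFSet.{u}} (h : Meas x) : Meas fun G => tc (x G) := by
  induction h with
  | mk x ι hι y A hy hA h ih =>
    refine ((Meas.mk x ι hι y A hy hA h).toC.union
      (MeasC.iUnion fun i => (ih i).toC.restrict (hA i))).meas fun G z => ?_
    simp only [mem_tc (x := x G), h, Set.mem_setOf_eq, SetLike.mem_coe]
    exact or_congr_right ⟨fun ⟨_, ⟨i, a, rfl⟩, b⟩ => ⟨i, a, b⟩, fun ⟨i, a, b⟩ => ⟨_, ⟨i, a, rfl⟩, b⟩⟩

theorem Meas.empty : Meas fun _ : X => (∅ : ZFSet.{u}) :=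
  ⟨_, Empty, inferInstance, nofun, nofun, nofun, nofun, fun G z => by simp⟩

/-- Absolute first-order properties of measurable sets are measurable. -/
theorem meas_udf (R : Env.{u} → Prop) [h : UDf fun _ e => R e] (e : X → Env.{u})
    (he : ∀ i, Meas fun G => e G i) : MeasurableSet {G | R (e G)} := by
  obtain ⟨φ, h⟩ := h.out
  have h1 := MeasC.iUnion fun i => (Meas.empty.insert (he i).singleton).tc.toC
  convert meas_sat h1 φ e he using 1
  ext G
  refine h {z | ∃ i, z ∈ (tc (insert ∅ {e G i}) : Set ZFSet.{u})}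
    ⟨fun x ⟨i, hx⟩ y hy => ⟨i, tc_trans _ x hx y hy⟩, 0, ?_⟩ _ fun i => ⟨i, ?_⟩
  · exact mem_tc.2 (Or.inl (mem_insert _ _))
  · exact mem_tc.2 (Or.inl (mem_insert_of_mem _ (mem_singleton.2 rfl)))

theorem Meas.defPow {x : X → ZFSet.{u}} (hx : Meas x) : Meas fun G => defPow (x G) := by
  obtain ⟨ι, hι, y, A, hy, hA, h⟩ := hx.toC
  refine (MeasC.iUnion fun p : Fml × ι × List ι =>
    (hx.sep (fun G z => Sat (x G) p.1 (cons z fun i => y (p.2.2.getD i p.2.1) G))
      fun w hw => meas_sat hx.toC p.1 (fun G => cons (w G) fun i => y (p.2.2.getD i p.2.1) G)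
        (by rintro (_ | i); exacts [hw, hy _])).single.restrict
      (MeasurableSet.iInter fun i => hA (p.2.2.getD i p.2.1))).meas fun G z => ?_
  simp only [Lib.Forcing.defPow, mem_sep, mem_powerset, Set.mem_setOf_eq, Set.mem_iInter]
  constructor
  · rintro ⟨-, φ, e, he, rfl⟩
    choose k hk using fun i => (h G _).1 (he i)
    obtain ⟨n, hn⟩ := sat_finite (x G : Set ZFSet.{u}) φ
    refine ⟨(φ, k 0, List.ofFn fun i : Fin n => k i), fun i => ?_, ?_⟩
    · by_cases hi : i < n <;> simp [hi, hk]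
    · ext z
      simp only [mem_sep]
      refine and_congr_right fun _ => hn _ _ ?_
      rintro (_ | i) hi
      · rfl
      · have : i < n := by omega
        simp [this, hk, cons]
  · rintro ⟨⟨φ, i0, l⟩, h1, rfl⟩
    exact ⟨sep_subset, φ, _, fun i => (h G _).2 ⟨_, h1 i, rfl⟩, rfl⟩

theorem Meas.level {b x : X → ZFSet.{u}} (hb : Meas b) (h : Meas x) :
    Meas fun G => level (b G) (x G) := by
  induction h with
  | mk x ι hι y A hy hA h ih =>
    refine (hb.toC.union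
      (MeasC.iUnion fun i => (ih i).defPow.toC.restrict (hA i))).meas fun G z => ?_
    simp only [mem_level (α := x G), h, Set.mem_setOf_eq, SetLike.mem_coe]
    exact or_congr_right ⟨fun ⟨_, ⟨i, a, rfl⟩, b⟩ => ⟨i, a, b⟩, fun ⟨i, a, b⟩ => ⟨_, ⟨i, a, rfl⟩, b⟩⟩

end Pool.Agent.P.MP_68237a_lc
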