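import Pool.Agent.P.MP_68237a_lc.Scale

/-!
Products inside a transitive model of ZF.
-/

universe u

set_option synthInstance.maxSize 16384

namespace Pool.Agent.P.MP_68237a_lc

open ZFSet Pool.Agent.Lib.Forcing Filter

theorem IsFamily.iff {J F j x : ZFSet.{u}} (h : IsFamily J F) :
    pair j x ∈ F ↔ j ∈ J ∧ x = app F j := by
  obtain ⟨B, h1, h2⟩ := h
  refine ⟨fun a => ?_, ?_⟩
  · have b := (pair_mem_prod.1 (h1 a)).1
    exact ⟨b, (app_eq a fun w hw => (h2 j b).unique hw a).symm⟩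
  · rintro ⟨b, rfl⟩
    obtain ⟨w, c, d⟩ := h2 j b
    rwa [app_eq c d]

theorem IsFamily.ext {J F F' : ZFSet.{u}} (h : IsFamily J F) (h' : IsFamily J F')
    (e : ∀ j ∈ J, app F j = app F' j) : F = F' := by
  ext z
  constructor <;> intro hz
  · obtain ⟨j, -, x, -, rfl⟩ := mem_prod.1 (h.choose_spec.1 hz)
    obtain ⟨a, rfl⟩ := h.iff.1 hz
    exact h'.iff.2 ⟨a, e j a⟩
  · obtain ⟨j, -, x, -, rfl⟩ := mem_prod.1 (h'.choose_spec.1 hz)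
    obtain ⟨a, rfl⟩ := h'.iff.1 hz
    exact h.iff.2 ⟨a, (e j a).symm⟩

theorem isFamily_img (J : ZFSet.{u}) (F : ZFSet.{u} → ZFSet.{u}) :
    IsFamily J (img (fun j => pair j (F j)) J) := by
  refine ⟨img F J, fun z hz => ?_, fun j hj => ⟨F j, mem_img.2 ⟨j, hj, rfl⟩, fun w hw => ?_⟩⟩
  · obtain ⟨j, hj, rfl⟩ := mem_img.1 hz
    exact pair_mem_prod.2 ⟨hj, mem_img.2 ⟨j, hj, rfl⟩⟩
  · obtain ⟨j', -, e⟩ := mem_img.1 hw
    obtain ⟨rfl, rfl⟩ := pair_inj.1 e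
    rfl

theorem app_img {J j : ZFSet.{u}} (F : ZFSet.{u} → ZFSet.{u}) (hj : j ∈ J) :
    app (img (fun j => pair j (F j)) J) j = F j :=
  ((isFamily_img J F).iff.1 (mem_img.2 ⟨j, hj, rfl⟩)).2.symm

variable {N : Set ZFSet.{u}}

theorem IsProd.iff {J X P f : ZFSet.{u}} (h : IsProd N J X P) (hX : IsFamily J X) :
    f ∈ P ↔ f ∈ N ∧ IsFamily J f ∧ ∀ j ∈ J, app f j ∈ app X j := by
  refine (h f).trans (and_congr_right fun _ => and_congr_right fun hf => ⟨fun a j hj =>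
    a j _ _ (hX.iff.2 ⟨hj, rfl⟩) (hf.iff.2 ⟨hj, rfl⟩), fun a j A x b c => ?_⟩)
  rw [(hX.iff.1 b).2, (hf.iff.1 c).2]
  exact a j (hf.iff.1 c).1

def PR (g : ZFSet.{u}) (W : ZFSet.{u} → R3.{u}) : R3.{u} := fun k f f' =>
  ∀ j n, pair j n ∈ g → n ∈ k → W j k (app f j) (app f' j)

section
variable {J X T P τ g : ZFSet.{u}} {W : ZFSet.{u} → R3.{u}} (hg : IsFunc J omega g)
  (hX : IsFamily J X) (hP : IsProd N J X P) (hW : ∀ j ∈ J, Sc omega (app X j) (W j))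
include hg hX hP hW

theorem PR.ev {j : ZFSet.{u}} (hj : j ∈ J) (m : ℕ) : ∀ᶠ k in atTop, ∀ f ∈ P, ∀ f' ∈ P,
    PR g W (nat k) f f' → W j (nat m) (app f j) (app f' j) := by
  obtain ⟨n, a, -⟩ := hg.2 j hj
  obtain ⟨n, rfl⟩ := mem_omega_iff.1 (pair_mem_prod.1 (hg.1 a)).2
  filter_upwards [eventually_gt_atTop n, eventually_ge_atTop m] with k h1 h2 f hf f' hf' h
  exact (hW j hj).mono (((hP.iff hX).1 hf).2.2 j hj) (((hP.iff hX).1 hf').2.2 j hj) h2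
    (h j _ a (nat_mem_nat.2 h1))

theorem PR.sc : Sc omega P (PR g W) := by
  have m : ∀ {j n}, pair j n ∈ g → j ∈ J := fun a => (pair_mem_prod.1 (hg.1 a)).1
  have v : ∀ {f j n}, f ∈ P → pair j n ∈ g → app f j ∈ app X j := fun a b =>
    ((hP.iff hX).1 a).2.2 _ (m b)
  refine sc_iff.2 ⟨fun k f hf j n a _ => (hW j (m a)).refl k (v hf a),
    fun k f hf f' hf' f'' hf'' a b j n c d => (hW j (m c)).half (v hf c) (v hf' c) (v hf'' c)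
      (a j n c (mem_insert_of_mem _ d)) (b j n c (mem_insert_of_mem _ d)), fun f hf f' hf' a =>
    ((hP.iff hX).1 hf).2.1.ext ((hP.iff hX).1 hf').2.1 fun j hj => (sc_iff.1 (hW j hj)).2.2 _
      (((hP.iff hX).1 hf).2.2 j hj) _ (((hP.iff hX).1 hf').2.2 j hj) fun k => ?_⟩
  obtain ⟨l, hl⟩ := (PR.ev hg hX hP hW hj k).exists
  exact hl f hf f' hf' (a l)

theorem PR.ind (hi : ∀ i j n, pair i n ∈ g → pair j n ∈ g → i = j) (hT : IsFamily J T)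
    (hτ : IsProdTop N T P τ) (hC : ∀ j ∈ J, Cp omega (app X j) (app T j) (W j)) :
    Ind N P τ (PR g W) := by
  refine fun V => (hτ V).trans (and_congr_right fun _ => and_congr_right fun hV =>
    forall₂_congr fun f hf => ⟨fun ⟨S, h1, h2, h3⟩ => ?_, fun ⟨k, h⟩ => ?_⟩)
  all_goals obtain ⟨-, f1, f2⟩ := (hP.iff hX).1 (hV hf)
  · have : ∀ p ∈ S, ∀ᶠ k in atTop, ∀ f' ∈ P, PR g W (nat k) f f' →
        ∀ x, pair p.1 x ∈ f' → x ∈ p.2 := by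
      intro p hp
      obtain ⟨⟨t, a, b⟩, c⟩ := h2 p hp
      obtain ⟨d, rfl⟩ := hT.iff.1 a
      obtain ⟨m, hm⟩ := (cp_iff.1 (hC _ d)).1 _ b _ (c _ (f1.iff.2 ⟨d, rfl⟩))
      filter_upwards [PR.ev hg hX hP hW d m] with k hk f' hf' e x hx
      obtain ⟨-, g1, g2⟩ := (hP.iff hX).1 hf'
      exact (g1.iff.1 hx).2 ▸ hm _ (g2 _ d) (hk f (hV hf) f' hf' e)
    obtain ⟨k, hk⟩ := ((eventually_all_finite h1).2 this).exists
    exact ⟨k, fun f' hf' a => h3 f' hf' fun p hp => hk p hp f' hf' a⟩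
  · choose! U h1 h2 h3 using fun j (hj : j ∈ J) => (cp_iff.1 (hC j hj)).2.1 _ (f2 j hj) k
    have m : ∀ {j n}, pair j n ∈ g → j ∈ J := fun a => (pair_mem_prod.1 (hg.1 a)).1
    refine ⟨(fun j => (j, U j)) '' ⋃ n < k, {j | pair j (nat n) ∈ g}, .image _
      ((Set.finite_lt_nat k).biUnion fun n _ => Set.Subsingleton.finite
        fun i a j b => hi i j _ a b), ?_, fun f' hf' a => h f' hf' fun j n b c => ?_⟩
    · rintro _ ⟨j, hj, rfl⟩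
      obtain ⟨n, -, a⟩ := Set.mem_iUnion₂.1 hj
      exact ⟨⟨_, hT.iff.2 ⟨m a, rfl⟩, h1 j (m a)⟩, fun x hx => (f1.iff.1 hx).2 ▸ h2 j (m a)⟩
    · obtain ⟨n, d, rfl⟩ := mem_nat.1 c
      exact h3 j (m b) _ (a (j, U j) ⟨j, Set.mem_iUnion₂.2 ⟨n, d, b⟩, rfl⟩ _
        (((hP.iff hX).1 hf').2.1.iff.2 ⟨m b, rfl⟩))

end

variable [ZFm N]

theorem prod_biqm (hS : StT ∈ N) {J X T₁ T₂ P τ₁ τ₂ : ZFSet.{u}} (hJ : CountableIn N J)
    (hX : IsFamily J X) (h1 : IsFamily J T₁) (h2 : IsFamily J T₂) (hP : P ∈ N)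
    (p0 : IsProd N J X P) (p1 : IsProdTop N T₁ P τ₁) (p2 : IsProdTop N T₂ P τ₂)
    (W : ZFSet.{u} → R3.{u}) [hd : Df N fun e => W (e 0) (e 1) (e 2) (e 3)]
    (hW : ∀ j ∈ J, Full omega (app X j) (app T₁ j) (app T₂ j) (W j)) :
    BiQMetrizable N P τ₁ τ₂ := by
  obtain ⟨g, hg, g1, g2⟩ := hJ
  have := InM.mk hg
  have hd' : ∀ (s t w v : Env.{u} → ZFSet.{u}) [Tm N s] [Tm N t] [Tm N w] [Tm N v],
      Df N (fun e => W (s e) (t e) (w e) (v e)) := fun s t w v _ _ _ _ => Df.subst4 hd s t w v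
  exact @biqm_of_ind N _ hS _ _ _ hP (PR g W) (by unfold PR; infer_instance)
    (PR.sc g1 hX p0 fun j hj => (hW j hj).1)
    (PR.ind g1 hX p0 (fun j hj => (hW j hj).1) g2 h1 p1 fun j hj => (hW j hj).2.1)
    (PR.ind (W := fun j => (W j).inv) g1 hX p0 (fun j hj => (hW j hj).1.inv) g2 h2 p2
      fun j hj => (hW j hj).2.2)

/-- Finiteness, as expressed in `N`. -/
def FinZ (N : Set ZFSet.{u}) (x : ZFSet.{u}) : Prop :=
  Gen N (fun z => z = ∅) (fun z a _ => ∃ y ∈ z, z = insert y a) x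

instance Df.finZ {s : Env.{u} → ZFSet.{u}} [Tm N s] : Df N fun e => FinZ N (s e) :=
  Df.subst1 (R := FinZ N) (@df_gen N _ (fun _ z => z = ∅) (fun _ z a _ => ∃ y ∈ z, z = insert y a)
    inferInstance inferInstance) s

theorem finZ_iff {x : ZFSet.{u}} (hx : x ∈ N) : FinZ N x ↔ (x : Set ZFSet.{u}).Finite := by
  refine ⟨fun h => ?_, fun h => finite_ind (D := (· ∈ N)) (.ax Trans.empty rfl)
    (fun a b c d => .step (insert_mem c d.mem) d d ⟨a, mem_insert _ _, rfl⟩) h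
    fun y hy => mem_of_mem hx hy⟩
  clear hx
  induction h with
  | ax _ h => simp [h]
  | step _ _ _ h ih _ =>
    obtain ⟨y, -, rfl⟩ := h
    simpa using ih.insert y

variable (hpow : ∀ x ∈ N, ∃ y ∈ N, ∀ z ∈ N, z ⊆ x → z ∈ y)
include hpow

theorem exists_pow {x : ZFSet.{u}} (hx : x ∈ N) (R : ZFSet.{u} → Prop) [Df N fun e => R (e 0)] :
    ∃ y ∈ N, ∀ z, z ∈ y ↔ z ∈ N ∧ z ⊆ x ∧ R z := by
  obtain ⟨y, hy, H⟩ := hpow x hx
  have := InM.mk hx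
  exact ⟨_, sep_mem (fun z => z ⊆ x ∧ R z) hy, fun z => mem_sep.trans
    ⟨fun h => ⟨mem_of_mem hy h.1, h.2⟩, fun h => ⟨H z h.1 h.2.1, h.2⟩⟩⟩

theorem exists_prod {J X : ZFSet.{u}} (hJ : J ∈ N) (hX : X ∈ N) (h : IsFamily J X) :
    ∃ P ∈ N, IsProd N J X P := by
  have := InM.mk hJ
  have := InM.mk hX
  obtain ⟨P, hP, H⟩ := exists_pow hpow (prod_mem hJ (sUnion_mem (sUnion_mem (sUnion_mem hX))))
    fun f => IsFunc J (⋃₀ ⋃₀ ⋃₀ X) f ∧ ∀ j A, pair j A ∈ X → ∀ x, pair j x ∈ f → x ∈ A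
  refine ⟨P, hP, fun f => (H f).trans (and_congr_right fun _ =>
    ⟨fun ⟨_, a, b⟩ => ⟨⟨_, a⟩, fun j A x c => b j A c x⟩, fun ⟨⟨B, a⟩, b⟩ => ?_⟩)⟩
  have : f ⊆ J.prod (⋃₀ ⋃₀ ⋃₀ X) := fun z hz => by
    obtain ⟨j, hj, x, -, rfl⟩ := mem_prod.1 (a.1 hz)
    have c := h.iff.2 ⟨hj, rfl⟩
    exact pair_mem_prod.2 ⟨hj, mem_sUnion.2 ⟨_, mem_sUnion.2 ⟨_, mem_sUnion.2
      ⟨_, c, mem_pair.2 (Or.inr rfl)⟩, mem_pair.2 (Or.inr rfl)⟩, b j _ x c hz⟩⟩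
  exact ⟨this, ⟨this, a.2⟩, fun j A c x => b j A x c⟩

theorem exists_prodTop {T P : ZFSet.{u}} (hT : T ∈ N) (hP : P ∈ N) :
    ∃ τ ∈ N, IsProdTop N T P τ := by
  have := InM.mk hT
  have := InM.mk hP
  obtain ⟨τ, hτ, H⟩ := exists_pow hpow hP fun W => ∀ f ∈ W, ∃ S ∈ N, FinZ N S ∧
    (∀ q ∈ S, (∃ t, pair (fst q) t ∈ T ∧ snd q ∈ t) ∧ ∀ x, pair (fst q) x ∈ f → x ∈ snd q) ∧
    ∀ g ∈ P, (∀ q ∈ S, ∀ x, pair (fst q) x ∈ g → x ∈ snd q) → g ∈ W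
  refine ⟨τ, hτ, fun W => (H W).trans (and_congr_right fun _ => and_congr_right fun _ =>
    forall₂_congr fun f _ => ⟨fun ⟨S, a, b, c, d⟩ => ?_, fun ⟨S, a, b, c⟩ => ?_⟩)⟩
  · exact ⟨_, ((finZ_iff a).1 b).image fun q => (fst q, snd q), Set.forall_mem_image.2 c,
      fun g hg e => d g hg (Set.forall_mem_image.1 e)⟩
  · have := a.to_subtype
    have e : ((range fun p : S => pair p.1.1 p.1.2 : ZFSet.{u}) : Set ZFSet.{u}).Finite := by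
      rw [coe_range]; exact Set.finite_range _
    have e' := mem_of_finite (M := N) e fun z hz => by
      obtain ⟨p, rfl⟩ := mem_range.1 hz
      obtain ⟨t, h1, h2⟩ := (b _ p.2).1
      exact pair_mem (fst_mem hT h1) (mem_of_mem (snd_mem hT h1) h2)
    refine ⟨_, e', (finZ_iff e').2 e, fun z hz => ?_, fun g hg h => c g hg fun p hp => ?_⟩
    · obtain ⟨p, rfl⟩ := mem_range.1 hz
      simpa only [fst_pair, snd_pair] using b _ p.2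
    · simpa only [fst_pair, snd_pair] using h _ (mem_range_self ⟨p, hp⟩)

end Pool.Agent.P.MP_68237a_lc
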