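import Pool.Agent.P.MP_68237a_lc.Generic
import Pool.Agent.P.MP_68237a_lc.Prod

/-!
Basic facts about the generic model: names, realisation of canonical types, uniformisation.
-/

universe u

set_option synthInstance.maxSize 16384

namespace Pool.Agent.P.MP_68237a_lc

open ZFSet Pool.Agent.Lib.Forcing

/-- The set of all labels. -/
noncomputable def DD (y : Raw) : ZFSet.{u} := img (fun z => fst (fst z)) (Sig y)

theorem mem_DD {y : Raw} {z : ZFSet.{u}} : z ∈ DD y ↔ ∃ t, lab y.2 t = z := by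
  simp only [DD, mem_img, mem_Sig]
  constructor
  · rintro ⟨_, ⟨s, t, rfl⟩, rfl⟩
    exact ⟨s, by simp⟩
  · rintro ⟨t, rfl⟩
    exact ⟨_, ⟨t, t, rfl⟩, by simp⟩

def Lab (y : Raw) (F : Finset ℕ) (L : ℕ) (σ : ℕ → ℕ → Bool) (U : ℕ → ℕ) : Prop :=
  ∀ s ∈ F, ∀ k < L, y.2 (U s) k = σ s k

def Tp (y : Raw) (K : Finset ℕ) (q : ℕ → ℕ → ℕ) (U : ℕ → ℕ) : Prop :=
  ∀ s ∈ K, ∀ t ∈ K, y.1 (U s) (U t) = q s t

/-- Refinement of finite approximations to labels. -/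
def Rf (F : Finset ℕ) (L : ℕ) (σ : ℕ → ℕ → Bool) (L' : ℕ) (σ' : ℕ → ℕ → Bool) : Prop :=
  L ≤ L' ∧ ∀ s ∈ F, ∀ k < L, σ' s k = σ s k

section
variable {y : Raw} {F F' : Finset ℕ} {L L' L'' : ℕ} {σ σ' σ'' : ℕ → ℕ → Bool} {U : ℕ → ℕ}

theorem Rf.refl : Rf F L σ L σ := ⟨le_rfl, fun _ _ _ _ => rfl⟩

theorem Rf.trans (h : Rf F L σ L' σ') (h' : Rf F L' σ' L'' σ'') : Rf F L σ L'' σ'' :=
  ⟨h.1.trans h'.1, fun s hs k hk => (h'.2 s hs k (hk.trans_le h.1)).trans (h.2 s hs k hk)⟩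

theorem Rf.mono (h : Rf F L σ L' σ') (h' : F' ⊆ F) : Rf F' L σ L' σ' :=
  ⟨h.1, fun s hs => h.2 s (h' hs)⟩

theorem Rf.lab (h : Rf F L σ L' σ') (h' : Lab y F L' σ' U) : Lab y F L σ U :=
  fun s hs k hk => (h' s hs k (hk.trans_le h.1)).trans (h.2 s hs k hk)

end

theorem unif {y : Raw} {K F : Finset ℕ} {U0 : ℕ → ℕ} {P : (ℕ → ℕ) → Prop}
    {Φ : ℕ → (ℕ → ℕ) → Prop} (hc : ∀ m, Cont y (K ∪ F) (Φ m)) {L : ℕ} {σ : ℕ → ℕ → Bool}
    (hP : ∀ U, P U → Set.InjOn U (K ∪ F : Finset ℕ) ∧ ∀ s ∈ K, U s = U0 s)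
    (h1 : ∀ U, P U → Lab y F L σ U → ∃ m, Φ m U)
    (h2 : ∀ U, P U → Lab y F L σ U → ∀ m m', m ≤ m' → Φ m U → Φ m' U)
    {T : Set (ℕ → ℕ → ℕ)} (hT : T.Finite) (h3 : ∀ U, P U → ∃ w ∈ T, Tp y (K ∪ F) w U) :
    ∃ L' σ' m, Rf F L σ L' σ' ∧ ∀ U, P U → Lab y F L' σ' U → Φ m U := by
  suffices h : ∃ L' σ' m, Rf F L σ L' σ' ∧
      ∀ w ∈ T, ∀ U, P U → Tp y (K ∪ F) w U → Lab y F L' σ' U → Φ m U by
    obtain ⟨L', σ', m, a, b⟩ := h
    exact ⟨L', σ', m, a, fun U c => (h3 U c).elim fun w d => b w d.1 U c d.2⟩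
  clear h3
  induction T, hT using Set.Finite.induction_on with
  | empty => exact ⟨L, σ, 0, .refl, nofun⟩
  | @insert w T _ _ ih =>
    obtain ⟨L1, σ1, m1, a, b⟩ := ih
    by_cases h : ∃ U, P U ∧ Tp y (K ∪ F) w U ∧ Lab y F L1 σ1 U
    swap
    · exact ⟨L1, σ1, m1, a, Set.forall_mem_insert.2 ⟨fun U c d e => (h ⟨U, c, d, e⟩).elim, b⟩⟩
    obtain ⟨V, v1, v2, v3⟩ := h
    obtain ⟨m2, c⟩ := h1 V v1 (a.lab v3)
    obtain ⟨L2, d⟩ := hc m2 V (hP V v1).1 c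
    have e : Rf F L1 σ1 (max L1 L2) fun s => y.2 (V s) := ⟨le_max_left _ _, v3⟩
    refine ⟨_, _, max m1 m2, a.trans e, Set.forall_mem_insert.2 ⟨fun U f g h =>
      h2 U f (a.lab (e.lab h)) _ _ (le_max_right _ _) ?_, fun w hw U f g h =>
      h2 U f (a.lab (e.lab h)) _ _ (le_max_left _ _) (b w hw U f g (e.lab h))⟩⟩
    refine d U (hP U f).1 (fun s hs t ht => (g s hs t ht).trans (v2 s hs t ht).symm)
      fun s hs k hk => ?_
    rcases Finset.mem_union.1 hs with hs | hs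
    · rw [(hP U f).2 s hs, (hP V v1).2 s hs]
    · exact h s hs k (hk.trans_le (le_max_right _ _))

variable {A : Amalg} {Γ : ZFSet.{u}} (G : GM A Γ)

namespace GM

instance : ZFm G.N := G.zf.zfm

instance : InM G.N (Sig G.y) :=
  ⟨mem_of_mem G.base (mem_tc.2 (Or.inl (by simp)))⟩

instance : InM G.N Γ := ⟨mem_of_mem G.base (mem_tc.2 (Or.inl (by simp)))⟩

instance : InM G.N (DD G.y) :=
  ⟨(inferInstance : Tm G.N fun _ => img (fun z => fst (fst z)) (Sig G.y)).mem'⟩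

abbrev l (t : ℕ) : ZFSet.{u} := lab G.y.2 t

noncomputable abbrev val := valR G.o Γ G.y

theorem l_inj {s t : ℕ} : G.l s = G.l t ↔ s = t :=
  ⟨fun h => G.inj s t fun k => Bool.eq_iff_iff.2 (by
    rw [← nat_mem_lab.{u}, ← nat_mem_lab.{u}]; exact iff_of_eq (congrArg (nat k ∈ ·) h)), fun h => h ▸ rfl⟩

theorem l_mem (t : ℕ) : G.l t ∈ G.N := mem_of_mem (InM.out : DD G.y ∈ _) (mem_DD.2 ⟨t, rfl⟩)

theorem asg_mem (I : Finset ℕ) (U : ℕ → ℕ) : asg G.y.2 I U ∈ G.N :=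
  mem_of_finite (finite_asg _ _ _) fun z hz => by
    obtain ⟨i, -, rfl⟩ := mem_asg.1 hz
    exact pair_mem (nat_mem i) (G.l_mem _)

theorem sig_iff {s t : ℕ} {c : ZFSet.{u}} :
    pair (pair (G.l s) (G.l t)) c ∈ Sig G.y ↔ c = nat (G.y.1 s t) := by
  simp [mem_Sig, G.l_inj, eq_comm]

instance {s : Env.{u} → ZFSet.{u}} [Tm G.N s] : Tm G.N fun e => prm (Sig G.y) Γ (s e) := by
  unfold prm; infer_instance

theorem ev_val (t : Tr) (I : Finset ℕ) (U : ℕ → ℕ) :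
    Ev G.N (bas Γ G.y) (prm (Sig G.y) Γ (asg G.y.2 I U)) (t.code G.o) (G.val t I U) :=
  have := InM.mk (G.asg_mem I U)
  ev_eval G.zf.powerSet (inferInstance : Tm G.N fun _ => prm (Sig G.y) Γ (asg G.y.2 I U)).mem'
    G.base G.ord t

theorem ev_iff {t : Tr} {I : Finset ℕ} {U : ℕ → ℕ} {z : ZFSet.{u}} :
    Ev G.N (bas Γ G.y) (prm (Sig G.y) Γ (asg G.y.2 I U)) (t.code G.o) z ↔ z = G.val t I U :=
  ⟨fun h => codeG_unique h _ _ _ rfl (G.ev_val t I U), fun h => h ▸ G.ev_val t I U⟩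

theorem val_mem (t : Tr) (I : Finset ℕ) (U : ℕ → ℕ) : G.val t I U ∈ G.N :=
  snd_mem_of_pair_mem (G.ev_val t I U).mem

theorem code_mem (t : Tr) : t.code G.o ∈ G.N ∧ (t.code G.o).IsOrdinal :=
  ⟨fst_mem_of_pair_mem (G.ev_val t ∅ id).mem, codeG_ordinal (G.ev_val t ∅ id) _ _ rfl⟩

theorem at_app {I : Finset ℕ} {U : ℕ → ℕ} {x y : ZFSet.{u}} (hx : ∃ t, G.val t I U = x)
    (hy : ∃ t, G.val t I U = y) : ∃ t, G.val t I U = app x y := by
  obtain ⟨s, rfl⟩ := hx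
  obtain ⟨t, rfl⟩ := hy
  exact ⟨.op 10 s t, eval_app _ _ _ _ _⟩

theorem at_ord {α : ZFSet.{u}} (h : α ∈ G.N) (h' : α.IsOrdinal) :
    ∃ t, ∀ I U, G.val t I U = α :=
  (G.ords α h h').elim fun n hn => ⟨.ord n, fun _ _ => hn⟩

abbrev nm := Nm G.o Γ G.y

theorem nm_ord {α : ZFSet.{u}} (h : α ∈ G.N) (h' : α.IsOrdinal) (K : Finset ℕ) :
    G.nm K fun _ => α :=
  (G.at_ord h h').elim fun t ht => ⟨t, ∅, id, nofun, fun _ => (ht _ _).symm⟩

theorem nm_nat (n : ℕ) (K : Finset ℕ) : G.nm K fun _ => nat n :=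
  G.nm_ord (nat_mem n) (isOrdinal_nat n) K

theorem nm_val (t : Tr) {I K : Finset ℕ} (h : I ⊆ K) : G.nm K fun U => G.val t I U :=
  ⟨t, I, id, h, fun _ => rfl⟩

theorem nm_l {K : Finset ℕ} {s : ℕ} (h : s ∈ K) : G.nm K fun U => G.l (U s) := by
  obtain ⟨t, ht⟩ := G.at_ord (nat_mem 2) (isOrdinal_nat 2)
  obtain ⟨t', ht'⟩ := G.at_ord (nat_mem s) (isOrdinal_nat s)
  refine ⟨.op 10 (.op 10 (.op 4 t t) t) t', {s}, id, by simpa, fun U => ?_⟩
  have a := ht {s} fun i => U (id i)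
  have b := ht' {s} fun i => U (id i)
  rw [val, valR] at a b
  rw [valR, eval_app, eval_app, eval_par, a, b, (app_prm _ _ _).2.2, app_asg (Finset.mem_singleton_self s)]
  rfl

theorem nm_cons {K : Finset ℕ} {a : (ℕ → ℕ) → ZFSet.{u}} {e : (ℕ → ℕ) → Env.{u}} (h : G.nm K a)
    (h' : ∀ i, G.nm K fun U => e U i) : ∀ i, G.nm K fun U => cons (a U) (e U) i
  | 0 => h
  | i + 1 => h' i

theorem cont6 (R : ZFSet.{u} → ZFSet.{u} → ZFSet.{u} → ZFSet.{u} → ZFSet.{u} → ZFSet.{u} → Prop)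
    [UDf fun _ e => R (e 0) (e 1) (e 2) (e 3) (e 4) (e 5)] {K : Finset ℕ}
    {a b c d e f : (ℕ → ℕ) → ZFSet.{u}} (ha : G.nm K a) (hb : G.nm K b) (hc : G.nm K c)
    (hd : G.nm K d) (he : G.nm K e) (hf : G.nm K f) :
    Cont G.y K fun U => R (a U) (b U) (c U) (d U) (e U) (f U) :=
  G.cont (fun e => R (e 0) (e 1) (e 2) (e 3) (e 4) (e 5)) K _ (G.nm_cons ha (G.nm_cons hb
    (G.nm_cons hc (G.nm_cons hd (G.nm_cons he (e := fun U _ => f U) fun _ => hf)))))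

theorem adm_pull {K : Finset ℕ} {U : ℕ → ℕ} (h : Set.InjOn U K) {q : ℕ → ℕ → ℕ}
    (hq : Tp G.y K q U) : A.Adm K q :=
  A.pull (G.adm (K.image U)) h (fun _ h => Finset.mem_image_of_mem _ h)
    fun s hs t ht => (hq s hs t ht).symm

/-- `U'` extends `U` from `I` to `E`, canonically over `I0`. -/
structure Rz (I0 I E : Finset ℕ) (q : ℕ → ℕ → ℕ) (U U' : ℕ → ℕ) : Prop where
  inj : Set.InjOn U' (I ∪ E : Finset ℕ)
  eq : ∀ s ∈ I, U' s = U s
  tg : A.TG I0 I E fun s t => G.y.1 (U' s) (U' t)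
  tp : Tp G.y (I0 ∪ E) q U'

theorem real {I0 D1 D2 E : Finset ℕ} {U1 U2 : ℕ → ℕ} {q : ℕ → ℕ → ℕ} (h1 : I0 ⊆ D1)
    (h2 : I0 ⊆ D2) (i1 : Set.InjOn U1 D1) (i2 : Set.InjOn U2 D2) (e : ∀ s ∈ I0, U2 s = U1 s)
    (d1 : Disjoint D1 E) (d2 : Disjoint D2 E) (hq : A.Adm (I0 ∪ E) q) (hq' : Tp G.y I0 q U1)
    (L : ℕ) (σ : ℕ → ℕ → Bool) : ∃ V1 V2, G.Rz I0 D1 E q U1 V1 ∧ G.Rz I0 D2 E q U2 V2 ∧
      Lab G.y E L σ V1 ∧ ∀ s ∈ E, V2 s = V1 s := by
  classical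
  set K := D1.image U1 ∪ D2.image U2
  set B := K.sup id + 1
  let κ : (ℕ → ℕ) → ℕ → ℕ := fun U s => if s ∈ E then s + B else U s
  have k1 : ∀ U, ∀ s ∈ E, κ U s = s + B := fun U s hs => if_pos hs
  have k2 : ∀ U {D}, Disjoint D E → ∀ s ∈ D, κ U s = U s := fun U D h s hs =>
    if_neg (Finset.disjoint_left.1 h hs)
  have k3 : ∀ U {D : Finset ℕ}, Disjoint D E → Set.InjOn U D → D.image U ⊆ K →
      Set.InjOn (κ U) (D ∪ E : Finset ℕ) := by
    intro U D h i m s hs t ht f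
    have lt : ∀ s ∈ D, U s < B := fun s hs => lt_sup_succ (m (Finset.mem_image_of_mem _ hs))
    rcases Finset.mem_union.1 hs with hs | hs <;> rcases Finset.mem_union.1 ht with ht | ht
    · exact i hs ht (by rwa [k2 U h s hs, k2 U h t ht] at f)
    · rw [k2 U h s hs, k1 U t ht] at f; have := lt s hs; omega
    · rw [k1 U s hs, k2 U h t ht] at f; have := lt t ht; omega
    · rw [k1 U s hs, k1 U t ht] at f; omega
  have j1 := k3 U1 d1 i1 Finset.subset_union_left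
  have j0 : Set.InjOn (κ U1) (I0 ∪ E : Finset ℕ) :=
    j1.mono (Finset.coe_subset.2 (Finset.union_subset_union_left h1))
  let ι := Function.invFunOn (κ U1) (I0 ∪ E : Finset ℕ)
  have hι : ∀ s ∈ I0 ∪ E, ι (κ U1 s) = s := fun s hs => j0.leftInvOn_invFunOn hs
  have im : ∀ U {D}, Disjoint D E → D.image (κ U) = D.image U := fun U D h =>
    Finset.image_congr fun s hs => k2 U h s hs
  have imE : ∀ U, E.image (κ U) = E.image (· + B) := fun U =>
    Finset.image_congr fun s hs => k1 U s hs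
  have d0 := d1.mono_left h1
  have e0 : I0.image U2 = I0.image U1 := Finset.image_congr e
  have dK : Disjoint K (E.image (· + B)) := Finset.disjoint_left.2 fun s hs hs' => by
    obtain ⟨t, -, rfl⟩ := Finset.mem_image.1 hs'
    have := lt_sup_succ hs; omega
  obtain ⟨w, w1, w2, w3, w4, w5⟩ := A.tg_ex (E0 := I0.image U1) (D1 := D1.image U1)
    (D2 := D2.image U2) (E := E.image (· + B)) (s := G.y.1) (q := fun s t => q (ι s) (ι t))
    (Finset.image_subset_image h1) (e0 ▸ Finset.image_subset_image h2) dK (G.adm _) (by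
      rw [← im U1 d0, ← imE U1, ← Finset.image_union]
      refine A.pull (U := ι) hq ?_ (fun s hs => ?_) fun _ _ _ _ => rfl
      · rw [Finset.coe_image]; exact Function.invFunOn_injOn_image _ _
      · obtain ⟨t, ht, rfl⟩ := Finset.mem_image.1 hs
        rwa [hι t ht]) (by
      simp only [Finset.forall_mem_image]
      intro s hs t ht
      rw [hq' s hs t ht, ← k2 U1 d0 s hs, ← k2 U1 d0 t ht, hι s (Finset.mem_union_left _ hs),
        hι t (Finset.mem_union_left _ ht)])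
  obtain ⟨V, v1, v2, v3, v4⟩ := G.ext K (K ∪ E.image (· + B)) id w L (fun s => σ (s - B))
    (Set.injOn_id _) Finset.subset_union_left w1 fun s hs t ht => (w2 s hs t ht).symm
  have main : ∀ U D, I0 ⊆ D → Disjoint D E → Set.InjOn U D → D.image U ⊆ K →
      (∀ s ∈ I0, U s = U1 s) → A.TG (I0.image U1) (D.image U) (E.image (· + B)) w →
      G.Rz I0 D E q U fun s => V (κ U s) := by
    intro U D a b c d f g
    have m : ∀ s ∈ D ∪ E, κ U s ∈ K ∪ E.image (· + B) := fun s hs => by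
      have := Finset.mem_image_of_mem (κ U) hs
      rw [Finset.image_union, im U b, imE] at this
      exact Finset.union_subset_union_left d this
    have m0 : ∀ s ∈ I0 ∪ E, κ U s = κ U1 s := fun s hs => by
      simp only [κ]
      split_ifs with h
      exacts [rfl, f s ((Finset.mem_union.1 hs).resolve_right h)]
    refine ⟨v1.comp (k3 U b c d) m, fun s hs => ?_, A.tg_pull (U := κ U) (w' := w) a ?_
      (k3 U b c d) fun s hs t ht => v3 _ (m s hs) _ (m t ht), fun s hs t ht => ?_⟩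
    · rw [k2 U b s hs]; exact v2 _ (d (Finset.mem_image_of_mem _ hs))
    · rwa [im U b, im U (b.mono_left a), imE, Finset.image_congr f]
    · have n : ∀ s ∈ I0 ∪ E, κ U1 s ∈ I0.image U1 ∪ E.image (· + B) := fun s hs => by
        rw [← im U1 d0, ← imE U1, ← Finset.image_union]
        exact Finset.mem_image_of_mem _ hs
      have p := Finset.union_subset_union_left (t := E) a
      rw [v3 _ (m s (p hs)) _ (m t (p ht)), m0 s hs, m0 t ht, w3 _ (n s hs) _ (n t ht), hι s hs,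
        hι t ht]
  refine ⟨_, _, main U1 D1 h1 d1 i1 Finset.subset_union_left (fun _ _ => rfl) w4,
    main U2 D2 h2 d2 i2 Finset.subset_union_right e w5, fun s hs k hk => ?_,
    fun s hs => by rw [k1 U1 s hs, k1 U2 s hs]⟩
  have := Finset.mem_image_of_mem (· + B) hs
  simpa [k1 U1 s hs] using v4 _ (Finset.mem_union_right _ this)
    (Finset.disjoint_right.1 dK this) k hk

end GM

end Pool.Agent.P.MP_68237a_lc
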