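import Pool.Agent.P.MP_68237a_lc.Spaces

/-!
The generic model does not satisfy the topological product principle.
-/

universe u

set_option synthInstance.maxSize 16384

namespace Pool.Agent.P.MP_68237a_lc

open ZFSet Pool.Agent.Lib.Forcing Filter

theorem seed_chain0 (so m : ℕ) (g e : ℕ → ℕ) (x y : ℕ) : Seed (chain0 so m g e x y) := by
  unfold chain0
  by_cases a : x = y
  · rw [if_pos a]; exact Or.inr (Or.inl ⟨_, _, _, rfl⟩)
  rw [if_neg a]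
  split_ifs
  exacts [Or.inr (Or.inr (Or.inl ⟨_, _, _, rfl⟩)),
    Or.inr (Or.inr (Or.inr ⟨_, _, _, _, _, _, _, rfl⟩)), Or.inl rfl]

def Sb (F₁ F₂ n k₁ k₂ x : ZFSet.{u}) : Prop :=
  ∀ y, pair (pair n (pair k₁ x)) y ∈ F₁ → pair (pair n (pair k₂ x)) y ∈ F₂

open Classical in
/-- The slice through the point with all coordinates empty. -/
noncomputable def sl (n x : ZFSet.{u}) : ZFSet.{u} :=
  img (fun j => pair j (if j = n then x else ∅)) omega

instance Tm.sl {N : Set ZFSet.{u}} [ZFm N] {s t : Env.{u} → ZFSet.{u}} [hs : Tm N s] [ht : Tm N t] :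
    Tm N fun e => sl (s e) (t e) := by
  have := hs.shift
  have := ht.shift
  unfold P.MP_68237a_lc.sl; infer_instance

variable {A : Amalg} {Γ : ZFSet.{u}} (G : GM A Γ) {ρ : ℕ → Dat} {enc : Dat → ℕ}

namespace GM

def Pt (S : Finset ℕ) (d e x : ℕ) : Prop :=
  x ∉ S ∧ G.y.1 x x = d ∧ ∀ s ∈ S, G.y.1 x s = e ∧ G.y.1 s x = e

theorem pt_cont {S : Finset ℕ} {F₁ F₂ : ZFSet.{u}} (h1 : ∃ t, G.val t S id = F₁)
    (h2 : ∃ t, G.val t S id = F₂) {d e x : ℕ} (n k₁ k₂ g : ℕ) (hx : G.Pt S d e x)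
    (h : Sb F₁ F₂ (nat n) (nat k₁) (nat k₂) (G.p g x)) : ∃ L, ∀ x', G.Pt S d e x' →
      (∀ k < L, G.y.2 x' k = G.y.2 x k) → Sb F₁ F₂ (nat n) (nat k₁) (nat k₂) (G.p g x') := by
  obtain ⟨t1, rfl⟩ := h1
  obtain ⟨t2, rfl⟩ := h2
  set M := S.sup id + 1
  have hM : ∀ s ∈ S, s ≠ M := fun s hs => (lt_sup_succ hs).ne
  let U : ℕ → ℕ → ℕ := fun x i => if i = M then x else i
  have u1 : ∀ x, U x M = x := fun x => if_pos rfl
  have u2 : ∀ x, ∀ s ∈ S, U x s = s := fun x s hs => if_neg (hM s hs)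
  have u3 : ∀ x t, G.val t S (U x) = G.val t S id := fun x t => valR_congr (u2 x)
  have u4 : ∀ x ∉ S, Set.InjOn (U x) (insert M S : Finset ℕ) := fun x hx => by
    rw [Finset.coe_insert, Set.injOn_insert fun h => hM M h rfl, u1]
    exact ⟨(Set.injOn_id _).congr fun s hs => (u2 x s hs).symm,
      fun ⟨s, a, b⟩ => hx (b ▸ (u2 x s a).symm ▸ a)⟩
  obtain ⟨L, hL⟩ := @GM.cont _ _ G (fun e => Sb (e 0) (e 1) (e 2) (e 3) (e 4) (pair (e 5) (e 6)))
    (by unfold Sb; infer_instance) (insert M S) _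
    (G.nm_cons (G.nm_val t1 (S.subset_insert M)) (G.nm_cons (G.nm_val t2 (S.subset_insert M))
      (G.nm_cons (G.nm_nat n _) (G.nm_cons (G.nm_nat k₁ _) (G.nm_cons (G.nm_nat k₂ _)
      (G.nm_cons (G.nm_nat g _) (e := fun U _ => G.l (U M))
        fun _ => G.nm_l (S.mem_insert_self M))))))) (U x) (u4 x hx.1)
    (by simpa only [cons, u1, u3, p] using h)
  refine ⟨L, fun x' a b => ?_⟩
  simpa only [cons, u1, u3, p] using hL (U x') (u4 x' a.1) (by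
    simp only [Finset.forall_mem_insert, u1]
    refine ⟨⟨a.2.1.trans hx.2.1.symm, fun s hs => ?_⟩, fun s hs => ⟨?_, fun t ht => ?_⟩⟩
    · rw [u2 _ s hs, u2 _ s hs, (a.2.2 s hs).1, (hx.2.2 s hs).1]
    · rw [u2 _ s hs, u2 _ s hs, (a.2.2 s hs).2, (hx.2.2 s hs).2]
    · rw [u2 _ s hs, u2 _ s hs, u2 _ t ht, u2 _ t ht]) (by
    simp only [Finset.forall_mem_insert, u1]
    exact ⟨b, fun s hs k _ => by rw [u2 _ s hs, u2 _ s hs]⟩)

variable (he : ∀ d, Seed d → ρ (enc d) = d) (hA : ∀ D w, A.Adm D w ↔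
  Adm D (fun x y => ρ (w x y)) ∧ ∀ x ∈ D, ∀ y ∈ D, enc (ρ (w x y)) = w x y)
include he hA

theorem chain_real {S : Finset ℕ} {so m : ℕ} (hm : m ≠ so)
    (hS : ∀ s ∈ S, (G.w ρ s s).m ≠ so ∧ (G.w ρ s s).so ≠ m) {g e : ℕ → ℕ} (hg : StrictMono g)
    (hge : ∀ u, e u ≤ g (u + 2)) (r L : ℕ) (σ : ℕ → ℕ → Bool) : ∃ c : ℕ → ℕ, ∀ u ≤ r,
      G.Pt S (enc (chain0 so m g e u u)) (enc dNil) (c u) ∧
      (∀ u' ≤ r, G.w ρ (c u) (c u') = chain0 so m g e u u') ∧ ∀ k < L, G.y.2 (c u) k = σ u k := by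
  set M := S.sup id + 1
  have hM : ∀ s ∈ S, s < M := fun s hs => lt_sup_succ hs
  let E := (Finset.range (r + 1)).image (· + M)
  have hE : ∀ u ≤ r, u + M ∈ S ∪ E ∧ u + M ∉ S := fun u hu => ⟨Finset.mem_union_right _
    (Finset.mem_image_of_mem _ (Finset.mem_range_succ_iff.2 hu)), fun h => by
      have := hM _ h; omega⟩
  let q : ℕ → ℕ → ℕ := fun s t => if s < M ∧ t < M then G.y.1 s t
    else enc (chain M (G.w ρ) (chain0 so m g e) s t)
  have hq : ∀ s t, ρ (q s t) = chain M (G.w ρ) (chain0 so m g e) s t := fun s t => by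
    simp only [q, chain]
    split_ifs
    exacts [rfl, he _ (seed_chain0 ..), he _ (Or.inl rfl)]
  obtain ⟨V, v1, v2, v3, v4⟩ := G.ext S (S ∪ E) id q L (fun s => σ (s - M)) (Set.injOn_id _)
    Finset.subset_union_left ((hA _ _).2 ⟨by
      simp only [hq]
      exact adm_chain hM (Finset.forall_mem_image.2 fun _ _ => Nat.le_add_left _ _)
        ((hA _ _).1 (G.adm S)).1 (adm_chain0 hm hg hge) (fun x => by simp [chain0, dDiag]) hS,
      fun s _ t _ => by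
        by_cases h : s < M ∧ t < M
        · simp only [q, if_pos h]
          exact ((hA _ _).1 (G.adm {s, t})).2 s (by simp) t (by simp)
        · rw [hq]; exact (if_neg h).symm⟩)
    fun s hs t ht => (if_pos ⟨hM s hs, hM t ht⟩).symm
  refine ⟨fun u => V (u + M), fun u hu => ⟨⟨fun h => (hE u hu).2 ?_, ?_, fun s hs => ?_⟩,
    fun u' hu' => ?_, fun k hk => by simpa using v4 _ (hE u hu).1 (hE u hu).2 k hk⟩⟩
  · rwa [v1 (hE u hu).1 (Finset.mem_union_left E h) (v2 _ h).symm]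
  · simpa [q, chain] using v3 _ (hE u hu).1 _ (hE u hu).1
  · have a := v3 _ (hE u hu).1 _ (Finset.mem_union_left E hs)
    have b := v3 _ (Finset.mem_union_left E hs) _ (hE u hu).1
    rw [v2 s hs] at a b
    exact ⟨by simpa [q, chain, (hM s hs).not_ge] using a,
      by simpa [q, chain, (hM s hs).not_ge] using b⟩
  · rw [w, v3 _ (hE u hu).1 _ (hE u' hu').1, hq]
    simp [chain]

theorem not_cpqm (t1 : PwT ∈ G.N) (t2 : StT ∈ G.N) (t3 : TT ρ ∈ G.N) : ¬ CPQM G.N := by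
  intro H
  have hw : ∀ D, Adm D (G.w ρ) := fun D => ((hA _ _).1 (G.adm D)).1
  have := InM.mk t3
  have dA : ∀ g (s t v r : Env.{u} → ZFSet.{u}) [Tm G.N s] [Tm G.N t] [Tm G.N v] [Tm G.N r],
      Df G.N fun e => At ρ G.y g (s e) (t e) (v e) (r e) := fun g =>
    Df.subst4 (R := At ρ G.y g) (by unfold At; infer_instance)
  have dX := Tm.apply1 (M := G.N) (F := XX ρ G.y) (by unfold XX; infer_instance)
  let Bs : ZFSet.{u} → R3.{u} := Gr ρ G.y fun _ _ => True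
  have dB := Df.subst4 (M := G.N) (R := Bs) (by simp only [Bs]; unfold Gr; infer_instance)
  let XB : ZFSet.{u} := insert ∅ (omega.prod (DD G.y))
  have hXB : XB ∈ G.N := insert_mem Trans.empty (prod_mem omega_mem InM.out)
  have sXB : ∀ n, XX ρ G.y (nat n) ⊆ XB := fun n x hx => by
    rcases (G.mem_XX ρ).1 hx with rfl | ⟨s, -, rfl⟩ | ⟨s, rfl⟩
    exacts [mem_insert _ _, mem_insert_of_mem _ (pair_mem_prod.2 ⟨nat_mem_omega _,
      mem_DD.2 ⟨s, rfl⟩⟩), mem_insert_of_mem _ (pair_mem_prod.2 ⟨nat_mem_omega _,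
      mem_DD.2 ⟨s, rfl⟩⟩)]
  obtain ⟨W, hW, w1⟩ := G.zf.powerSet XB hXB
  have := InM.mk hW
  let τ : ZFSet.{u} → ZFSet.{u} := fun n => W.sep fun V => V ⊆ XX ρ G.y n ∧
    ∀ x ∈ V, ∃ k ∈ omega, ∀ y ∈ XX ρ G.y n, Bs n k x y → y ∈ V
  have i1 : ∀ n, Ind G.N (XX ρ G.y (nat n)) (τ (nat n)) (Bs (nat n)) := fun n V => by
    simp only [τ, mem_sep, exists_omega]
    exact and_congr_left fun h => ⟨mem_of_mem hW, fun a => w1 V a (h.1.trans (sXB n))⟩
  have i2 : ∀ n, QMetrizable G.N (XX ρ G.y (nat n)) (τ (nat n)) ∧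
      ∀ x ∈ XX ρ G.y (nat n), ∀ k, ∃ V ∈ τ (nat n), x ∈ V ∧ ∀ y ∈ V, Bs (nat n) (nat k) x y := by
    intro n
    obtain ⟨c, hc⟩ := G.chain_real he hA (S := ∅) n.lt_succ_self.ne nofun (e := id) strictMono_id
      (fun u => u.le_add_right 2) 0 0 fun _ _ => true
    have ha : (G.w ρ (c 0) (c 0)).m = n := by rw [(hc 0 le_rfl).2.1 0 le_rfl]; rfl
    have := InM.mk (G.l_mem (c 0))
    have d : Df G.N fun e => Gr ρ G.y (Qr ρ G.y (G.l (c 0)) (nat n)) (nat n) (e 0) (e 1) (e 2) := by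
      unfold Gr Qr Vv; infer_instance
    have m := (dX fun _ => nat n).mem'
    refine ⟨qm_of_ind t2 m _ (G.sc_gr ρ hw ha) (G.ind_gr ρ (i1 n)), fun x hx k => ?_⟩
    refine ((cp_iff.1 (cp_of_ind m _ (G.sc_gr ρ hw ha) (G.ind_gr ρ (i1 n)))).2.1 x hx k).imp
      fun V b => ⟨b.1, b.2.1, fun y hy => (G.gr_iff ρ).2 (((G.gr_iff ρ).1 (b.2.2 y hy)).imp_right
        fun ⟨t, b, c, s, d⟩ => ⟨t, b, c, s, d.imp_left fun e => ⟨e.1, e.2.1, trivial⟩⟩)⟩
  have hX := (inferInstance : Tm G.N fun _ => img (fun n => pair n (XX ρ G.y n)) omega).mem'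
  have hT : img (fun n => pair n (τ n)) omega ∈ G.N :=
    Tm.mem' (t := fun _ => _) (by simp only [τ]; infer_instance)
  have fX := isFamily_img omega (XX ρ G.y)
  have fT := isFamily_img omega τ
  obtain ⟨P, hP, p0⟩ := exists_prod G.zf.powerSet omega_mem hX fX
  obtain ⟨θ, hθ, p1⟩ := exists_prodTop G.zf.powerSet hT hP
  obtain ⟨E, hE, e1, e2⟩ := (H omega omega_mem ⟨_,
    (inferInstance : Tm G.N fun _ => img (fun n => pair n n) omega).mem', ⟨fun z hz => by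
      obtain ⟨n, a, rfl⟩ := mem_img.1 hz
      exact pair_mem_prod.2 ⟨a, a⟩, (isFamily_img omega id).choose_spec.2⟩, fun i j n a b => by
      simp only [mem_img, pair_inj] at a b
      obtain ⟨_, -, rfl, rfl⟩ := a
      obtain ⟨_, -, rfl, rfl⟩ := b
      rfl⟩ _ hX _ hT fX fT (fun j Z t a b => by
      obtain ⟨c, rfl⟩ := fX.iff.1 a
      rw [(fT.iff.1 b).2, app_img _ c, app_img _ c]
      obtain ⟨n, rfl⟩ := mem_omega_iff.1 c
      exact (i2 n).1) P hP θ hθ p0 p1).cp t1 hP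
  have := InM.mk hE
  have := InM.mk hP
  obtain ⟨F, hF, -, f1⟩ := exists_pairSep (M := G.N) (fun p y => y ∈ XX ρ G.y (fst p) ∧
    pair (fst (snd p)) (pair (sl (fst p) (snd (snd p))) (sl (fst p) y)) ∈ E)
    (prod_mem omega_mem (prod_mem omega_mem hXB)) hXB
  obtain ⟨C, hC, -, f2⟩ := exists_pairSep (M := G.N) (fun p y => y ∈ XX ρ G.y (fst p) ∧
    Bs (fst p) (fst (snd p)) (snd (snd p)) y) (prod_mem omega_mem (prod_mem omega_mem hXB)) hXB
  obtain ⟨S1, s1⟩ := G.names F hF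
  obtain ⟨S2, s2⟩ := G.names C hC
  replace s1 := s1 (S1 ∪ S2) id fun s hs => ⟨s, Finset.mem_union_left _ hs, rfl⟩
  replace s2 := s2 (S1 ∪ S2) id fun s hs => ⟨s, Finset.mem_union_right _ hs, rfl⟩
  generalize S1 ∪ S2 = S at s1 s2
  obtain ⟨n, hn⟩ : ∃ n, ∀ s ∈ S, (G.w ρ s s).m ≠ n ∧ (G.w ρ s s).so ≠ n + 1 :=
    ⟨(S.sup fun s => (G.w ρ s s).m + (G.w ρ s s).so) + 1, fun s hs => by
      have := Finset.le_sup (f := fun s => (G.w ρ s s).m + (G.w ρ s s).so) hs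
      constructor <;> omega⟩
  set Z := XX ρ G.y (nat n)
  replace f1 : ∀ k, ∀ x ∈ Z, ∀ y, pair (pair (nat n) (pair (nat k) x)) y ∈ F ↔
      y ∈ Z ∧ Rel E (nat k) (sl (nat n) x) (sl (nat n) y) := fun k x hx y => by
    simp only [f1, pair_mem_prod, nat_mem_omega, sXB n hx, true_and, fst_pair, snd_pair]
    exact and_iff_right_of_imp fun h => sXB n h.1
  replace f2 : ∀ k, ∀ x ∈ Z, ∀ y, pair (pair (nat n) (pair (nat k) x)) y ∈ C ↔
      y ∈ Z ∧ Bs (nat n) (nat k) x y := fun k x hx y => by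
    simp only [f2, pair_mem_prod, nat_mem_omega, sXB n hx, true_and, fst_pair, snd_pair]
    exact and_iff_right_of_imp fun h => sXB n h.1
  have fs : ∀ x j z, pair j z ∈ sl (nat n) x ↔ j ∈ omega ∧ (j = nat n ∧ z = x ∨
      j ≠ nat n ∧ z = ∅) := fun x j z => by
    rw [sl, (isFamily_img _ _).iff]
    refine and_congr_right fun hj => ?_
    rw [app_img _ hj]
    split_ifs with h <;> simp [h]
  have sP : ∀ x ∈ Z, sl (nat n) x ∈ P := fun x hx => by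
    have := InM.mk (mem_of_mem hXB (sXB n hx))
    refine (p0 _).2 ⟨(inferInstance : Tm G.N fun _ => sl (nat n) x).mem', isFamily_img _ _,
      fun j Y z a b => ?_⟩
    obtain ⟨c, rfl⟩ := fX.iff.1 a
    rw [app_img _ c]
    rcases ((fs _ _ _).1 b).2 with ⟨rfl, rfl⟩ | ⟨-, rfl⟩
    exacts [hx, mem_insert _ _]
  have a1 : ∀ x ∈ Z, ∀ k, ∃ m, Sb C F (nat n) (nat m) (nat k) x := by
    intro x hx k
    obtain ⟨V, b1, b2, b3⟩ := (cp_iff.1 e2).2.1 _ (sP x hx) k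
    obtain ⟨T, c1, c2, c3⟩ := ((p1 V).1 b1).2.2 _ b2
    have : ∀ p ∈ T, ∀ᶠ m in atTop, ∀ y ∈ Z, Bs (nat n) (nat m) x y →
        ∀ z, pair p.1 z ∈ sl (nat n) y → z ∈ p.2 := by
      intro p hp
      obtain ⟨⟨t, d1, d2⟩, d3⟩ := c2 p hp
      by_cases h : p.1 = nat n
      · rw [(fT.iff.1 d1).2, app_img _ (fT.iff.1 d1).1, h] at d2
        obtain ⟨m, hm⟩ := ((i1 n _).1 d2).2.2 x (d3 x ((fs _ _ _).2
          ⟨h ▸ nat_mem_omega n, Or.inl ⟨h, rfl⟩⟩))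
        filter_upwards [eventually_ge_atTop m] with l hl y hy d4 z hz
        rw [(((fs _ _ _).1 hz).2.resolve_right fun h' => h'.1 h).2]
        exact hm y hy ((G.gr_iff ρ).2 (((G.gr_iff ρ).1 d4).imp_right fun ⟨t, b, c, s, d⟩ =>
          ⟨t, b, c, s, d.imp (fun e => ⟨e.1, e.2.1.le hl, trivial⟩)
            fun e => ⟨e.1, by have := e.2; omega⟩⟩))
      · exact .of_forall fun _ y _ _ z hz => d3 z ((fs _ _ _).2 (((fs _ _ _).1 hz).imp_right
          fun h' => Or.inr (h'.resolve_left fun h'' => h h''.1)))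
    obtain ⟨m, hm⟩ := ((eventually_all_finite c1).2 this).exists
    refine ⟨m, fun y => ?_⟩
    rw [f1 k x hx, f2 m x hx]
    exact fun ⟨d1, d2⟩ => ⟨d1, b3 _ (c3 _ (sP y d1) fun p hp => hm p hp y d1 d2)⟩
  have a2 : ∀ x ∈ Z, ∀ k, ∃ m, Sb F C (nat n) (nat m) (nat k) x := by
    intro x hx k
    obtain ⟨V, b1, b2, b3⟩ := (i2 n).2 x hx k
    have := InM.mk ((i1 n _).1 b1).1
    obtain ⟨m, hm⟩ := (cp_iff.1 e2).1 _ ((p1 _).2 ⟨sep_mem (fun f => ∀ z, pair (nat n) z ∈ f →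
      z ∈ V) hP, sep_subset, fun f hf => ⟨{(nat n, V)}, Set.finite_singleton _,
      forall_eq.2 ⟨⟨_, mem_img.2 ⟨_, nat_mem_omega n, rfl⟩, b1⟩, (mem_sep.1 hf).2⟩,
      fun g hg h => mem_sep.2 ⟨hg, h _ rfl⟩⟩⟩) _ (mem_sep.2 ⟨sP x hx, fun z hz =>
        (((fs _ _ _).1 hz).2.resolve_right fun h => h.1 rfl).2 ▸ b2⟩)
    refine ⟨m, fun y => ?_⟩
    rw [f1 m x hx, f2 k x hx]
    exact fun ⟨d1, d2⟩ => ⟨d1, b3 _ ((mem_sep.1 (hm _ (sP y d1) d2)).2 y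
      ((fs _ _ _).2 ⟨nat_mem_omega n, Or.inl ⟨rfl, rfl⟩⟩))⟩
  have z1 : ∀ s, G.p 1 s ∈ Z := fun s => (G.mem_XX ρ).2 (Or.inr (Or.inr ⟨s, rfl⟩))
  have z0 : ∀ s, (G.w ρ s s).so = n → G.p 0 s ∈ Z := fun s h =>
    (G.mem_XX ρ).2 (Or.inr (Or.inl ⟨s, h, rfl⟩))
  have pt : ∀ j, ∃ x, G.Pt S (enc (dDiag j n (n + 1))) (enc dNil) x ∧ (G.w ρ x x).so = n := by
    intro j
    obtain ⟨c, hc⟩ := G.chain_real he hA n.succ_ne_self hn (g := (· + j)) (e := fun _ => 0)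
      (strictMono_id.add_const j) (fun _ => Nat.zero_le _) 1 0 fun _ _ => true
    exact ⟨c 1, by simpa [chain0] using (hc 1 le_rfl).1, by rw [(hc 1 le_rfl).2.1 1 le_rfl]; rfl⟩
  choose x x1 x2 using pt
  obtain ⟨s0, b0⟩ := a2 _ (z1 (x 0)) 1
  obtain ⟨m, b1⟩ := a1 _ (z1 (x 0)) (s0 + 1)
  obtain ⟨L0, l0⟩ := G.pt_cont s1 s2 _ _ _ _ (x1 0) b0
  obtain ⟨L1, l1⟩ := G.pt_cont s2 s1 _ _ _ _ (x1 0) b1
  choose φ b2 using fun j => a1 _ (z0 _ (x2 j)) (s0 + 1 + 2 * m)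
  choose L l2 using fun j => G.pt_cont s2 s1 _ _ _ _ (x1 j) (b2 j)
  let g : ℕ → ℕ := fun u => Nat.rec 0 (fun _ j => φ j + j + 1) u
  have hg : ∀ u, g (u + 1) = φ (g u) + g u + 1 := fun _ => rfl
  obtain ⟨c, hc⟩ := G.chain_real he hA n.succ_ne_self hn (g := g) (e := fun u => φ (g (u + 1)) + 1)
    (strictMono_nat_of_lt_succ fun u => by rw [hg]; omega) (fun u => by rw [hg (u + 1)]; omega)
    (2 * m + 1) (L0 + L1 + (Finset.range (2 * m + 1)).sup fun u => L (g u))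
    fun u => G.y.2 (x (if u = 0 then 0 else g (u - 1)))
  have so : ∀ u ≤ 2 * m, (G.w ρ (c (u + 1)) (c (u + 1))).so = n := fun u hu => by
    rw [(hc _ (by omega)).2.1 _ (by omega)]; simp [chain0, dDiag]
  have hh : ∀ u ≤ 2 * m, ht (G.w ρ) (c 0) (c (u + 1)) = u := fun u hu => by
    rw [ht, (hc _ (by omega)).2.1 _ (by omega), (hc _ (by omega)).2.1 _ (by omega)]
    simp [chain0, dDiag, dH, pot]
  have st : ∀ t ≤ 2 * m, Rel E (nat (s0 + 1 + 2 * m - t)) (sl (nat n) (G.p 0 (c (2 * m + 1))))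
      (sl (nat n) (G.p 0 (c (2 * m - t + 1)))) := by
    intro t
    induction t with
    | zero => exact fun _ => e1.refl _ (sP _ (z0 _ (so _ le_rfl)))
    | succ t ih =>
      intro ht
      obtain ⟨u, hu⟩ : ∃ u, 2 * m - (t + 1) = u := ⟨_, rfl⟩
      have k1 := ih (by omega)
      rw [show 2 * m - t = u + 1 by omega,
        show s0 + 1 + 2 * m - t = s0 + 1 + 2 * m - (t + 1) + 1 by omega] at k1
      have y0 := z0 _ (so u (by omega))
      have y1 := z0 _ (so (u + 1) (by omega))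
      have k2 := l2 (g (u + 1)) (c (u + 2)) (by simpa [chain0] using (hc (u + 2) (by omega)).1)
        (fun k hk => by
          have := Finset.le_sup (f := fun u => L (g u))
            (Finset.mem_range.2 (show u + 1 < 2 * m + 1 by omega))
          simpa using (hc (u + 2) (by omega)).2.2 k (by omega)) (G.p 0 (c (u + 1)))
        ((f2 _ _ y1 _).2 ⟨y0, (G.gr_iff ρ).2 (Or.inr ⟨_, so u (by omega), rfl, _, Or.inl ⟨rfl,
          Or.inr (by
            rw [(hc _ (by omega)).2.1 _ (by omega)]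
            simp [chain0, dC]), trivial⟩⟩)⟩)
      rw [hu]
      exact e1.half (sP _ (z0 _ (so _ le_rfl))) (sP _ y1) (sP _ y0) k1
        (e1.mono (sP _ y1) (sP _ y0) (by omega) ((f1 _ _ y1 _).1 k2).2)
  have c0 : G.Pt S (enc (dDiag 0 n (n + 1))) (enc dNil) (c 0) := by
    simpa [chain0] using (hc 0 (by omega)).1
  have k1 := l1 _ c0 (fun k hk => by simpa using (hc 0 (by omega)).2.2 k (by omega)) _
    ((f2 _ _ (z1 _) _).2 ⟨z0 _ (so _ le_rfl), (G.gr_iff ρ).2 (Or.inr ⟨_, so _ le_rfl, rfl, _,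
      Or.inr ⟨rfl, (hh _ le_rfl).ge⟩⟩)⟩)
  have k2 := st _ le_rfl
  rw [Nat.add_sub_cancel, Nat.sub_self] at k2
  have y0 := z0 _ (so 0 (by omega))
  have k3 := l0 _ c0 (fun k hk => by simpa using (hc 0 (by omega)).2.2 k (by omega)) _
    ((f1 _ _ (z1 _) _).2 ⟨y0, e1.half (sP _ (z1 _)) (sP _ (z0 _ (so _ le_rfl))) (sP _ y0)
      ((f1 _ _ (z1 _) _).1 k1).2 k2⟩)
  simpa [G.p_inj, hh 0 (by omega)] using (G.gr_iff ρ).1 ((f2 _ _ (z1 _) _).1 k3).2

end GM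

end Pool.Agent.P.MP_68237a_lc
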