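import Mathlib.Analysis.SpecificLimits.Basic
import Pool.Agent.P.MP_68237a_lc.Defs
import Pool.Agent.P.MP_68237a_lc.Ctm2
import Pool.Agent.P.MP_68237a_lc.Terms

/-!
Quasi-metrics and scales of entourages inside a transitive model of ZF.
-/

universe u

set_option synthInstance.maxSize 16384

namespace Pool.Agent.P.MP_68237a_lc

open ZFSet Pool.Agent.Lib.Forcing

theorem forall_omega {p : ZFSet.{u} → Prop} : (∀ k ∈ omega, p k) ↔ ∀ n, p (nat n) :=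
  ⟨fun h n => h _ (nat_mem_omega n), fun h k hk => by
    obtain ⟨n, rfl⟩ := mem_omega_iff.1 hk; exact h n⟩

theorem exists_omega {p : ZFSet.{u} → Prop} : (∃ k ∈ omega, p k) ↔ ∃ n, p (nat n) :=
  ⟨fun ⟨k, hk, h⟩ => by obtain ⟨n, rfl⟩ := mem_omega_iff.1 hk; exact ⟨n, h⟩,
    fun ⟨n, h⟩ => ⟨_, nat_mem_omega n, h⟩⟩

abbrev R3 := ZFSet.{u} → ZFSet.{u} → ZFSet.{u} → Prop

def Rel (E : ZFSet.{u}) : R3.{u} := fun k x y => pair k (pair x y) ∈ E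

def R3.inv (R : R3.{u}) : R3.{u} := fun k x y => R k y x

/-- A separated scale of entourages on `Z`. -/
def Sc (w Z : ZFSet.{u}) (R : R3.{u}) : Prop :=
  (∀ k ∈ w, ∀ x ∈ Z, R k x x) ∧ (∀ k ∈ w, ∀ x ∈ Z, ∀ y ∈ Z, ∀ z ∈ Z,
    R (insert k k) x y → R (insert k k) y z → R k x z) ∧
    ∀ x ∈ Z, ∀ y ∈ Z, (∀ k ∈ w, R k x y) → x = y

/-- The balls of the scale form neighbourhood bases for `τ`. -/
def Cp (w Z τ : ZFSet.{u}) (R : R3.{u}) : Prop :=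
  (∀ V ∈ τ, ∀ x ∈ V, ∃ k ∈ w, ∀ y ∈ Z, R k x y → y ∈ V) ∧
    (∀ x ∈ Z, ∀ k ∈ w, ∃ V ∈ τ, x ∈ V ∧ ∀ y ∈ V, R k x y) ∧ ∀ V ∈ τ, V ⊆ Z

def Full (w Z τ₁ τ₂ : ZFSet.{u}) (R : R3.{u}) : Prop :=
  Sc w Z R ∧ Cp w Z τ₁ R ∧ Cp w Z τ₂ R.inv

def Ind (N : Set ZFSet.{u}) (Z τ : ZFSet.{u}) (R : R3.{u}) : Prop :=
  ∀ V, V ∈ τ ↔ V ∈ N ∧ V ⊆ Z ∧ ∀ x ∈ V, ∃ n : ℕ, ∀ y ∈ Z, R (nat n) x y → y ∈ V

section
variable {Z τ x y z : ZFSet.{u}} {R R' : R3.{u}} {k m : ℕ}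

theorem sc_iff : Sc omega Z R ↔ (∀ k, ∀ x ∈ Z, R (nat k) x x) ∧ (∀ k, ∀ x ∈ Z, ∀ y ∈ Z, ∀ z ∈ Z,
    R (nat (k + 1)) x y → R (nat (k + 1)) y z → R (nat k) x z) ∧
    ∀ x ∈ Z, ∀ y ∈ Z, (∀ k, R (nat k) x y) → x = y := by
  simp only [Sc, forall_omega]; rfl

theorem cp_iff : Cp omega Z τ R ↔ (∀ V ∈ τ, ∀ x ∈ V, ∃ k, ∀ y ∈ Z, R (nat k) x y → y ∈ V) ∧
    (∀ x ∈ Z, ∀ k, ∃ V ∈ τ, x ∈ V ∧ ∀ y ∈ V, R (nat k) x y) ∧ ∀ V ∈ τ, V ⊆ Z := by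
  simp only [Cp, forall_omega, exists_omega]

theorem Sc.refl (h : Sc omega Z R) (k : ℕ) (hx : x ∈ Z) : R (nat k) x x := (sc_iff.1 h).1 k x hx

theorem Sc.half (h : Sc omega Z R) (hx : x ∈ Z) (hy : y ∈ Z) (hz : z ∈ Z)
    (a : R (nat (k + 1)) x y) (b : R (nat (k + 1)) y z) : R (nat k) x z :=
  (sc_iff.1 h).2.1 k x hx y hy z hz a b

theorem Sc.mono (h : Sc omega Z R) (hx : x ∈ Z) (hy : y ∈ Z) (hk : k ≤ m)
    (a : R (nat m) x y) : R (nat k) x y := by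
  induction hk with
  | refl => exact a
  | step _ ih => exact ih (h.half hx hy hy a (h.refl _ hy))

theorem Sc.three (h : Sc omega Z R) {w : ZFSet.{u}} (hx : x ∈ Z) (hy : y ∈ Z) (hz : z ∈ Z)
    (hw : w ∈ Z) (a : R (nat (k + 2)) x y) (b : R (nat (k + 2)) y z) (c : R (nat (k + 2)) z w) :
    R (nat k) x w :=
  h.half hx hz hw (h.half hx hy hz a b) (h.mono hz hw (Nat.le_succ _) c)

theorem Sc.inv (h : Sc omega Z R) : Sc omega Z R.inv :=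
  ⟨h.1, fun k hk x hx y hy z hz a b => h.2.1 k hk z hz y hy x hx b a,
    fun x hx y hy a => (h.2.2 y hy x hx a).symm⟩

theorem Cp.cof (h : Cp omega Z τ R) (h' : Cp omega Z τ R') (hx : x ∈ Z) (k : ℕ) :
    ∃ m, ∀ y ∈ Z, R (nat m) x y → R' (nat k) x y := by
  obtain ⟨V, a, b, c⟩ := (cp_iff.1 h').2.1 x hx k
  obtain ⟨m, d⟩ := (cp_iff.1 h).1 V a x b
  exact ⟨m, fun y hy e => c y (d y hy e)⟩

theorem Cp.congr (h : Cp omega Z τ R)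
    (h1 : ∀ x ∈ Z, ∀ k, ∃ m, ∀ y ∈ Z, R (nat m) x y → R' (nat k) x y)
    (h2 : ∀ x ∈ Z, ∀ k, ∃ m, ∀ y ∈ Z, R' (nat m) x y → R (nat k) x y) : Cp omega Z τ R' := by
  obtain ⟨a, b, c⟩ := cp_iff.1 h
  refine cp_iff.2 ⟨fun V hV x hx => ?_, fun x hx k => ?_, c⟩
  · obtain ⟨k, d⟩ := a V hV x hx
    exact (h2 x (c V hV hx) k).imp fun m e y hy f => d y hy (e y hy f)
  · obtain ⟨m, d⟩ := h1 x hx k
    exact (b x hx m).imp fun V e => ⟨e.1, e.2.1, fun y hy => d y (c V e.1 hy) (e.2.2 y hy)⟩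

theorem Ind.congr {N : Set ZFSet.{u}} (h : Ind N Z τ R)
    (h1 : ∀ x ∈ Z, ∀ k, ∃ m, ∀ y ∈ Z, R (nat m) x y → R' (nat k) x y)
    (h2 : ∀ x ∈ Z, ∀ k, ∃ m, ∀ y ∈ Z, R' (nat m) x y → R (nat k) x y) : Ind N Z τ R' := by
  refine fun V => (h V).trans (and_congr_right fun _ => and_congr_right fun hV =>
    forall₂_congr fun x hx => ⟨fun ⟨n, a⟩ => ?_, fun ⟨n, a⟩ => ?_⟩)
  exacts [(h2 x (hV hx) n).imp fun m b y hy c => a y hy (b y hy c),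
    (h1 x (hV hx) n).imp fun m b y hy c => a y hy (b y hy c)]

end

theorem pair_mem_cut {r : ℝ} {m n : ℕ} :
    pair (nat.{u} m) (nat n) ∈ cut r ↔ r < (m : ℝ) / (n + 1) := by
  simp [cut, nat_mem_omega, nat_inj]

noncomputable def PwT : ZFSet.{u} :=
  HF.sep fun z => ∃ k, z = pair (nat k) (pair (nat 1) (nat (2 ^ k - 1)))

noncomputable def StT : ZFSet.{u} :=
  HF.sep fun z => ∃ m n k m' n' : ℕ, z = pair (pair (nat m) (nat n)) (pair (nat k)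
    (pair (nat m') (nat n'))) ∧ (m : ℝ) / (n + 1) + 1 / 2 ^ (k / 2) ≤ m' / (n' + 1)

theorem exists_pow_le {r : ℝ} (h : 0 < r) : ∃ n : ℕ, 1 / 2 ^ n < r := by
  obtain ⟨n, hn⟩ := exists_pow_lt_of_lt_one h (show (1 / 2 : ℝ) < 1 by norm_num)
  exact ⟨n, by simpa using hn⟩

variable {N : Set ZFSet.{u}} [ZFm N]

theorem exists_balls (hP : PwT ∈ N) {Z d : ZFSet.{u}} {ρ : ZFSet.{u} → ZFSet.{u} → ℝ} (hZ : Z ∈ N)
    (hd : d ∈ N) (h : IsQM Z d ρ) : ∃ E ∈ N, Sc omega Z (Rel E) ∧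
      ∀ k : ℕ, ∀ x ∈ Z, ∀ y ∈ Z, (Rel E (nat k) x y ↔ ρ x y < 1 / 2 ^ k) := by
  have := InM.mk hP
  have := InM.mk hd
  obtain ⟨E, hE, -, H⟩ := exists_pairSep (M := N)
    (fun k p => ∃ w, pair p w ∈ d ∧ ∃ z ∈ w, pair k z ∈ PwT) omega_mem (prod_mem hZ hZ)
  have key : ∀ k : ℕ, ∀ x ∈ Z, ∀ y ∈ Z, (Rel E (nat k) x y ↔ ρ x y < 1 / 2 ^ k) := by
    intro k x hx y hy
    have e : (1 : ℝ) / 2 ^ k = (1 : ℕ) / ((2 ^ k - 1 : ℕ) + 1) := by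
      rw [← Nat.cast_succ, Nat.succ_eq_add_one, Nat.sub_add_cancel Nat.one_le_two_pow]; simp
    rw [Rel, H, e, ← pair_mem_cut.{u}]
    constructor
    · rintro ⟨-, -, w, a, z, b, c⟩
      obtain ⟨x', -, y', -, a'⟩ := (h.graph _).1 a
      obtain ⟨k', c'⟩ := (mem_sep.1 c).2
      simp only [pair_inj, nat_inj] at a' c'
      obtain ⟨⟨rfl, rfl⟩, rfl⟩ := a'
      obtain ⟨rfl, rfl⟩ := c'
      exact b
    · exact fun a => ⟨nat_mem_omega k, pair_mem_prod.2 ⟨hx, hy⟩, _,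
        (h.graph _).2 ⟨x, hx, y, hy, rfl⟩, _, a,
        mem_sep.2 ⟨HF_pair (HF_nat _) (HF_pair (HF_nat _) (HF_nat _)), k, rfl⟩⟩
  refine ⟨E, hE, sc_iff.2 ⟨fun k x hx => ?_, fun k x hx y hy z hz => ?_,
    fun x hx y hy a => h.sep x hx y hy ?_⟩, key⟩
  · rw [key k x hx x hx, h.refl x hx]; positivity
  · rw [key _ x hx y hy, key _ y hy z hz, key _ x hx z hz]
    intro a b
    have := h.tri x hx z hz y hy
    have e : (1 : ℝ) / 2 ^ k = 1 / 2 ^ (k + 1) + 1 / 2 ^ (k + 1) := by ring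
    linarith
  · by_contra hc
    obtain ⟨n, hn⟩ := exists_pow_le ((h.nonneg x hx y hy).lt_of_ne' hc)
    exact hn.not_gt ((key n x hx y hy).1 (a n))

omit [ZFm N] in
theorem cp_of_induces {Z τ : ZFSet.{u}} {ρ : ZFSet.{u} → ZFSet.{u} → ℝ} {R : R3.{u}}
    (h : Induces N Z τ ρ) (h0 : ∀ x ∈ Z, ρ x x = 0)
    (ht : ∀ x ∈ Z, ∀ y ∈ Z, ∀ z ∈ Z, ρ x y ≤ ρ x z + ρ z y)
    (hR : ∀ k : ℕ, ∀ x ∈ Z, ∀ y ∈ Z, (R (nat k) x y ↔ ρ x y < 1 / 2 ^ k))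
    (hV : ∀ k, ∀ x ∈ Z, Z.sep (R (nat k) x) ∈ N) : Cp omega Z τ R := by
  refine cp_iff.2 ⟨fun V hV x hx => ?_, fun x hx k => ⟨_, (h _).2 ⟨hV k x hx, sep_subset,
    fun y hy => ?_⟩, mem_sep.2 ⟨hx, ?_⟩, fun y hy => (mem_sep.1 hy).2⟩,
    fun V hV => ((h V).1 hV).2.1⟩
  · obtain ⟨-, a, b⟩ := (h V).1 hV
    exact (b x hx).imp fun n c y hy d => c y hy ((hR n x (a hx) y hy).1 d)
  · obtain ⟨a, b⟩ := mem_sep.1 hy
    obtain ⟨n, hn⟩ := exists_pow_le (sub_pos.2 ((hR k x hx y a).1 b))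
    refine ⟨n, fun z hz c => mem_sep.2 ⟨hz, (hR k x hx z hz).2 ?_⟩⟩
    have := ht x hx z hz y a
    linarith
  · rw [hR k x hx x hx, h0 x hx]; positivity

theorem BiQMetrizable.full (hP : PwT ∈ N) {Z τ₁ τ₂ : ZFSet.{u}} (hZ : Z ∈ N)
    (h : BiQMetrizable N Z τ₁ τ₂) : ∃ E ∈ N, Full omega Z τ₁ τ₂ (Rel E) := by
  obtain ⟨d, hd, ρ, h, h1, h2⟩ := h
  obtain ⟨E, hE, a, b⟩ := exists_balls hP hZ hd h
  have := InM.mk hE
  refine ⟨E, hE, a, cp_of_induces h1 h.refl h.tri b fun k x hx => ?_, cp_of_induces h2 h.refl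
    (fun x hx y hy z hz => add_comm (ρ y z) _ ▸ h.tri y hy x hx z hz)
    (fun k x hx y hy => b k y hy x hx) fun k x hx => ?_⟩
  all_goals have := InM.mk (mem_of_mem hZ hx)
  exacts [sep_mem (fun y => pair (nat k) (pair x y) ∈ E) hZ,
    sep_mem (fun y => pair (nat k) (pair y x) ∈ E) hZ]

theorem QMetrizable.cp (hP : PwT ∈ N) {Z τ : ZFSet.{u}} (hZ : Z ∈ N)
    (h : QMetrizable N Z τ) : ∃ E ∈ N, Sc omega Z (Rel E) ∧ Cp omega Z τ (Rel E) := by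
  obtain ⟨d, hd, ρ, h, h1⟩ := h
  obtain ⟨E, hE, a, b⟩ := exists_balls hP hZ hd h
  have := InM.mk hE
  refine ⟨E, hE, a, cp_of_induces h1 h.refl h.tri b fun k x hx => ?_⟩
  have := InM.mk (mem_of_mem hZ hx)
  exact sep_mem (fun y => pair (nat k) (pair x y) ∈ E) hZ

/-- Chains with their length and weight. -/
inductive Ch (Z : ZFSet.{u}) (R : R3.{u}) (x : ZFSet.{u}) : ℕ → ZFSet.{u} → ℝ → Prop
  | nil : x ∈ Z → Ch Z R x 0 x 0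
  | snoc {n y s z} (k : ℕ) : Ch Z R x n y s → z ∈ Z → (k = 0 ∨ R (nat k) y z) →
      Ch Z R x (n + 1) z (s + 1 / 2 ^ (k / 2))

section
variable {Z x y z : ZFSet.{u}} {R : R3.{u}} {n m : ℕ} {s t : ℝ}

theorem Ch.props (h : Ch Z R x n y s) : x ∈ Z ∧ y ∈ Z ∧ 0 ≤ s ∧ (s = 0 → x = y) := by
  induction h with
  | nil h => exact ⟨h, h, le_rfl, fun _ => rfl⟩
  | @snoc n y s z k _ hz _ ih =>
    have : 0 < s + 1 / 2 ^ (k / 2) := add_pos_of_nonneg_of_pos ih.2.2.1 (by positivity)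
    exact ⟨ih.1, hz, this.le, fun h => (this.ne' h).elim⟩

theorem Ch.append (h : Ch Z R x n y s) (h' : Ch Z R y m z t) : Ch Z R x (n + m) z (s + t) := by
  induction h' with
  | nil _ => simpa using h
  | snoc k _ hz a ih => simpa only [add_assoc] using ih.snoc k hz a

theorem Ch.split (h : Ch Z R x n y s) (h0 : 0 ≤ t) (ht : t < s) :
    ∃ n1 < n, ∃ n2 < n, ∃ p q s1 s2, ∃ k : ℕ, Ch Z R x n1 p s1 ∧ (k = 0 ∨ R (nat k) p q) ∧
      Ch Z R q n2 y s2 ∧ s = s1 + 1 / 2 ^ (k / 2) + s2 ∧ s1 ≤ t ∧ s2 < s - t := by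
  induction h with
  | nil _ => exact (ht.not_ge h0).elim
  | @snoc n y s z k h hz a ih =>
    by_cases hs : t < s
    · obtain ⟨n1, a1, n2, a2, p, q, s1, s2, l, b1, b2, b3, b4, b5, b6⟩ := ih hs
      exact ⟨n1, by omega, n2 + 1, by omega, p, q, s1, _, l, b1, b2, b3.snoc k hz a,
        by linarith, b5, by linarith⟩
    · exact ⟨n, by omega, 0, by omega, y, z, s, 0, k, h, a, .nil hz, by simp, not_lt.1 hs,
        by linarith⟩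

theorem Ch.rel (hR : Sc omega Z R) (n : ℕ) : ∀ {x y s} (j : ℕ), Ch Z R x n y s → s < 1 / 2 ^ j →
    R (nat (2 * j)) x y := by
  induction n using Nat.strong_induction_on with
  | h n ih =>
    intro x y s j h hs
    obtain ⟨hx, hy, h0, h1⟩ := h.props
    rcases h0.eq_or_lt with h0 | h0
    · exact h1 h0.symm ▸ hR.refl _ hx
    obtain ⟨n1, a1, n2, a2, p, q, s1, s2, k, b1, b2, b3, b4, b5, b6⟩ :=
      h.split (t := s / 2) (by linarith) (by linarith)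
    have e : (1 : ℝ) / 2 ^ j = 1 / 2 ^ (j + 1) + 1 / 2 ^ (j + 1) := by ring
    have c : j < k / 2 := by
      have h2 : (1 : ℝ) / 2 ^ (k / 2) < 1 / 2 ^ j := by linarith [b1.props.2.2.1, b3.props.2.2.1]
      rwa [one_div_lt_one_div (by positivity) (by positivity),
        pow_lt_pow_iff_right₀ one_lt_two] at h2
    exact hR.three hx b1.props.2.1 b3.props.1 hy (ih n1 a1 (j + 1) b1 (by linarith))
      (hR.mono b1.props.2.1 b3.props.1 (by omega) (b2.resolve_left (by omega)))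
      (ih n2 a2 (j + 1) b3 (by linarith))

end

theorem exists_frac {a b : ℝ} (h0 : 0 ≤ a) (h : a < b) :
    ∃ m n : ℕ, a < (m : ℝ) / (n + 1) ∧ (m : ℝ) / (n + 1) ≤ b := by
  obtain ⟨q, a1, a2⟩ := exists_rat_btwn h
  have hq : 0 ≤ q.num := Rat.num_nonneg.2 (by exact_mod_cast h0.trans a1.le)
  have e : ((q.num.toNat : ℕ) : ℝ) / ((q.den - 1 : ℕ) + 1) = q := by
    rw [← Nat.cast_succ, Nat.succ_eq_add_one, Nat.sub_add_cancel q.pos, Rat.cast_def,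
      ← Int.cast_natCast, Int.toNat_of_nonneg hq]
  exact ⟨_, _, e ▸ a1, e ▸ a2.le⟩

theorem exists_qm (hS : StT ∈ N) {Z : ZFSet.{u}} (hZ : Z ∈ N) (R : R3.{u})
    [hd : Df N fun e => R (e 0) (e 1) (e 2)] (hR : Sc omega Z R) :
    ∃ d ∈ N, ∃ ρ, IsQM Z d ρ ∧ ∀ k : ℕ, ∀ x ∈ Z, ∀ y ∈ Z,
      (ρ x y < 1 / 2 ^ k → R (nat k) x y) ∧ (R (nat (2 * k + 2)) x y → ρ x y < 1 / 2 ^ k) := by
  have := InM.mk hS
  have := InM.mk hZ
  have hd' : ∀ (s t w : Env.{u} → ZFSet.{u}) [Tm N s] [Tm N t] [Tm N w],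
      Df N (fun e => R (s e) (t e) (w e)) := fun s t w _ _ _ => Df.subst3 hd s t w
  let Ax : ZFSet.{u} → ZFSet.{u} → Prop := fun x z =>
    x ∈ Z ∧ ∃ m ∈ omega, ∃ n ∈ omega, m ≠ ∅ ∧ z = pair x (pair m n)
  let St : ZFSet.{u} → ZFSet.{u} → ZFSet.{u} → ZFSet.{u} → Prop := fun _ z a _ =>
    ∃ y q, a = pair y q ∧ ∃ y' q', z = pair y' q' ∧ y' ∈ Z ∧ ∃ k ∈ omega,
      (k = ∅ ∨ R k y y') ∧ pair q (pair k q') ∈ StT
  have hg := Df.subst2 (R := fun z x => Gen N (Ax x) (St x) z) (@df_gen N _ Ax St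
    (by dsimp only [Ax]; infer_instance) (by dsimp only [St]; infer_instance))
  have key : ∀ x z, Gen N (Ax x) (St x) z ↔ ∃ y, ∃ m n : ℕ, z = pair y (pair (nat m) (nat n)) ∧
      ∃ l s, Ch Z R x l y s ∧ s < (m : ℝ) / (n + 1) := by
    intro x z
    constructor
    · intro h
      induction h with
      | ax _ h =>
        simp only [Ax, exists_omega] at h
        obtain ⟨hx, m, n, a, rfl⟩ := h
        have : m ≠ 0 := fun e => a (e ▸ rfl)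
        exact ⟨x, m, n, rfl, 0, 0, .nil hx, by positivity⟩
      | step _ _ _ h ih _ =>
        obtain ⟨y, m, n, rfl, l, s, a, b⟩ := ih
        simp only [St, exists_omega] at h
        obtain ⟨_, _, e, y', q', rfl, c, k, d, f⟩ := h
        obtain ⟨rfl, rfl⟩ := pair_inj.1 e
        obtain ⟨m1, n1, k1, m', n', f1, f2⟩ := (mem_sep.1 f).2
        simp only [pair_inj, nat_inj] at f1
        obtain ⟨⟨rfl, rfl⟩, rfl, rfl⟩ := f1
        exact ⟨y', m', n', rfl, _, _, a.snoc k c (d.imp_left (nat_inj (n := 0)).1), by linarith⟩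
    · rintro ⟨y, m, n, rfl, l, s, a, b⟩
      induction a generalizing m n with
      | nil hx =>
        refine .ax (pair_mem (mem_of_mem hZ hx) (pair_mem (nat_mem m) (nat_mem n)))
          ⟨hx, _, nat_mem_omega m, _, nat_mem_omega n, fun h => ?_, rfl⟩
        simp [(nat_inj (n := 0)).1 h] at b
      | @snoc l y s z k a hz c ih =>
        obtain ⟨m', n', d, e⟩ := exists_frac a.props.2.2.1 (lt_sub_iff_add_lt.2 b)
        refine .step (pair_mem (mem_of_mem hZ hz) (pair_mem (nat_mem m) (nat_mem n))) (ih _ _ d)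
          (ih _ _ d) ⟨_, _, rfl, _, _, rfl, hz, _, nat_mem_omega k, c.imp_left (congrArg nat),
          mem_sep.2 ⟨HF_pair (HF_pair (HF_nat _) (HF_nat _)) (HF_pair (HF_nat _)
            (HF_pair (HF_nat _) (HF_nat _))), _, _, _, _, _, rfl, by linarith⟩⟩
  let ρ : ZFSet.{u} → ZFSet.{u} → ℝ := fun x y => sInf {s | ∃ l, Ch Z R x l y s}
  have ne : ∀ x ∈ Z, ∀ y ∈ Z, {s | ∃ l, Ch Z R x l y s}.Nonempty := fun x hx y hy =>
    ⟨_, _, (Ch.nil hx).snoc 0 hy (Or.inl rfl)⟩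
  have bd : ∀ x y, BddBelow {s | ∃ l, Ch Z R x l y s} := fun x y =>
    ⟨0, fun s ⟨_, h⟩ => h.props.2.2.1⟩
  have lt : ∀ x ∈ Z, ∀ y ∈ Z, ∀ r, ρ x y < r ↔ ∃ l s, Ch Z R x l y s ∧ s < r := fun x hx y hy r =>
    (csInf_lt_iff (bd x y) (ne x hx y hy)).trans
      ⟨fun ⟨s, ⟨l, a⟩, b⟩ => ⟨l, s, a, b⟩, fun ⟨l, s, a, b⟩ => ⟨s, ⟨l, a⟩, b⟩⟩
  have nn : ∀ x y, 0 ≤ ρ x y := fun x y => Real.sInf_nonneg fun s ⟨_, h⟩ => h.props.2.2.1
  have h1 : ∀ k : ℕ, ∀ x ∈ Z, ∀ y ∈ Z, ρ x y < 1 / 2 ^ k → R (nat k) x y := by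
    intro k x hx y hy h
    obtain ⟨l, s, a, b⟩ := (lt x hx y hy _).1 h
    exact hR.mono hx hy (by omega) (Ch.rel hR l k a b)
  refine ⟨_, (inferInstance : Tm N fun _ => img (fun p => pair p ((omega.prod omega).sep fun q =>
    Gen N (Ax (fst p)) (St (fst p)) (pair (snd p) q))) (Z.prod Z)).mem', ρ,
    ⟨fun z => ?_, fun x _ y _ => nn x y, fun x hx => (nn x x).antisymm' (csInf_le (bd x x)
      ⟨0, .nil hx⟩), fun x hx y hy z hz => ?_, fun x hx y hy h => (sc_iff.1 hR).2.2 x hx y hy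
      fun k => h1 k x hx y hy (by rw [h]; positivity)⟩, fun k x hx y hy => ⟨h1 k x hx y hy,
      fun h => (lt x hx y hy _).2 ⟨_, _, (Ch.nil hx).snoc _ hy (Or.inr h), ?_⟩⟩⟩
  · have e : ∀ x ∈ Z, ∀ y ∈ Z, ((omega.prod omega).sep fun q =>
        Gen N (Ax x) (St x) (pair y q)) = cut (ρ x y) := fun x hx y hy => by
      ext q
      simp only [cut, mem_sep, key, pair_inj, lt x hx y hy, and_assoc, exists_and_left,
        exists_eq_left']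
    simp only [mem_img, mem_prod]
    constructor
    · rintro ⟨_, ⟨x, hx, y, hy, rfl⟩, rfl⟩
      exact ⟨x, hx, y, hy, by rw [fst_pair, snd_pair, e x hx y hy]⟩
    · rintro ⟨x, hx, y, hy, rfl⟩
      exact ⟨_, ⟨x, hx, y, hy, rfl⟩, by rw [fst_pair, snd_pair, e x hx y hy]⟩
  · refine le_of_forall_pos_lt_add fun ε hε => ?_
    obtain ⟨l, s, a, b⟩ := (lt x hx z hz (ρ x z + ε / 2)).1 (by linarith)
    obtain ⟨l', s', a', b'⟩ := (lt z hz y hy (ρ z y + ε / 2)).1 (by linarith)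
    exact (lt x hx y hy _).2 ⟨_, _, a.append a', by linarith⟩
  · rw [zero_add, show (2 * k + 2) / 2 = k + 1 by omega]
    exact one_div_lt_one_div_of_lt (by positivity) (pow_lt_pow_right₀ one_lt_two k.lt_succ_self)

omit [ZFm N] in
theorem Ind.induces {Z τ : ZFSet.{u}} {R : R3.{u}} {ρ : ZFSet.{u} → ZFSet.{u} → ℝ}
    (h : Ind N Z τ R) (H : ∀ k : ℕ, ∀ x ∈ Z, ∀ y ∈ Z,
      (ρ x y < 1 / 2 ^ k → R (nat k) x y) ∧ (R (nat (2 * k + 2)) x y → ρ x y < 1 / 2 ^ k)) :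
    Induces N Z τ ρ :=
  fun V => (h V).trans (and_congr_right fun _ => and_congr_right fun hV =>
    forall₂_congr fun x hx => ⟨fun ⟨n, a⟩ => ⟨n, fun y hy b => a y hy ((H n x (hV hx) y hy).1 b)⟩,
      fun ⟨n, a⟩ => ⟨_, fun y hy b => a y hy ((H n x (hV hx) y hy).2 b)⟩⟩)

theorem qm_of_ind (hS : StT ∈ N) {Z τ : ZFSet.{u}} (hZ : Z ∈ N) (R : R3.{u})
    [Df N fun e => R (e 0) (e 1) (e 2)] (hR : Sc omega Z R) (h : Ind N Z τ R) :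
    QMetrizable N Z τ := by
  obtain ⟨d, hd, ρ, a, b⟩ := exists_qm hS hZ R hR
  exact ⟨d, hd, ρ, a, h.induces b⟩

theorem biqm_of_ind (hS : StT ∈ N) {Z τ₁ τ₂ : ZFSet.{u}} (hZ : Z ∈ N) (R : R3.{u})
    [Df N fun e => R (e 0) (e 1) (e 2)] (hR : Sc omega Z R) (h : Ind N Z τ₁ R)
    (h' : Ind N Z τ₂ R.inv) : BiQMetrizable N Z τ₁ τ₂ := by
  obtain ⟨d, hd, ρ, a, b⟩ := exists_qm hS hZ R hR
  exact ⟨d, hd, ρ, a, h.induces b, h'.induces fun k x hx y hy => b k y hy x hx⟩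

end Pool.Agent.P.MP_68237a_lc
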