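import Mathlib.Topology.Baire.BaireMeasurable
import Mathlib.Topology.Baire.CompleteMetrizable
import Mathlib.Topology.MetricSpace.Polish
import Mathlib.Topology.Metrizable.CompletelyMetrizable
import Mathlib.Logic.Equiv.Fintype
import Pool.Agent.P.MP_68237a_lc.Chain

/-!
The Polish space of labelled structures on `ℕ` and its comeagre sets.
-/

namespace Pool.Agent.P.MP_68237a_lc

open Filter Topology

abbrev Raw := (ℕ → ℕ → ℕ) × (ℕ → ℕ → Bool)

def Agree (n : ℕ) (x y : Raw) : Prop := ∀ s < n, ∀ t < n, x.1 s t = y.1 s t ∧ x.2 s t = y.2 s t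

theorem isOpen_agree (n : ℕ) (x : Raw) : IsOpen {y | Agree n x y} := by
  have : {y | Agree n x y} = ⋂ s ∈ Finset.range n, ⋂ t ∈ Finset.range n,
      (fun y : Raw => (y.1 s t, y.2 s t)) ⁻¹' {(x.1 s t, x.2 s t)} := by
    ext y; simp [Agree, eq_comm]
  rw [this]
  exact isOpen_biInter_finset fun s _ => isOpen_biInter_finset fun t _ =>
    (isOpen_discrete _).preimage (by fun_prop)

theorem isOpen_iff_agree' {O : Set Raw} :
    IsOpen O ↔ ∀ x ∈ O, ∃ n, ∀ y, Agree n x y → y ∈ O := by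
  constructor
  · intro hO x hx
    by_contra! h
    choose y hy hy' using h
    have : Tendsto y atTop (𝓝 x) := by
      rw [Prod.tendsto_iff]
      constructor <;> refine tendsto_pi_nhds.2 fun s => tendsto_pi_nhds.2 fun t =>
        tendsto_const_nhds.congr' ((eventually_gt_atTop (max s t)).mono fun n hn => ?_)
      exacts [(hy n s (lt_of_le_of_lt (le_max_left _ _) hn) t
        (lt_of_le_of_lt (le_max_right _ _) hn)).1, (hy n s (lt_of_le_of_lt (le_max_left _ _) hn) t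
        (lt_of_le_of_lt (le_max_right _ _) hn)).2]
    obtain ⟨n, hn⟩ := (this.eventually (hO.mem_nhds hx)).exists
    exact hy' n hn
  · intro h
    refine isOpen_iff_mem_nhds.2 fun x hx => ?_
    obtain ⟨n, hn⟩ := h x hx
    exact mem_of_superset ((isOpen_agree n x).mem_nhds fun _ _ _ _ => ⟨rfl, rfl⟩) hn

theorem lt_sup_succ {D : Finset ℕ} {s : ℕ} (hs : s ∈ D) : s < D.sup id + 1 :=
  Nat.lt_succ_of_le (Finset.le_sup (f := id) hs)

variable {A : Amalg}

theorem Amalg.congr {D D' : Finset ℕ} {w w' : ℕ → ℕ → ℕ} (h : A.Adm D' w') (hD : D ⊆ D')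
    (hw : ∀ s ∈ D, ∀ t ∈ D, w s t = w' s t) : A.Adm D w :=
  A.pull (U := id) h (Set.injOn_id _) hD hw

theorem Amalg.amal {E0 D E : Finset ℕ} {s q : ℕ → ℕ → ℕ} (h0 : E0 ⊆ D) (hd : Disjoint D E)
    (hs : A.Adm D s) (hq : A.Adm (E0 ∪ E) q) (h : ∀ x ∈ E0, ∀ y ∈ E0, s x y = q x y) :
    ∃ w, A.Adm (D ∪ E) w ∧ (∀ x ∈ D, ∀ y ∈ D, w x y = s x y) ∧
      ∀ x ∈ E0 ∪ E, ∀ y ∈ E0 ∪ E, w x y = q x y := by
  obtain ⟨w, a, b, c, -⟩ := A.tg_ex (s := s) h0 h0 (by simpa) (by simpa) hq h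
  exact ⟨w, by simpa using a, by simpa using b, c⟩

theorem Amalg.total {K : Finset ℕ} {w : ℕ → ℕ → ℕ} (h : A.Adm K w) :
    ∃ w', (∀ D, A.Adm D w') ∧ ∀ s ∈ K, ∀ t ∈ K, w' s t = w s t := by
  have step : ∀ (D : Finset ℕ) (w) (t : ℕ), A.Adm D w →
      ∃ w', A.Adm (insert t D) w' ∧ ∀ x ∈ D, ∀ y ∈ D, w' x y = w x y := by
    intro D w t h
    by_cases ht : t ∈ D
    · exact ⟨w, by rwa [Finset.insert_eq_of_mem ht], fun _ _ _ _ => rfl⟩
    · obtain ⟨c, hc⟩ := A.pt
      obtain ⟨w', a, b, -⟩ := A.amal (E := {t}) (Finset.empty_subset D) (by simpa) h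
        (by simpa using hc t) (by simp)
      exact ⟨w', by simpa [Finset.union_comm] using a, b⟩
  choose! f hf hf' using step
  let W : ℕ → ℕ → ℕ → ℕ := fun n => Nat.rec w (fun n w => f (K ∪ Finset.range n) w n) n
  have hW : ∀ n, A.Adm (K ∪ Finset.range n) (W n) := by
    intro n
    induction n with
    | zero => simpa [W] using h
    | succ n ih => simpa [Finset.range_add_one] using hf _ _ n ih
  have hm : ∀ n m, n ≤ m → ∀ x ∈ K ∪ Finset.range n, ∀ y ∈ K ∪ Finset.range n,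
      W m x y = W n x y := by
    intro n m hnm x hx y hy
    induction hnm with
    | refl => rfl
    | @step m hnm ih =>
      have := Finset.union_subset_union_right (s := K) (Finset.range_mono hnm)
      exact (hf' _ _ m (hW m) x (this hx) y (this hy)).trans ih
  have key : ∀ n, ∀ x ∈ K ∪ Finset.range n, ∀ y ∈ K ∪ Finset.range n,
      W (max x y + 1) x y = W n x y := fun n x hx y hy =>
    (hm _ (max (max x y + 1) n) (le_max_left _ _) x (by simp) y (by simp)).symm.trans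
      (hm _ _ (le_max_right _ _) x hx y hy)
  refine ⟨fun x y => W (max x y + 1) x y, fun D => ?_, fun s hs t ht =>
    key 0 s (by simpa) t (by simpa)⟩
  have : D ⊆ K ∪ Finset.range (D.sup id + 1) := fun s hs =>
    Finset.mem_union_right _ (Finset.mem_range.2 (lt_sup_succ hs))
  exact A.congr (hW _) this fun s hs t ht => key _ s (this hs) t (this ht)

/-- The space of labelled admissible structures. -/
def Sp (A : Amalg) : Type := {x : Raw // ∀ D, A.Adm D x.1}

instance : TopologicalSpace (Sp A) := instTopologicalSpaceSubtype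

theorem isClosed_sp (A : Amalg) : IsClosed {x : Raw | ∀ D, A.Adm D x.1} := by
  rw [← isOpen_compl_iff, isOpen_iff_agree']
  intro x hx
  simp only [Set.mem_compl_iff, Set.mem_setOf_eq, not_forall] at hx ⊢
  obtain ⟨D, hD⟩ := hx
  exact ⟨D.sup id + 1, fun y hy => ⟨D, fun h => hD (A.congr h subset_rfl
    fun s hs t ht => (hy s (lt_sup_succ hs) t (lt_sup_succ ht)).1)⟩⟩

instance : PolishSpace (Sp A) :=
  have : PolishSpace Raw := instPolishSpaceOfSeparableSpaceOfIsCompletelyMetrizableSpace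
  (isClosed_sp A).polishSpace

instance : Nonempty (Sp A) := by
  obtain ⟨c, hc⟩ := A.pt
  obtain ⟨w, hw, -⟩ := A.total (hc 0)
  exact ⟨⟨(w, fun _ _ => true), hw⟩⟩

theorem isOpen_iff_agree {O : Set (Sp A)} :
    IsOpen O ↔ ∀ x ∈ O, ∃ n, ∀ y : Sp A, Agree n x.1 y.1 → y ∈ O := by
  constructor
  · rintro ⟨O, hO, rfl⟩ x hx
    obtain ⟨n, hn⟩ := isOpen_iff_agree'.1 hO _ hx
    exact ⟨n, fun y hy => hn _ hy⟩
  · intro h
    refine isOpen_iff_mem_nhds.2 fun x hx => ?_
    obtain ⟨n, hn⟩ := h x hx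
    exact mem_of_superset (((isOpen_agree n x.1).preimage continuous_subtype_val).mem_nhds
      fun _ _ _ _ => ⟨rfl, rfl⟩) hn

theorem residual_of_agree {Z : Set (Sp A)}
    (h1 : ∀ x ∈ Z, ∃ n, ∀ y : Sp A, Agree n x.1 y.1 → y ∈ Z)
    (h2 : ∀ (x : Sp A) n, ∃ y ∈ Z, Agree n x.1 y.1) : Z ∈ residual (Sp A) := by
  refine residual_of_dense_open (isOpen_iff_agree.2 h1) (dense_iff_inter_open.2 ?_)
  rintro O hO ⟨x, hx⟩
  obtain ⟨n, hn⟩ := isOpen_iff_agree.1 hO x hx
  obtain ⟨y, a, b⟩ := h2 x n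
  exact ⟨y, hn y b, a⟩

/-- Relabelling the atoms by a permutation. -/
def act (π : Equiv.Perm ℕ) (x : Sp A) : Sp A :=
  ⟨(fun s t => x.1.1 (π s) (π t), fun s k => x.1.2 (π s) k), fun D =>
    A.pull (U := π) (x.2 (D.image π)) π.injective.injOn (fun _ h => Finset.mem_image_of_mem _ h)
      fun _ _ _ _ => rfl⟩

theorem continuous_act (π : Equiv.Perm ℕ) : Continuous (act (A := A) π) := by
  refine Continuous.subtype_mk ?_ _
  have : Continuous fun x : Sp A => x.1 := continuous_subtype_val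
  fun_prop

theorem residual_act (π : Equiv.Perm ℕ) {Z : Set (Sp A)} (hZ : Z ∈ residual (Sp A)) :
    act π ⁻¹' Z ∈ residual (Sp A) := by
  let h : Sp A ≃ₜ Sp A := ⟨⟨act π, act π.symm, fun x => Subtype.ext (by simp [act]),
    fun x => Subtype.ext (by simp [act])⟩, continuous_act π, continuous_act π.symm⟩
  exact tendsto_residual_of_isOpenMap h.continuous h.isOpenMap hZ

theorem exists_perms : ∃ P : ℕ → Equiv.Perm ℕ, ∀ (K : Finset ℕ) (U : ℕ → ℕ), Set.InjOn U K →
    ∃ c, ∀ s ∈ K, P c s = U s := by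
  have h : ∀ p : Σ K : Finset ℕ, {U : K → ℕ // Function.Injective U},
      ∃ π : Equiv.Perm ℕ, ∀ s : p.1, π s = p.2.1 s := fun p =>
    Equiv.Perm.exists_extending_pair _ _ Subtype.val_injective p.2.2
  choose f hf using h
  have : Nonempty (Σ K : Finset ℕ, {U : K → ℕ // Function.Injective U}) :=
    ⟨⟨∅, Subtype.val, Subtype.val_injective⟩⟩
  obtain ⟨e, he⟩ := exists_surjective_nat (Σ K : Finset ℕ, {U : K → ℕ // Function.Injective U})
  refine ⟨fun c => f (e c), fun K U hU => ?_⟩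
  obtain ⟨c, hc⟩ := he ⟨K, fun s => U s, fun s t h => Subtype.ext (hU s.2 t.2 h)⟩
  refine ⟨c, fun s hs => ?_⟩
  simp only [hc]
  exact hf ⟨K, _⟩ ⟨s, hs⟩

theorem exists_enum (β : Type) [Countable β] [Inhabited β] : ∃ e : ℕ → ℕ → ℕ → β,
    ∀ (n : ℕ) (f : ℕ → ℕ → β), ∃ c, ∀ s < n, ∀ t < n, e c s t = f s t := by
  obtain ⟨e, he⟩ := exists_surjective_nat (Σ n : ℕ, Fin n → Fin n → β)
  let g : (Σ n : ℕ, Fin n → Fin n → β) → ℕ → ℕ → β := fun p s t =>
    if h : s < p.1 ∧ t < p.1 then p.2 ⟨s, h.1⟩ ⟨t, h.2⟩ else default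
  refine ⟨fun c => g (e c), fun n f => ?_⟩
  obtain ⟨c, hc⟩ := he ⟨n, fun s t => f s t⟩
  refine ⟨c, fun s hs t ht => ?_⟩
  simp only [hc, g, hs, ht, and_self, dif_pos]

/-- The extension property of a labelled structure. -/
def Ext (A : Amalg) (v : ℕ → ℕ → ℕ) (lb : ℕ → ℕ → Bool) (K K' : Finset ℕ) (U : ℕ → ℕ)
    (q : ℕ → ℕ → ℕ) (L : ℕ) (σ : ℕ → ℕ → Bool) : Prop :=
  K ⊆ K' → A.Adm K' q → (∀ s ∈ K, ∀ t ∈ K, v (U s) (U t) = q s t) →
    ∃ U', Set.InjOn U' K' ∧ (∀ s ∈ K, U' s = U s) ∧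
      (∀ s ∈ K', ∀ t ∈ K', v (U' s) (U' t) = q s t) ∧
      ∀ s ∈ K', s ∉ K → ∀ k < L, lb (U' s) k = σ s k

theorem residual_ext (K K' : Finset ℕ) (q : ℕ → ℕ → ℕ) (L : ℕ) (σ : ℕ → ℕ → Bool) :
    {x : Sp A | Ext A x.1.1 x.1.2 K K' id q L σ} ∈ residual (Sp A) := by
  refine residual_of_agree (fun x hx => ?_) fun x n => ?_
  · by_cases h : K ⊆ K' ∧ A.Adm K' q ∧ ∀ s ∈ K, ∀ t ∈ K, x.1.1 s t = q s t
    · obtain ⟨U, a, b, c, d⟩ := hx h.1 h.2.1 h.2.2
      have e : ∀ s ∈ K', U s < K'.sup U + L + 1 := fun s hs => by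
        have := Finset.le_sup (f := U) hs; omega
      refine ⟨K'.sup U + L + 1, fun y hy _ _ _ => ⟨U, a, b, fun s hs t ht => ?_,
        fun s hs hs' k hk => ?_⟩⟩
      · rw [← c s hs t ht, (hy _ (e s hs) _ (e t ht)).1]
      · rw [← d s hs hs' k hk, (hy _ (e s hs) _ (by omega)).2]
    · exact ⟨K.sup id + 1, fun y hy a b c => (h ⟨a, b, fun s hs t ht =>
        (hy s (lt_sup_succ hs) t (lt_sup_succ ht)).1.trans (c s hs t ht)⟩).elim⟩
  · by_cases h : K ⊆ K' ∧ A.Adm K' q ∧ ∀ s ∈ K, ∀ t ∈ K, x.1.1 s t = q s t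
    swap
    · exact ⟨x, fun a b c => (h ⟨a, b, c⟩).elim, fun _ _ _ _ => ⟨rfl, rfl⟩⟩
    obtain ⟨h1, h2, h3⟩ := h
    set B := n + K'.sup id + 1 with hB
    have hK : ∀ s ∈ K', s < B := fun s hs => by have := lt_sup_succ hs; omega
    let U : ℕ → ℕ := fun s => if s ∈ K then s else s + B
    let V : ℕ → ℕ := fun s => if s < B then s else s - B
    have hUV : ∀ s ∈ K', V (U s) = s := fun s hs => by
      simp only [U, V]; split_ifs <;> have := hK s hs <;> omega
    let E := (K' \ K).image (· + B)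
    have hE : ∀ s ∈ K ∪ E, V s ∈ K' ∧ U (V s) = s := by
      intro s hs
      rcases Finset.mem_union.1 hs with hs | hs
      · simp [U, V, hs, h1 hs, hK s (h1 hs)]
      · obtain ⟨t, ht, rfl⟩ := Finset.mem_image.1 hs
        rw [Finset.mem_sdiff] at ht
        simp [U, V, ht]
    have hU : ∀ s ∈ K', U s ∈ K ∪ E := fun s hs => by
      simp only [U]
      split_ifs with h
      exacts [Finset.mem_union_left _ h, Finset.mem_union_right _
        (Finset.mem_image_of_mem _ (Finset.mem_sdiff.2 ⟨hs, h⟩))]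
    obtain ⟨w, a, b, c⟩ := A.amal (E0 := K) (D := Finset.range B) (E := E) (s := x.1.1)
      (q := fun s t => q (V s) (V t)) (fun s hs => Finset.mem_range.2 (hK s (h1 hs)))
      (Finset.disjoint_left.2 fun s hs hs' => by
        obtain ⟨t, -, rfl⟩ := Finset.mem_image.1 hs'
        simp at hs) (x.2 _)
      (A.pull (U := V) h2 (fun s hs t ht e => by rw [← (hE s hs).2, e, (hE t ht).2])
        (fun s hs => (hE s hs).1) fun _ _ _ _ => rfl)
      fun s hs t ht => by simp [V, hK s (h1 hs), hK t (h1 ht), h3 s hs t ht]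
    obtain ⟨w', d, e⟩ := A.total a
    have hs' : K ∪ E ⊆ Finset.range B ∪ E :=
      Finset.union_subset_union_left fun s hs => Finset.mem_range.2 (hK s (h1 hs))
    refine ⟨⟨(w', fun s k => if s < B then x.1.2 s k else σ (s - B) k), d⟩,
      fun _ _ _ => ⟨U, fun s hs t ht e => by rw [← hUV s hs, e, hUV t ht],
        fun s hs => if_pos hs, fun s hs t ht => ?_, fun s hs hs' k _ => ?_⟩,
      fun s hs t ht => ⟨?_, ?_⟩⟩
    · have := c _ (hU s hs) _ (hU t ht)
      rw [hUV s hs, hUV t ht] at this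
      exact (e _ (hs' (hU s hs)) _ (hs' (hU t ht))).trans this
    · simp [U, hs']
    · have h4 : ∀ s < n, s ∈ Finset.range B := fun s hs => Finset.mem_range.2 (by omega)
      exact ((e s (Finset.mem_union_left _ (h4 s hs)) t
        (Finset.mem_union_left _ (h4 t ht))).trans (b s (h4 s hs) t (h4 t ht))).symm
    · exact (if_pos (by omega)).symm

theorem residual_inj : {x : Sp A | ∀ s t, (∀ k, x.1.2 s k = x.1.2 t k) → s = t} ∈
    residual (Sp A) := by
  refine eventually_countable_forall.2 fun s => eventually_countable_forall.2 fun t => ?_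
  by_cases h : s = t
  · exact .of_forall fun _ _ => h
  · refine residual_of_agree (fun x hx => ?_) fun x n => ?_
    · obtain ⟨k, hk⟩ := not_forall.1 (mt hx h)
      refine ⟨s + t + k + 1, fun y hy h' => (hk ?_).elim⟩
      rw [(hy s (by omega) k (by omega)).2, (hy t (by omega) k (by omega)).2, h']
    · refine ⟨⟨(x.1.1, fun a k => if k < n then x.1.2 a k else decide (a = s)), x.2⟩,
        fun h' => ?_, fun a _ k hk => ⟨rfl, (if_pos hk).symm⟩⟩
      simpa [eq_comm] using h' n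

/-- A Borel set is locally decided at almost every point. -/
theorem exists_decided [MeasurableSpace (Sp A)] [BorelSpace (Sp A)] {B : Set (Sp A)}
    (hB : MeasurableSet B) : ∃ C ∈ residual (Sp A), ∀ x ∈ C, ∃ n, ∀ y ∈ C, Agree n x.1 y.1 →
      (x ∈ B ↔ y ∈ B) := by
  obtain ⟨O, hO, h⟩ := hB.residualEq_isOpen
  have h1 : O ∪ (closure O)ᶜ ∈ residual (Sp A) := by
    refine residual_of_dense_open (hO.union isClosed_closure.isOpen_compl) fun x => ?_
    rw [closure_union]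
    by_cases hx : x ∈ closure O
    exacts [Or.inl hx, Or.inr (subset_closure hx)]
  refine ⟨_, inter_mem (h.mem_iff) h1, ?_⟩
  rintro x ⟨a, b | b⟩
  · obtain ⟨n, hn⟩ := isOpen_iff_agree.1 hO x b
    exact ⟨n, fun y hy e => iff_of_true (a.2 b) (hy.1.2 (hn y e))⟩
  · obtain ⟨n, hn⟩ := isOpen_iff_agree.1 isClosed_closure.isOpen_compl x b
    exact ⟨n, fun y hy e => iff_of_false (fun c => b (subset_closure (a.1 c)))
      fun c => hn y e (subset_closure (hy.1.1 c))⟩

end Pool.Agent.P.MP_68237a_lc
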