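import Pool.Agent.P.MP_68237a_lc.Names

/-!
The countable family of quasi-metrizable spaces whose product is not quasi-metrizable.
-/

universe u

set_option synthInstance.maxSize 16384

namespace Pool.Agent.P.MP_68237a_lc

open ZFSet Pool.Agent.Lib.Forcing

section comb
variable {w : Str} (hw : ∀ D, Adm D w) {a n s t v i : ℕ}

def VE (w : Str) (a s t : ℕ) : Prop := B w (w a s).f s t

def QE (w : Str) (a n s t : ℕ) : Prop :=
  VE w a s t ∨ ∃ v, (w v v).so = n ∧ VE w a s v ∧ (w a v).σ (w a v).f = 0 ∧ VE w a v t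

def ht (w : Str) (i t : ℕ) : ℕ := (w i t).H (w t t).j

include hw

theorem B.trans {k : ℕ} (h : B w k s t) (h' : B w k t v) : B w k s v :=
  (hw {s, t, v}).tr s (by simp) t (by simp) v (by simp) k h h'

theorem act_of (ha : (w a a).m = n) (hs : (w s s).so = n) :
    Act (w s s).j (w a s).f (w a s).σ :=
  (hw {a, s}).act a (by simp) s (by simp) (ha.trans hs.symm)

theorem QE.step (ha : (w a a).m = n) (hs : (w s s).so = n) (ht : (w t t).so = n)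
    (h : QE w a n s t) (h' : VE w a t v) : QE w a n s v := by
  have m : ∀ {s t}, VE w a s t → (w a t).σ (w a s).f ≤ (w a s).σ (w a s).f := fun {s t} h =>
    (hw {a, s, t}).mono a (by simp) s (by simp) t (by simp) _ h
  obtain ⟨-, -, c, d⟩ := act_of hw ha ht
  rcases h with h | ⟨x, h1, h2, h3, h4⟩
  · have e := (m h).trans (act_of hw ha hs).2.1
    have f : (w a s).f ≤ (w a t).f ∨ (w a t).σ (w a t).f = 0 := by
      generalize hz : (w a t).σ (w a s).f = z at e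
      fin_cases z
      exacts [Or.inl (c _ hz), d _ hz, absurd e (by decide)]
    exact f.elim (fun f => Or.inl (B.trans hw h (B.le h' f))) fun f => Or.inr ⟨t, ht, h, f, h'⟩
  · exact Or.inr ⟨x, h1, h2, h3, B.trans hw h4 (B.le h' (c _ (le_antisymm (h3 ▸ m h4)
      (Fin.zero_le _))))⟩

theorem QE.trans (ha : (w a a).m = n) (hs : (w s s).so = n) (ht : (w t t).so = n)
    (h : QE w a n s t) (h' : QE w a n t v) : QE w a n s v := by
  rcases h' with h' | ⟨x, h1, h2, -, h4⟩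
  exacts [h.step hw ha hs ht h', (h.step hw ha hs ht h2).step hw ha hs h1 h4]

theorem VE.drop (ha : (w a a).m = n) (hs : (w s s).so = n) (h : VE w a s t) :
    ht w i s ≤ ht w i t + 1 := by
  have A := hw {i, s, t}
  have h1 := A.lip i (by simp) s (by simp) t (by simp) (w s s).j (w t t).j
  have h2 := A.ctri s (by simp) t (by simp) t (by simp) (w s s).j (w s s).j (w t t).j
  rw [A.c0 s (by simp) t (by simp) _ (B.le h (act_of hw ha hs).1), zero_add] at h2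
  exact_mod_cast h1.trans (add_le_add_right (h2.trans (A.c1 t (by simp) _)) _)

theorem QE.drop (ha : (w a a).m = n) (hs : (w s s).so = n) (h : QE w a n s t) :
    ht w i s ≤ ht w i t + 2 := by
  rcases h with h | ⟨x, h1, h2, -, h4⟩
  · exact (h.drop hw ha hs).trans (by omega)
  · have := h2.drop (i := i) hw ha hs
    have := h4.drop (i := i) hw ha h1
    omega

end comb

def QT : ℕ → Dat → ℕ → ℕ → Prop
  | 0, d, a, _ => d.so = a
  | 1, d, a, _ => a < d.δ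
  | 2, d, a, _ => d.j = a
  | 3, d, a, b => 2 * b ≤ d.H a
  | 4, d, a, _ => d.f = a
  | _, d, _, _ => d.σ d.f = 0

noncomputable def TT (ρ : ℕ → Dat) : ZFSet.{u} := HF.sep fun z => ∃ c g a b,
  QT g (ρ c) a b ∧ z = pair (nat c) (pair (nat g) (pair (nat a) (nat b)))

section defs
variable (ρ : ℕ → Dat) (y : Raw)

def At (g : ℕ) (x z a b : ZFSet.{u}) : Prop :=
  ∃ c, pair (pair x z) c ∈ Sig y ∧ pair c (pair (nat g) (pair a b)) ∈ TT ρ

def Vv (a x z : ZFSet.{u}) : Prop := ∃ f ∈ omega, At ρ y 4 a x f f ∧ (x = z ∨ At ρ y 1 x z f f)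

def Qr (a n x z : ZFSet.{u}) : Prop := Vv ρ y a x z ∨
  ∃ v ∈ DD y, At ρ y 0 v v n n ∧ Vv ρ y a x v ∧ At ρ y 5 a v ∅ ∅ ∧ Vv ρ y a v z

noncomputable def XX (n : ZFSet.{u}) : ZFSet.{u} :=
  insert ∅ (img (pair (nat 0)) ((DD y).sep fun v => At ρ y 0 v v n n) ∪ img (pair (nat 1)) (DD y))

def Gr (Q : ZFSet.{u} → ZFSet.{u} → Prop) (n : ZFSet.{u}) : R3.{u} := fun k x z =>
  x = z ∨ ∃ z' ∈ DD y, At ρ y 0 z' z' n n ∧ z = pair (nat 0) z' ∧ ∃ x' ∈ DD y,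
    (x = pair (nat 0) x' ∧ (x' = z' ∨ At ρ y 1 x' z' k k) ∧ Q x' z') ∨
    (x = pair (nat 1) x' ∧ ∃ j ∈ omega, At ρ y 2 z' z' j j ∧ At ρ y 3 x' z' j k)

end defs

theorem cp_of_ind {N : Set ZFSet.{u}} [ZFm N] {Z τ : ZFSet.{u}} (hZ : Z ∈ N) (R : R3.{u})
    [hd : Df N fun e => R (e 0) (e 1) (e 2)] (hR : Sc omega Z R) (h : Ind N Z τ R) :
    Cp omega Z τ R := by
  have := InM.mk hZ
  have hd' := Df.subst3 hd
  refine cp_iff.2 ⟨fun V hV => ((h V).1 hV).2.2, fun x hx k => ?_, fun V hV => ((h V).1 hV).2.1⟩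
  have := InM.mk (mem_of_mem hZ hx)
  refine ⟨_, (h _).2 ⟨sep_mem (fun y => ∃ l ∈ omega, ∀ z ∈ Z, R l y z → R (nat k) x z) hZ,
    sep_subset, fun y hy => ?_⟩, mem_sep.2 ⟨hx, _, nat_mem_omega k, fun _ _ h => h⟩,
    fun y hy => ?_⟩
  all_goals obtain ⟨a, l, b⟩ := (mem_sep.1 hy).imp_right exists_omega.1
  exacts [⟨l + 1, fun z c d => mem_sep.2 ⟨c, _, nat_mem_omega (l + 1),
    fun v e f => b v e (hR.half a c e d f)⟩⟩, b y a (hR.refl l a)]

variable {A : Amalg} {Γ : ZFSet.{u}} (G : GM A Γ) (ρ : ℕ → Dat)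

namespace GM

def w : Str := fun s t => ρ (G.y.1 s t)

def p (g s : ℕ) : ZFSet.{u} := pair (nat g) (G.l s)

theorem p_inj {g s g' s' : ℕ} : G.p g s = G.p g' s' ↔ g = g' ∧ s = s' := by
  simp [p, nat_inj, G.l_inj]

theorem p_ne {g s : ℕ} : G.p g s ≠ ∅ := fun h =>
  notMem_empty {nat g} (h ▸ (mem_insert _ _ : {nat g} ∈ G.p g s))

theorem at_iff {g s t a b : ℕ} :
    At ρ G.y g (G.l s) (G.l t) (nat a) (nat b) ↔ QT g (G.w ρ s t) a b := by
  simp [At, G.sig_iff, TT, HF_pair (HF_nat _) (HF_pair (HF_nat _) (HF_pair (HF_nat _) (HF_nat _))),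
    nat_inj, w]

theorem exists_DD {P : ZFSet.{u} → Prop} : (∃ x ∈ DD G.y, P x) ↔ ∃ t, P (G.l t) := by
  simp [mem_DD]

theorem qq_iff {a n s t : ℕ} :
    Qr ρ G.y (G.l a) (nat n) (G.l s) (G.l t) ↔ QE (G.w ρ) a n s t := by
  have : (∅ : ZFSet.{u}) = nat 0 := rfl
  simp only [Qr, Vv, this, G.exists_DD, exists_omega, at_iff, QT, G.l_inj, exists_eq_left', QE,
    VE, B]

theorem mem_XX {n : ℕ} {x : ZFSet.{u}} : x ∈ XX ρ G.y (nat n) ↔
    x = ∅ ∨ (∃ t, (G.w ρ t t).so = n ∧ x = G.p 0 t) ∨ ∃ t, x = G.p 1 t := by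
  simp only [XX, mem_insert_iff, mem_union, mem_img, mem_sep, and_assoc, G.exists_DD, at_iff, QT, p,
    eq_comm]

theorem gr_iff {Q : ZFSet.{u} → ZFSet.{u} → Prop} {n k : ℕ} {x z : ZFSet.{u}} :
    Gr ρ G.y Q (nat n) (nat k) x z ↔ x = z ∨ ∃ t, (G.w ρ t t).so = n ∧ z = G.p 0 t ∧ ∃ s,
      (x = G.p 0 s ∧ B (G.w ρ) k s t ∧ Q (G.l s) (G.l t)) ∨
      (x = G.p 1 s ∧ 2 * k ≤ ht (G.w ρ) s t) := by
  simp only [Gr, G.exists_DD, exists_omega, at_iff, QT, G.l_inj, exists_eq_left', B, ht, p]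

variable (hw : ∀ D, Adm D (G.w ρ))
include hw

theorem sc_gr {a n : ℕ} (ha : (G.w ρ a a).m = n) :
    Sc omega (XX ρ G.y (nat n)) (Gr ρ G.y (Qr ρ G.y (G.l a) (nat n)) (nat n)) := by
  have mono : ∀ {k x z}, Gr ρ G.y (Qr ρ G.y (G.l a) (nat n)) (nat n) (nat (k + 1)) x z →
      Gr ρ G.y (Qr ρ G.y (G.l a) (nat n)) (nat n) (nat k) x z := fun h =>
    (G.gr_iff ρ).2 (((G.gr_iff ρ).1 h).imp_right fun ⟨t, b, c, s, d⟩ => ⟨t, b, c, s, d.imp
      (fun e => ⟨e.1, e.2.1.le (Nat.le_succ _), e.2.2⟩) fun e => ⟨e.1, by have := e.2; omega⟩⟩)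
  refine sc_iff.2 ⟨fun _ _ _ => Or.inl rfl, fun k x hx y _ z _ b c => ?_, fun x _ y _ h => ?_⟩
  · rcases (G.gr_iff ρ).1 b with rfl | ⟨t, b1, rfl, s, b2⟩
    · exact mono c
    rcases (G.gr_iff ρ).1 c with rfl | ⟨v, c1, rfl, t', ⟨c2, c3, c4⟩ | ⟨c2, -⟩⟩
    · exact mono b
    swap
    · simp [p_inj] at c2
    obtain rfl := (G.p_inj.1 c2).2
    rw [qq_iff] at c4
    refine (G.gr_iff ρ).2 (Or.inr ⟨v, c1, rfl, s, b2.imp ?_ fun e => ⟨e.1, ?_⟩⟩)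
    · rintro ⟨rfl, e1, e2⟩
      have : (G.w ρ s s).so = n := by simpa [G.mem_XX, p_inj, G.p_ne] using hx
      exact ⟨rfl, (B.trans hw e1 c3).le k.le_succ, (G.qq_iff ρ).2
        (((G.qq_iff ρ).1 e2).trans hw ha this b1 c4)⟩
    · have := c4.drop (i := s) hw ha b1
      have := e.2
      omega
  · rcases (G.gr_iff ρ).1 (h 0) with b | ⟨t, -, rfl, s, ⟨rfl, -⟩ | ⟨rfl, -⟩⟩
    · exact b
    · have := (G.gr_iff ρ).1 (h (G.w ρ s t).δ)
      simp [p_inj, B] at this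
      rcases this with b | ⟨-, b, -⟩ <;> rw [b]
    · have := (G.gr_iff ρ).1 (h (ht (G.w ρ) s t + 1))
      simp [p_inj] at this
      omega

omit hw in
theorem ind_gr {a n : ℕ} {τ : ZFSet.{u}}
    (h : Ind G.N (XX ρ G.y (nat n)) τ (Gr ρ G.y (fun _ _ => True) (nat n))) :
    Ind G.N (XX ρ G.y (nat n)) τ (Gr ρ G.y (Qr ρ G.y (G.l a) (nat n)) (nat n)) := by
  refine h.congr (fun x hx k => ?_) fun x _ k => ⟨k, fun y _ b => (G.gr_iff ρ).2
    (((G.gr_iff ρ).1 b).imp_right fun ⟨t, b, c, s, d⟩ =>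
      ⟨t, b, c, s, d.imp_left fun e => ⟨e.1, e.2.1, trivial⟩⟩)⟩
  rcases (G.mem_XX ρ).1 hx with rfl | ⟨s, -, rfl⟩ | ⟨s, rfl⟩
  · exact ⟨k, fun y _ => by simp [G.gr_iff, G.p_ne.symm]⟩
  · refine ⟨k + (G.w ρ a s).f, fun y _ b => (G.gr_iff ρ).2 (((G.gr_iff ρ).1 b).imp_right ?_)⟩
    rintro ⟨t, b, c, s', ⟨d, e, -⟩ | ⟨d, -⟩⟩
    · obtain rfl := (G.p_inj.1 d).2
      exact ⟨t, b, c, s, Or.inl ⟨rfl, e.le (by omega), (G.qq_iff ρ).2 (Or.inl (e.le (by omega)))⟩⟩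
    · simp [p_inj] at d
  · exact ⟨k, fun y _ => by simp [G.gr_iff, p_inj]⟩

end GM

end Pool.Agent.P.MP_68237a_lc
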